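import Pool.Agent.Helper87.SH.UF

/-!
# Project RC, SHARP, cell engine (O4): the fields of the second multiplier in the record

`dP s l t = 2 ^ (-s) ∑_n (a_n + i b_n) ee (n t)`, `l` = the pairs of the frequencies `-M, .., M` (`M = Mof l`).
`okP b r s l q = true` (kernel) gives `okP_bm : BM (dP s l) 1`, `okP_ap : AP b s ⟨ofP b l, 0⟩ (dP s l)` (error `0`),
`okP_ap2` (scale `s + a`).
-/

open MeasureTheory Set Filter Topology

namespace Helper87.SH

open Helper49.LT hiding sg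
open Helper54.RC.Fast
open Helper76.RC.TPoly
open Helper87.RC (BM fc_eq fc_add fc_cmul)
open Helper56.RC (fc)

/-- first and second components -/
def l1st : List (ℤ × ℤ) → List ℤ
  | [] => []
  | p :: l => p.1 :: l1st l
def l2nd : List (ℤ × ℤ) → List ℤ
  | [] => []
  | p :: l => p.2 :: l2nd l

/-- the length -/
def lenP : List (ℤ × ℤ) → ℕ
  | [] => 0
  | _ :: l => Nat.succ (lenP l)

/-- the degree -/
def Mof (l : List (ℤ × ℤ)) : ℕ := Nat.div (lenP l) 2

theorem length_l1st (l : List (ℤ × ℤ)) : (l1st l).length = lenP l := by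
  induction l with
  | nil => rfl
  | cons p l ih => simp [l1st, lenP, ih]
theorem length_l2nd (l : List (ℤ × ℤ)) : (l2nd l).length = lenP l := by
  induction l with
  | nil => rfl
  | cons p l ih => simp [l2nd, lenP, ih]

/-- the field -/
noncomputable def dP (s : ℕ) (l : List (ℤ × ℤ)) (t : ℝ) : ℂ := (1 / 2 ^ s : ℂ) * T (Mof l) ⟨l1st l, l2nd l⟩ t

/-- the polynomial in the fast format -/
def ofP (b : ℕ) (l : List (ℤ × ℤ)) : FP := ofL b (Mof l) (l1st l) (l2nd l)

/-- THE CHECK -/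
def okP (b r s : ℕ) (l : List (ℤ × ℤ)) (q : FP) : Bool :=
  bif rng b (l1st l) then bif rng b (l2nd l) then bif Nat.beq (Nat.mod (lenP l) 2) 1 then okD b r s (ofP b l) q
  else false else false else false

section

variable {b r s : ℕ} {l : List (ℤ × ℤ)} {q : FP}

theorem okP_sound (h : okP b r s l q = true) : okD b r s (ofP b l) q = true ∧ wf b (ofP b l) = true ∧
    ∀ t, V b (ofP b l) t = T (Mof l) ⟨l1st l, l2nd l⟩ t := by
  unfold okP at h
  simp only [bift] at h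
  obtain ⟨h1, h2, h3, h4⟩ := h
  have h3 : lenP l % 2 = 1 := Nat.eq_of_beq_eq_true h3
  have hM : Mof l = lenP l / 2 := rfl
  have k := ofL_sound b (Mof l) (l1st l) (l2nd l) (by rw [length_l1st, len_eq, hM]; omega)
    (by rw [length_l2nd, len_eq, hM]; omega) h1 h2
  exact ⟨h4, k.1, k.2⟩

theorem dP_eq (h : okP b r s l q = true) : dP s l = dF b s (ofP b l) := by
  funext t
  unfold dP dF
  rw [(okP_sound h).2.2]

theorem okP_bm (h : okP b r s l q = true) : BM (dP s l) 1 := by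
  rw [dP_eq h]
  exact dF_bm (okP_sound h).1

theorem okP_ap (h : okP b r s l q = true) : AP b s ⟨ofP b l, 0⟩ (dP s l) := by
  obtain ⟨_, h2, h3⟩ := okP_sound h
  refine ⟨h2, fun t => ?_⟩
  have e : (2 ^ s : ℂ) * dP s l t = V b (ofP b l) t := by
    rw [h3]
    unfold dP
    have : (2 ^ s : ℂ) ≠ 0 := pow_ne_zero _ two_ne_zero
    field_simp
  show ‖V b (ofP b l) t - (2 ^ s : ℂ) * dP s l t‖ ≤ ((0 : ℕ) : ℝ)
  rw [e, sub_self, norm_zero, Nat.cast_zero]

/-- the same at the scale `s + a` -/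
theorem okP_ap2 (h : okP b r s l q = true) (a : ℕ) (hr : r ≤ b + 1) (h2 : oks b r (2 ^ a) (ofP b l) = true) :
    AP b (s + a) ⟨smF b (2 ^ a) (ofP b l), 0⟩ (dP s l) := by
  obtain ⟨_, w, h3⟩ := okP_sound h
  obtain ⟨k1, k2⟩ := smF_sound b r hr (2 ^ a) (ofP b l) w h2
  refine ⟨k1, fun t => ?_⟩
  have e : (2 ^ (s + a) : ℂ) * dP s l t = V b (smF b (2 ^ a) (ofP b l)) t := by
    rw [k2, h3]
    unfold dP
    have : (2 ^ s : ℂ) ≠ 0 := pow_ne_zero _ two_ne_zero
    rw [pow_add]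
    push_cast
    field_simp
  show ‖V b (smF b (2 ^ a) (ofP b l)) t - (2 ^ (s + a) : ℂ) * dP s l t‖ ≤ ((0 : ℕ) : ℝ)
  rw [e, sub_self, norm_zero, Nat.cast_zero]

/-- the light check for `AP` at another packing `b` -/
def okA (b : ℕ) (l : List (ℤ × ℤ)) : Bool :=
  bif rng b (l1st l) then bif rng b (l2nd l) then Nat.beq (Nat.mod (lenP l) 2) 1 else false else false

theorem okA_sound (h : okA b l = true) : wf b (ofP b l) = true ∧
    ∀ t, V b (ofP b l) t = T (Mof l) ⟨l1st l, l2nd l⟩ t := by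
  unfold okA at h
  simp only [bift] at h
  obtain ⟨h1, h2, h3⟩ := h
  have h3 : lenP l % 2 = 1 := Nat.eq_of_beq_eq_true h3
  have hM : Mof l = lenP l / 2 := rfl
  exact ofL_sound b (Mof l) (l1st l) (l2nd l) (by rw [length_l1st, len_eq, hM]; omega)
    (by rw [length_l2nd, len_eq, hM]; omega) h1 h2

theorem okA_ap (h : okA b l = true) : AP b s ⟨ofP b l, 0⟩ (dP s l) := by
  obtain ⟨h2, h3⟩ := okA_sound h
  refine ⟨h2, fun t => ?_⟩
  have e : (2 ^ s : ℂ) * dP s l t = V b (ofP b l) t := by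
    rw [h3]
    unfold dP
    have : (2 ^ s : ℂ) ≠ 0 := pow_ne_zero _ two_ne_zero
    field_simp
  show ‖V b (ofP b l) t - (2 ^ s : ℂ) * dP s l t‖ ≤ ((0 : ℕ) : ℝ)
  rw [e, sub_self, norm_zero, Nat.cast_zero]

/-- the same at the scale `s + a` -/
theorem okA_ap2 (h : okA b l = true) (a : ℕ) (hr : r ≤ b + 1) (h2 : oks b r (2 ^ a) (ofP b l) = true) :
    AP b (s + a) ⟨smF b (2 ^ a) (ofP b l), 0⟩ (dP s l) := by
  obtain ⟨w, h3⟩ := okA_sound h
  obtain ⟨k1, k2⟩ := smF_sound b r hr (2 ^ a) (ofP b l) w h2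
  refine ⟨k1, fun t => ?_⟩
  have e : (2 ^ (s + a) : ℂ) * dP s l t = V b (smF b (2 ^ a) (ofP b l)) t := by
    rw [k2, h3]
    unfold dP
    have : (2 ^ s : ℂ) ≠ 0 := pow_ne_zero _ two_ne_zero
    rw [pow_add]
    push_cast
    field_simp
  show ‖V b (smF b (2 ^ a) (ofP b l)) t - (2 ^ (s + a) : ℂ) * dP s l t‖ ≤ ((0 : ℕ) : ℝ)
  rw [e, sub_self, norm_zero, Nat.cast_zero]

/-- no coefficients beyond the degree -/
theorem fc_dP_far (h : okP b r s l q = true) {n : ℤ} (hn : (Mof l : ℤ) < |n|) : fc (dP s l) n = 0 := by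
  rw [dP_eq h, fc_dF]
  unfold cz
  have e : (ofP b l).N = Mof l := rfl
  rw [e, if_neg, mul_zero]
  rw [Finset.mem_Icc]
  rcases le_or_gt 0 n with h1 | h1
  · rw [abs_of_nonneg h1] at hn; omega
  · rw [abs_of_neg h1] at hn; omega

end

end Helper87.SH
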