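import Pool.Agent.Helper19.SH.ColB
import Pool.Agent.Helper30.SH.ZRow4
import Pool.Agent.Helper95.SH.CoordL

/-!
# Project RC, SHARP, cell engine: the constants of the rows of the collar are Fourier coefficients

`kXf, kYf, kZf`: functions whose Fourier coefficients are the constants `cX, cY, cZ` (helper19) of the rows `Xr, Yr, Zr`.
-/

set_option autoImplicit false

open MeasureTheory Set Filter Topology

namespace Helper87.SH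

open Helper49.LT hiding sg
open Helper49.RC (om)
open Helper49.Sharp (Par u1_bm u2_bm)
open Helper87.RC (BM fc_eq fc_sub fc_cmul fc_add fc_conj)
open Helper56.RC (fc)
open Helper30.SH
open Helper95.RC (kq Sup bmw)
open Helper95.SH (CD wm sy gLQ Fw Fn Z1 Z2 E1 E2 V1 V2 Rn fc_w fc_prod br_bm)
open Pool.Agent.Helper19.SH (T1 T2 Gf cX cY cZ)

section

variable (c : CD)

/-- the factor of the local form -/
noncomputable def fG (t : ℝ) : ℂ :=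
  ((c.P.m - c.P.lam : ℝ) : ℂ) * ((c.P.w t * c.L.f t : ℝ) : ℂ) + (c.mu1 / 2 : ℂ) * (c.L.f t : ℂ)
/-- `z* + conj z* / 2` -/
noncomputable def fZs (t : ℝ) : ℂ := c.L.zs t + 1 / 2 * (starRingEnd ℂ) (c.L.zs t)
/-- the near directions -/
noncomputable def v1f (t : ℝ) : ℂ := (c.mu1 / 2 : ℂ) * c.P.u1 t + (c.mu2 / 2 : ℂ) * c.d1 t
noncomputable def v2f (t : ℝ) : ℂ := (c.mu1 / 2 : ℂ) * c.P.u2 t + (c.mu2 / 2 : ℂ) * c.d2 t
/-- `(m - lam) w + mu1 / 2` times `b` -/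
noncomputable def hWf (b : ℝ → ℝ) (t : ℝ) : ℂ :=
  ((c.P.m - c.P.lam : ℝ) : ℂ) * ((c.P.w t : ℂ) * (b t : ℂ)) + (c.mu1 / 2 : ℂ) * (b t : ℂ)

noncomputable def kXf (t : ℝ) : ℂ := (fS c.P t + (v1f c t - v2f c t)) - fG c t * fZs c t
noncomputable def yYf (t : ℝ) : ℂ := fP c.P t + (om * v1f c t + om ^ 2 * v2f c t)
noncomputable def yZf (t : ℝ) : ℂ := fR c.P t + ((starRingEnd ℂ) (kq 2) * v1f c t + kq 2 * v2f c t)
noncomputable def kYf (t : ℝ) : ℂ :=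
  1 / 2 * (yYf c t + (starRingEnd ℂ) (yYf c t)) + (c.L.p2 : ℂ) * hWf c c.L.b2s t
noncomputable def kZf (t : ℝ) : ℂ :=
  1 / 2 * (yZf c t + (starRingEnd ℂ) (yZf c t)) + (c.L.p3 : ℂ) * hWf c c.L.b3s t

end

section

variable {c : CD}

theorem ee_conj_neg (x : ℝ) : (starRingEnd ℂ) (ee (-x)) = ee x := by
  rw [ee_neg, Complex.conj_conj]

theorem T1_fc (ok : c.OK) (h0 : c.P.a0 = fun _ => 0) (n : ℤ) : T1 c n = fc (zz1 c.P) n := by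
  have hr := ok.st.reg
  unfold T1
  rw [fc_Z1_half hr h0 ok.i1 ok.e1 n]
  unfold E1
  rw [map_mul, ee_conj_neg]
  push_cast
  ring

theorem T2_fc (ok : c.OK) (h0 : c.P.a0 = fun _ => 0) (n : ℤ) : T2 c n = fc (zz2 c.P) n := by
  have hr := ok.st.reg
  unfold T2
  rw [fc_Z2_half hr h0 ok.i2 ok.e2 n]
  unfold E2
  rw [map_mul, ee_conj_neg]
  push_cast
  ring

theorem v1f_bm (ok : c.OK) : ∃ C, BM (v1f c) C :=
  ⟨_, ((u1_bm ok.st.reg).cmul _).add (ok.b1.cmul _)⟩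
theorem v2f_bm (ok : c.OK) : ∃ C, BM (v2f c) C :=
  ⟨_, ((u2_bm ok.st.reg).cmul _).add (ok.b2.cmul _)⟩

theorem fc_v1f (ok : c.OK) (n : ℤ) : fc (v1f c) n = V1 c n := by
  unfold v1f
  rw [fc_add ((u1_bm ok.st.reg).cmul _) (ok.b1.cmul _), fc_cmul, fc_cmul]
  rfl
theorem fc_v2f (ok : c.OK) (n : ℤ) : fc (v2f c) n = V2 c n := by
  unfold v2f
  rw [fc_add ((u2_bm ok.st.reg).cmul _) (ok.b2.cmul _), fc_cmul, fc_cmul]
  rfl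

theorem w_bm (ok : c.OK) : ∃ C, BM (fun t => (c.P.w t : ℂ)) C := bmw ok.st.reg.wgt

theorem wf_bm (ok : c.OK) : ∃ C, BM (fun t => ((c.P.w t * c.L.f t : ℝ) : ℂ)) C := by
  obtain ⟨C, h⟩ := w_bm ok
  obtain ⟨D, k⟩ := br_bm c.L.hf
  have e : (fun t => ((c.P.w t * c.L.f t : ℝ) : ℂ)) = fun t => (c.P.w t : ℂ) * (c.L.f t : ℂ) := by
    funext t; push_cast; rfl
  rw [e]
  exact ⟨_, h.mul k⟩

theorem fG_bm (ok : c.OK) : ∃ C, BM (fG c) C := by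
  obtain ⟨C, h⟩ := wf_bm ok
  obtain ⟨D, k⟩ := br_bm c.L.hf
  exact ⟨_, (h.cmul _).add (k.cmul _)⟩

theorem fc_fG (ok : c.OK) (n : ℤ) : fc (fG c) n = Gf c n := by
  obtain ⟨C, h⟩ := wf_bm ok
  obtain ⟨D, k⟩ := br_bm c.L.hf
  unfold fG
  rw [fc_add (h.cmul _) (k.cmul _), fc_cmul, fc_cmul]
  rfl

theorem fZs_bm : ∃ C, BM (fZs c) C := by
  obtain ⟨C, h⟩ := c.L.hz
  exact ⟨_, h.add (h.conj.cmul _)⟩

theorem fc_fZs (n : ℤ) : fc (fZs c) n = fc c.L.zs n + 1 / 2 * (starRingEnd ℂ) (fc c.L.zs (-n)) := by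
  obtain ⟨C, h⟩ := c.L.hz
  unfold fZs
  rw [fc_add h (h.conj.cmul _), fc_cmul, fc_conj]

theorem fc_GZ (ok : c.OK) {N : ℕ} (hN : c.K0 ≤ N) (n : ℤ) :
    fc (fun t => fG c t * fZs c t) n = gLQ N (Gf c) (fc c.L.zs) n := by
  obtain ⟨C, h⟩ := fG_bm ok
  obtain ⟨D, k⟩ := fZs_bm (c := c)
  have s0 : Sup N (fc c.L.zs) := Helper95.SH.Sup.mono hN c.L.sz
  have s1 : Sup N (fc (fZs c)) := by
    intro m hm
    have hm' : -m ∉ Finset.Icc (-(N : ℤ)) N := by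
      rw [Finset.mem_Icc] at hm ⊢
      omega
    rw [fc_fZs, s0 m hm, s0 (-m) hm']
    simp
  rw [fc_prod h k s1]
  unfold gLQ
  refine Finset.sum_congr rfl fun m _ => ?_
  rw [fc_fG ok, fc_fZs]

theorem kXf_bm (ok : c.OK) (h0 : c.P.a0 = fun _ => 0) : ∃ C, BM (kXf c) C := by
  obtain ⟨C1, h1⟩ := fS_bm ok.st.reg h0
  obtain ⟨C2, h2⟩ := v1f_bm ok
  obtain ⟨C3, h3⟩ := v2f_bm ok
  obtain ⟨C4, h4⟩ := fG_bm ok
  obtain ⟨C5, h5⟩ := fZs_bm (c := c)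
  exact ⟨_, (h1.add (h2.sub h3)).sub (h4.mul h5)⟩

/-- **the constants of `Xr`** -/
theorem fc_kXf (ok : c.OK) (h0 : c.P.a0 = fun _ => 0) {N : ℕ} (hN : c.K0 ≤ N) (n : ℤ) :
    fc (kXf c) n = cX c N n := by
  obtain ⟨C1, h1⟩ := fS_bm ok.st.reg h0
  obtain ⟨C2, h2⟩ := v1f_bm ok
  obtain ⟨C3, h3⟩ := v2f_bm ok
  obtain ⟨C4, h4⟩ := fG_bm ok
  obtain ⟨C5, h5⟩ := fZs_bm (c := c)
  have e := fc_sub (h1.add (h2.sub h3)) (h4.mul h5) n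
  have e2 := fc_add h1 (h2.sub h3) n
  have e3 := fc_sub h2 h3 n
  unfold kXf cX
  rw [e, e2, e3, fc_GZ ok hN, fc_v1f ok, fc_v2f ok, fc_fS ok.st.reg h0]
  congr 2
  unfold wm Rs
  simp only [T1_fc ok h0, T2_fc ok h0]

/-- the hermitian part of the coefficients -/
theorem fc_half {f : ℝ → ℂ} {C : ℝ} (h : BM f C) (n : ℤ) :
    fc (fun t => 1 / 2 * (f t + (starRingEnd ℂ) (f t))) n = sy (fc f) n := by
  rw [fc_cmul, fc_add h h.conj, fc_conj]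
  unfold sy
  ring

theorem half_bm {f : ℝ → ℂ} {C : ℝ} (h : BM f C) : ∃ D, BM (fun t => 1 / 2 * (f t + (starRingEnd ℂ) (f t))) D :=
  ⟨_, (h.add h.conj).cmul _⟩

theorem hWf_bm (ok : c.OK) {b : ℝ → ℝ} {C : ℝ} (h : BM (fun t => (b t : ℂ)) C) : ∃ D, BM (hWf c b) D := by
  obtain ⟨E, k⟩ := w_bm ok
  exact ⟨_, ((k.mul h).cmul _).add (h.cmul _)⟩

theorem fc_hWf (ok : c.OK) {b : ℝ → ℝ} {C : ℝ} (h : BM (fun t => (b t : ℂ)) C) (n : ℤ) :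
    fc (hWf c b) n = ((c.P.m - c.P.lam : ℝ) : ℂ) * wm c.P.eta (fc fun t => (b t : ℂ)) n
      + (c.mu1 / 2 : ℂ) * fc (fun t => (b t : ℂ)) n := by
  obtain ⟨E, k⟩ := w_bm ok
  have e1 : fc (fun t => (c.P.w t : ℂ) * (b t : ℂ)) n = wm c.P.eta (fc fun t => (b t : ℂ)) n := fc_w c.P.eta h n
  unfold hWf
  rw [fc_add ((k.mul h).cmul _) (h.cmul _), fc_cmul, fc_cmul, e1]

theorem yYf_bm (ok : c.OK) (h0 : c.P.a0 = fun _ => 0) : ∃ C, BM (yYf c) C := by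
  obtain ⟨C1, h1⟩ := fP_bm ok.st.reg h0
  obtain ⟨C2, h2⟩ := v1f_bm ok
  obtain ⟨C3, h3⟩ := v2f_bm ok
  exact ⟨_, h1.add ((h2.cmul _).add (h3.cmul _))⟩

theorem yZf_bm (ok : c.OK) (h0 : c.P.a0 = fun _ => 0) : ∃ C, BM (yZf c) C := by
  obtain ⟨C1, h1⟩ := fR_bm ok.st.reg h0
  obtain ⟨C2, h2⟩ := v1f_bm ok
  obtain ⟨C3, h3⟩ := v2f_bm ok
  exact ⟨_, h1.add ((h2.cmul _).add (h3.cmul _))⟩

theorem fc_yYf (ok : c.OK) (h0 : c.P.a0 = fun _ => 0) (n : ℤ) : fc (yYf c) n =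
    wm c.P.eta (fun n => om * T1 c n + om ^ 2 * T2 c n) n + (om * V1 c n + om ^ 2 * V2 c n) := by
  obtain ⟨C1, h1⟩ := fP_bm ok.st.reg h0
  obtain ⟨C2, h2⟩ := v1f_bm ok
  obtain ⟨C3, h3⟩ := v2f_bm ok
  have e2 := fc_add h1 ((h2.cmul om).add (h3.cmul (om ^ 2))) n
  have e3 := fc_add (h2.cmul om) (h3.cmul (om ^ 2)) n
  unfold yYf
  rw [e2, e3, fc_cmul, fc_cmul, fc_v1f ok, fc_v2f ok, fc_fP ok.st.reg h0]
  congr 1
  unfold wm Rp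
  simp only [T1_fc ok h0, T2_fc ok h0]

theorem fc_yZf (ok : c.OK) (h0 : c.P.a0 = fun _ => 0) (n : ℤ) : fc (yZf c) n =
    wm c.P.eta (fun n => (starRingEnd ℂ) (kq 2) * T1 c n + kq 2 * T2 c n) n
      + ((starRingEnd ℂ) (kq 2) * V1 c n + kq 2 * V2 c n) := by
  obtain ⟨C1, h1⟩ := fR_bm ok.st.reg h0
  obtain ⟨C2, h2⟩ := v1f_bm ok
  obtain ⟨C3, h3⟩ := v2f_bm ok
  have e2 := fc_add h1 ((h2.cmul ((starRingEnd ℂ) (kq 2))).add (h3.cmul (kq 2))) n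
  have e3 := fc_add (h2.cmul ((starRingEnd ℂ) (kq 2))) (h3.cmul (kq 2)) n
  unfold yZf
  rw [e2, e3, fc_cmul, fc_cmul, fc_v1f ok, fc_v2f ok, fc_fR ok.st.reg h0]
  congr 1
  unfold wm Rr
  simp only [T1_fc ok h0, T2_fc ok h0]

theorem kYf_bm (ok : c.OK) (h0 : c.P.a0 = fun _ => 0) : ∃ C, BM (kYf c) C := by
  obtain ⟨C1, h1⟩ := yYf_bm ok h0
  obtain ⟨C2, h2⟩ := half_bm h1
  obtain ⟨C3, h3⟩ := br_bm c.L.h2
  obtain ⟨C4, h4⟩ := hWf_bm ok h3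
  exact ⟨_, h2.add (h4.cmul _)⟩

theorem kZf_bm (ok : c.OK) (h0 : c.P.a0 = fun _ => 0) : ∃ C, BM (kZf c) C := by
  obtain ⟨C1, h1⟩ := yZf_bm ok h0
  obtain ⟨C2, h2⟩ := half_bm h1
  obtain ⟨C3, h3⟩ := br_bm c.L.h3
  obtain ⟨C4, h4⟩ := hWf_bm ok h3
  exact ⟨_, h2.add (h4.cmul _)⟩

/-- **the constants of `Yr`** -/
theorem fc_kYf (ok : c.OK) (h0 : c.P.a0 = fun _ => 0) (n : ℤ) : fc (kYf c) n = cY c n := by
  obtain ⟨C1, h1⟩ := yYf_bm ok h0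
  obtain ⟨C2, h2⟩ := half_bm h1
  obtain ⟨C3, h3⟩ := br_bm c.L.h2
  obtain ⟨C4, h4⟩ := hWf_bm ok h3
  unfold kYf cY
  rw [fc_add h2 (h4.cmul _), fc_half h1, fc_cmul, fc_hWf ok h3]
  congr 1
  unfold sy
  simp only [fc_yYf ok h0]

/-- **the constants of `Zr`** -/
theorem fc_kZf (ok : c.OK) (h0 : c.P.a0 = fun _ => 0) (n : ℤ) : fc (kZf c) n = cZ c n := by
  obtain ⟨C1, h1⟩ := yZf_bm ok h0
  obtain ⟨C2, h2⟩ := half_bm h1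
  obtain ⟨C3, h3⟩ := br_bm c.L.h3
  obtain ⟨C4, h4⟩ := hWf_bm ok h3
  unfold kZf cZ
  rw [fc_add h2 (h4.cmul _), fc_half h1, fc_cmul, fc_hWf ok h3]
  congr 1
  unfold sy
  simp only [fc_yZf ok h0]

end

end Helper87.SH
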