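import Pool.Agent.Helper30.SH.ZRow4

/-!
# Project RC, SHARP: tools for certified functions (helper54's format)

`adP`: change of the window; `mcP`: multiplication by a rational number; `exP`: from an exact polynomial at any scale
to a certificate at the scale `2 ^ s`; `hvP`: half; `reP`: real part.
-/

set_option autoImplicit false

namespace Helper87.SH

open Helper49.LT hiding sg
open Helper54.RC.Fast
open Helper30.SH

section

variable {b s r : ℕ}

theorem wf_pad {p : PF} {f : ℝ → ℂ} (h : AP b s p f) (k : ℕ) : AP b s ⟨padF b k p.z, p.er⟩ f := by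
  obtain ⟨w, v⟩ := padF_sound b k p.z h.1
  refine ⟨w, fun t => ?_⟩
  show ‖V b (padF b k p.z) t - _‖ ≤ _
  rw [v]
  exact h.2 t

/-- the window `M` -/
def adP (b r M : ℕ) (p : PF) : PF :=
  bif Nat.ble p.z.N M then ⟨padF b (Nat.sub M p.z.N) p.z, p.er⟩ else ⟨winF b M p.z, Nat.add p.er (tlF b r M p.z)⟩

theorem adP_sound (hr : r ≤ b + 1) (M : ℕ) {p : PF} {f : ℝ → ℂ} (h : AP b s p f) : AP b s (adP b r M p) f := by
  unfold adP
  cases hc : Nat.ble p.z.N M with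
  | true =>
    simp only [cond_true]
    exact wf_pad h _
  | false =>
    simp only [cond_false]
    have h1 : ¬ p.z.N ≤ M := fun hle => by
      rw [Nat.ble_eq_true_of_le hle] at hc
      simp at hc
    exact win_AP hr h (by omega)

/-- a bound of `2 ^ s |a / D|` -/
def nmF (s : ℕ) (a : ℤ) (D : ℕ) : ℕ := Nat.succ (fr s a.natAbs D)

theorem nmF_le (s : ℕ) (a : ℤ) {D : ℕ} (hD : 0 < D) : (2 ^ s : ℝ) * ‖(a : ℂ) / D‖ ≤ nmF s a D := by
  have h := (abs_le.1 (fr_le s a.natAbs D hD)).1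
  have e : ‖(a : ℂ) / D‖ = (a.natAbs : ℝ) / D := by
    rw [norm_div, Complex.norm_intCast, Complex.norm_natCast, Nat.cast_natAbs]
    push_cast
    rfl
  rw [e]
  have e2 : ((nmF s a D : ℕ) : ℝ) = (fr s a.natAbs D : ℝ) + 1 := by
    show ((fr s a.natAbs D + 1 : ℕ) : ℝ) = _
    push_cast; rfl
  rw [e2]
  linarith

/-- `a / D` times a function; `G` is a bound of `2 ^ s |f|` -/
def mcP (b s r G : ℕ) (a : ℤ) (D : ℕ) (p : PF) : PF := stepG b s r p.z.N (nmF s a D) G (cstP b s 0 0 a 0 D) p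

def okmc (b s r : ℕ) (a : ℤ) (D : ℕ) (p : PF) : Bool :=
  bif okc b s a 0 D then okG b r p.z.N (cstP b s 0 0 a 0 D) p else false

theorem okc_pos {a a' : ℤ} {D : ℕ} (h : okc b s a a' D = true) : 0 < D := by
  unfold okc at h
  simp only [bif_true] at h
  exact Nat.le_of_ble_eq_true h.1

theorem mcP_sound (hr : r ≤ b + 1) (hs : s ≤ b) {G : ℕ} {a : ℤ} {D : ℕ} {p : PF} {f : ℝ → ℂ}
    (hG : ∀ t, (2 ^ s : ℝ) * ‖f t‖ ≤ G) (h : AP b s p f) (k : okmc b s r a D p = true) :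
    AP b s (mcP b s r G a D p) (fun t => (a : ℂ) / D * f t) := by
  unfold okmc at k
  simp only [bif_true] at k
  obtain ⟨k1, k2⟩ := k
  have hD := okc_pos k1
  have c1 := cstP_sound (b := b) (s := s) (N := 0) (k := 0) (by norm_num) a 0 D k1
  have c2 : AP b s (cstP b s 0 0 a 0 D) (fun _ => (a : ℂ) / D) := by
    refine AP_congr c1 fun t => ?_
    have e1 : ((((0 : ℕ) : ℝ)) - ((0 : ℕ) : ℝ)) * t = 0 := by simp
    rw [e1, ee_zero, mul_one]
    push_cast
    ring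
  exact stepG_sound b s r p.z.N _ _ hr hs _ _ _ _ (fun _ => nmF_le s a hD) hG c2 h k2

/-! ### from exact polynomials -/

/-- `2 ^ (s + k + t) / c` -/
def exM (s k t c : ℕ) : ℕ := Nat.div (Nat.pow 2 (Nat.add s (Nat.add k t))) c

/-- `z` is `c f`, `z1` is `z / 2 ^ k` with the error `E1`; the result at the scale `2 ^ s` -/
def exR (b s r k t c E1 : ℕ) (z z1 : FP) : PF :=
  ⟨flF b t (smF b (exM s k t c) z1),
    Nat.add (Nat.mul 2 (len z1.N))
      (Nat.add (Nat.succ (Nat.div (Nat.mul (exM s k t c) E1) (Nat.pow 2 t)))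
        (Nat.succ (Nat.div (nrF b r z) (Nat.pow 2 (Nat.add k t)))))⟩

theorem exR_sound (hr : r ≤ b + 1) {k t c E1 : ℕ} {z z1 : FP} {f : ℝ → ℂ} (hV : ∀ x, V b z x = (c : ℂ) * f x)
    (w1 : wf b z1 = true) (a1 : ∀ x, ‖V b z x - (2 ^ k : ℂ) * V b z1 x‖ ≤ E1 * 2 ^ k) (h2 : t ≤ b) (h3 : 0 < c)
    (h4 : oks b r (exM s k t c) z1 = true) : AP b s (exR b s r k t c E1 z z1) f := by
  obtain ⟨w2, a2⟩ := smF_sound b r hr (exM s k t c) z1 w1 h4
  obtain ⟨w3, a3⟩ := flF_sound b t h2 (smF b (exM s k t c) z1)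
  refine ⟨w3, fun x => ?_⟩
  have e0 : (exR b s r k t c E1 z z1).z = flF b t (smF b (exM s k t c) z1) := rfl
  rw [e0]
  set m := exM s k t c with hm
  set n := len z1.N with hn
  have hc : (0 : ℝ) < c := by exact_mod_cast h3
  have m1 : (m : ℝ) ≤ 2 ^ (s + (k + t)) / c ∧ 2 ^ (s + (k + t)) / c ≤ (m : ℝ) + 1 := by
    have e : m = 2 ^ (s + (k + t)) / c := rfl
    have q1 := Nat.div_mul_le_self (2 ^ (s + (k + t))) c
    have q2 := Nat.lt_div_mul_add (a := 2 ^ (s + (k + t))) h3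
    rw [← e] at q1 q2
    constructor
    · rw [le_div_iff₀ hc]
      exact_mod_cast q1
    · rw [div_le_iff₀ hc]
      have : ((2 ^ (s + (k + t)) : ℕ) : ℝ) < ((m * c + c : ℕ) : ℝ) := by exact_mod_cast q2
      push_cast at this
      linarith
  have b1 := a1 x
  have b2 := a2 x
  have b3 := a3 x
  have b4 := norm_V_le b r hr z x
  rw [hV x] at b1 b4
  have hl : len (smF b m z1).N = n := rfl
  rw [hl] at b3
  rw [b2] at b3
  set Z3 := V b (flF b t (smF b m z1)) x with hZ3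
  set Z1 := V b z1 x with hZ1
  set F := f x with hF
  have hk0 : (0 : ℝ) < 2 ^ k := by positivity
  have ht0 : (0 : ℝ) < 2 ^ t := by positivity
  -- the difference
  have key : (2 : ℂ) ^ t * (Z3 - (2 : ℂ) ^ s * F) = -((m : ℂ) * Z1 - 2 ^ t * Z3)
      - ((m : ℂ) / 2 ^ k) * ((c : ℂ) * F - 2 ^ k * Z1)
      - (((2 ^ (s + (k + t)) / c - m : ℝ)) : ℂ) / 2 ^ k * ((c : ℂ) * F) := by
    have hk : (2 : ℂ) ^ k ≠ 0 := pow_ne_zero _ two_ne_zero
    have hcc : (c : ℂ) ≠ 0 := by exact_mod_cast h3.ne'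
    push_cast
    field_simp
    ring
  have n1 : ‖(2 : ℂ) ^ t * (Z3 - (2 : ℂ) ^ s * F)‖ = 2 ^ t * ‖Z3 - (2 : ℂ) ^ s * F‖ := by
    rw [norm_mul, norm_pow, Complex.norm_ofNat]
  have n2 : ‖((m : ℂ) / 2 ^ k) * ((c : ℂ) * F - 2 ^ k * Z1)‖ ≤ m * E1 := by
    rw [norm_mul, norm_div, Complex.norm_natCast, norm_pow, Complex.norm_ofNat]
    calc (m : ℝ) / 2 ^ k * ‖(c : ℂ) * F - 2 ^ k * Z1‖ ≤ (m : ℝ) / 2 ^ k * (E1 * 2 ^ k) :=
          mul_le_mul_of_nonneg_left b1 (by positivity)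
      _ = m * E1 := by field_simp
  have n3 : ‖(((2 ^ (s + (k + t)) / c - m : ℝ)) : ℂ) / 2 ^ k * ((c : ℂ) * F)‖ ≤ nrF b r z / 2 ^ k := by
    rw [norm_mul, norm_div, Complex.norm_real, Real.norm_eq_abs, norm_pow, Complex.norm_ofNat]
    have q1 : |(2 : ℝ) ^ (s + (k + t)) / c - m| ≤ 1 := by
      rw [abs_le]
      constructor <;> linarith [m1.1, m1.2]
    calc |(2 : ℝ) ^ (s + (k + t)) / c - m| / 2 ^ k * ‖(c : ℂ) * F‖ ≤ 1 / 2 ^ k * nrF b r z :=
          mul_le_mul (div_le_div_of_nonneg_right q1 hk0.le) b4 (norm_nonneg _) (by positivity)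
      _ = _ := by ring
  have n4 : 2 ^ t * ‖Z3 - (2 : ℂ) ^ s * F‖ ≤ 2 * n * 2 ^ t + m * E1 + nrF b r z / 2 ^ k := by
    rw [← n1, key]
    refine (norm_sub_le _ _).trans (add_le_add ((norm_sub_le _ _).trans (add_le_add ?_ n2)) n3)
    rw [norm_neg]
    exact b3
  have e5 : (((exR b s r k t c E1 z z1).er : ℕ) : ℝ) = 2 * n + (((m * E1 / 2 ^ t : ℕ) : ℝ) + 1
      + (((nrF b r z / 2 ^ (k + t) : ℕ) : ℝ) + 1)) := by
    show ((2 * n + ((m * E1 / 2 ^ t + 1) + (nrF b r z / 2 ^ (k + t) + 1)) : ℕ) : ℝ) = _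
    push_cast
    ring
  have d1 : (m * E1 : ℝ) / 2 ^ t ≤ ((m * E1 / 2 ^ t : ℕ) : ℝ) + 1 := by
    have := div_succ_le (m * E1) (2 ^ t) (by positivity)
    push_cast at this
    push_cast
    exact this
  have d2 : (nrF b r z : ℝ) / 2 ^ (k + t) ≤ ((nrF b r z / 2 ^ (k + t) : ℕ) : ℝ) + 1 := by
    have := div_succ_le (nrF b r z) (2 ^ (k + t)) (by positivity)
    push_cast at this
    push_cast
    exact this
  rw [e5]
  have n5 : ‖Z3 - (2 : ℂ) ^ s * F‖ ≤ (2 * n * 2 ^ t + m * E1 + nrF b r z / 2 ^ k) / 2 ^ t := by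
    rw [le_div_iff₀ ht0, mul_comm]
    exact n4
  have e6 : (2 * n * 2 ^ t + m * E1 + nrF b r z / 2 ^ k : ℝ) / 2 ^ t =
      2 * n + m * E1 / 2 ^ t + nrF b r z / 2 ^ (k + t) := by
    rw [pow_add]
    field_simp
  rw [e6] at n5
  linarith

/-- from `V z = c f` to the scale `2 ^ s` (rounding by `2 ^ k` first) -/
def exP (b s r k t c : ℕ) (z : FP) : PF := exR b s r k t c (Nat.mul 2 (len z.N)) z (flF b k z)
def okex (b s r k t c : ℕ) (z : FP) : Bool :=
  bif Nat.ble k b then bif Nat.ble t b then bif Nat.ble 1 c then oks b r (exM s k t c) (flF b k z)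
  else false else false else false

theorem exP_sound (hr : r ≤ b + 1) {k t c : ℕ} {z : FP} {f : ℝ → ℂ} (hV : ∀ x, V b z x = (c : ℂ) * f x)
    (h : okex b s r k t c z = true) : AP b s (exP b s r k t c z) f := by
  unfold okex at h
  simp only [bif_true] at h
  obtain ⟨h1, h2, h3, h4⟩ := h
  obtain ⟨w1, a1⟩ := flF_sound b k (Nat.le_of_ble_eq_true h1) z
  refine exR_sound hr hV w1 (fun x => (a1 x).trans (le_of_eq ?_)) (Nat.le_of_ble_eq_true h2) (Nat.le_of_ble_eq_true h3) h4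
  have : ((Nat.mul 2 (len z.N) : ℕ) : ℝ) = 2 * len z.N := by
    show ((2 * len z.N : ℕ) : ℝ) = _
    push_cast; ring
  rw [this]

/-- the same without the first rounding -/
def exP0 (b s r t c : ℕ) (z : FP) : PF := exR b s r 0 t c 0 z z
def okex0 (b s r t c : ℕ) (z : FP) : Bool :=
  bif wf b z then bif Nat.ble t b then bif Nat.ble 1 c then oks b r (exM s 0 t c) z
  else false else false else false

theorem exP0_sound (hr : r ≤ b + 1) {t c : ℕ} {z : FP} {f : ℝ → ℂ} (hV : ∀ x, V b z x = (c : ℂ) * f x)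
    (h : okex0 b s r t c z = true) : AP b s (exP0 b s r t c z) f := by
  unfold okex0 at h
  simp only [bif_true] at h
  obtain ⟨h1, h2, h3, h4⟩ := h
  refine exR_sound hr hV h1 (fun x => le_of_eq ?_) (Nat.le_of_ble_eq_true h2) (Nat.le_of_ble_eq_true h3) h4
  rw [pow_zero, one_mul, sub_self, norm_zero]
  simp

/-! ### half, real part -/

/-- half of a certified function -/
def hvP (b : ℕ) (p : PF) : PF := ⟨flF b 1 p.z, Nat.add (Nat.mul 2 (len p.z.N)) (Nat.succ (Nat.div p.er 2))⟩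

theorem hvP_sound (hb : 1 ≤ b) {p : PF} {f : ℝ → ℂ} (h : AP b s p f) : AP b s (hvP b p) (fun t => 1 / 2 * f t) := by
  obtain ⟨w, a⟩ := flF_sound b 1 hb p.z
  refine ⟨w, fun x => ?_⟩
  have a := a x
  have h2 := h.2 x
  have e0 : (hvP b p).z = flF b 1 p.z := rfl
  have e5 : (((hvP b p).er : ℕ) : ℝ) = 2 * len p.z.N + (((p.er / 2 : ℕ) : ℝ) + 1) := by
    show ((2 * len p.z.N + (p.er / 2 + 1) : ℕ) : ℝ) = _
    push_cast; ring
  have d := div_succ_le p.er 2 (by norm_num)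
  push_cast at d
  rw [e0, e5]
  rw [pow_one] at a
  have key : (2 : ℂ) * (V b (flF b 1 p.z) x - (2 : ℂ) ^ s * (1 / 2 * f x)) =
      -(V b p.z x - 2 * V b (flF b 1 p.z) x) + (V b p.z x - (2 : ℂ) ^ s * f x) := by ring
  have n1 : 2 * ‖V b (flF b 1 p.z) x - (2 : ℂ) ^ s * (1 / 2 * f x)‖ ≤ 2 * len p.z.N * 2 + p.er := by
    have : ‖(2 : ℂ) * (V b (flF b 1 p.z) x - (2 : ℂ) ^ s * (1 / 2 * f x))‖ =
        2 * ‖V b (flF b 1 p.z) x - (2 : ℂ) ^ s * (1 / 2 * f x)‖ := by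
      rw [norm_mul, Complex.norm_ofNat]
    rw [← this, key]
    refine (norm_add_le _ _).trans (add_le_add ?_ h2)
    rw [norm_neg]
    norm_num at a ⊢
    exact a
  push_cast
  linarith

/-- the real part -/
def reP (b : ℕ) (p : PF) : PF := hvP b (addP b p (cjP b p))
def okre (b r : ℕ) (p : PF) : Bool := bif okn b r p.z then oka b r p.z (cjP b p).z else false

theorem reP_sound (hr : r ≤ b + 1) (hb : 1 ≤ b) {p : PF} {f : ℝ → ℂ} (h : AP b s p f) (k : okre b r p = true) :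
    AP b s (reP b p) (fun t => 1 / 2 * (f t + (starRingEnd ℂ) (f t))) := by
  unfold okre at k
  simp only [bif_true] at k
  exact hvP_sound hb (addP_sound hr h (cjP_sound hr h k.1) k.2)

/-! ### norms -/

/-- a bound of `2 ^ s |f|` for `V z = c f` -/
def exN (b s r c : ℕ) (z : FP) : ℕ := Nat.succ (Nat.div (Nat.mul (Nat.pow 2 s) (nrF b r z)) c)

theorem exN_le (hr : r ≤ b + 1) {c : ℕ} (hc : 0 < c) {z : FP} {f : ℝ → ℂ} (hV : ∀ x, V b z x = (c : ℂ) * f x) (x : ℝ) :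
    (2 ^ s : ℝ) * ‖f x‖ ≤ exN b s r c z := by
  have h1 := norm_V_le b r hr z x
  rw [hV x, norm_mul, Complex.norm_natCast] at h1
  have h2 := div_succ_le (2 ^ s * nrF b r z) c hc
  have e : ((exN b s r c z : ℕ) : ℝ) = ((2 ^ s * nrF b r z / c + 1 : ℕ) : ℝ) := rfl
  rw [e]
  refine le_trans ?_ h2
  have hc' : (0 : ℝ) < c := by exact_mod_cast hc
  rw [le_div_iff₀ hc']
  push_cast
  have hs : (0 : ℝ) ≤ 2 ^ s := by positivity
  nlinarith [mul_le_mul_of_nonneg_left h1 hs]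

end

end Helper87.SH
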