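import Pool.Agent.Helper70.SH.Asm
import Pool.Agent.Helper49.RC.CellF
import Pool.Agent.Helper87.SH.ColK
import Pool.Agent.Helper87.SH.ColT

/-!
# Project RC, SHARP, cell engine: the constants of the rows of the collar, certificates of a record

`gG R b`: `10 ^ 21 G` exact (`G = (m - lam) w f + mu1 / 2 f`). `kX, kY, kZ : PF`: certificates of `kXf, kYf, kZf`
for the data `cd` of the record (helper70), from certificates of helper30's `fS, fP, fR`, of the directions `u1, u2` and of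
the fields `d1, d2`. `kX_CA, kY_CA, kZ_CA`: the digits approximate the constants `cX, cY, cZ` (helper19).
-/

set_option autoImplicit false

open MeasureTheory Set Filter Topology

namespace Helper87.SH

open Helper49.LT hiding sg
open Helper49.RC (om)
open Helper49.Sharp (Par u1_bm u2_bm)
open Helper49.Cell
open Helper49.Cell.Rec
open Helper54.RC.Fast
open Helper87.RC (BM fc_eq fc_sub fc_cmul fc_add fc_conj)
open Helper56.RC (fc)
open Helper30.SH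
open Helper70.SH (cd Len)
open Helper95.RC (kq Sup bmw)
open Helper95.SH (CD)
open Pool.Agent.Helper19.SH (Gf cX cY cZ)
open Pool.Agent.Helper64.SH (CA dR dI CA_fc)

/-! ### exact polynomials -/

/-- `10^5 (m - lam)` -/
def mm (R : Rec) : ℕ := Int.toNat (Int.sub R.m R.lam)

/-- `10^21 ((m - lam) w f + mu1 / 2 f)`, window 26 -/
def gG (R : Rec) (b : ℕ) : FP :=
  addF b (smF b (Nat.mul 2 (mm R)) (wfF R b)) (padF b 2 (smF b (Nat.mul 100000 R.mu1.toNat) (fF R b)))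
/-- `2·10^5 (z* + conj z* / 2)`, window 12 -/
def zzF (R : Rec) (b : ℕ) : FP := addF b (smF b 2 (zsF R b)) (cjF b (zsF R b))
/-- `2·10^10 ((m - lam) w + mu1 / 2)`, window 2 -/
def hWF (R : Rec) (b : ℕ) : FP := adC b (smF b (Nat.mul 2 (mm R)) (wF R b)) (Int.mul 100000 R.mu1)
/-- `4·10^15 ((m - lam) w + mu1 / 2) b2` -/
def k2F (R : Rec) (b : ℕ) : FP := mulF b (hWF R b) (b2F R b)
/-- `8·10^15 ((m - lam) w + mu1 / 2) (3 / 2) b3` -/
def k3F (R : Rec) (b : ℕ) : FP := mulF b (hWF R b) (smF b 3 (b3F R b))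

def okg1 (R : Rec) (b r : ℕ) : Bool :=
  bif oks b r (Nat.mul 2 (mm R)) (wfF R b) then
  bif oks b r (Nat.mul 100000 R.mu1.toNat) (fF R b) then
    oka b r (smF b (Nat.mul 2 (mm R)) (wfF R b)) (padF b 2 (smF b (Nat.mul 100000 R.mu1.toNat) (fF R b)))
  else false else false

def okg2 (R : Rec) (b r : ℕ) : Bool :=
  bif oks b r 2 (zsF R b) then oka b r (smF b 2 (zsF R b)) (cjF b (zsF R b)) else false

def okg3 (R : Rec) (b r : ℕ) : Bool :=
  bif oks b r (Nat.mul 2 (mm R)) (wF R b) then okC b r (smF b (Nat.mul 2 (mm R)) (wF R b)) (Int.mul 100000 R.mu1)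
  else false

def okg4 (R : Rec) (b r : ℕ) : Bool :=
  bif okm b r (hWF R b) (b2F R b) then bif oks b r 3 (b3F R b) then okm b r (hWF R b) (smF b 3 (b3F R b))
  else false else false

/-- the check of the exact polynomials -/
def okg (R : Rec) (b r : ℕ) : Bool :=
  bif okT R b r then bif okg1 R b r then bif okg2 R b r then bif okg3 R b r then okg4 R b r
  else false else false else false else false

section

variable {R : Rec} {C : Crt} {h : R.ok C = true} {K0 : ℕ} {len : Len R K0} {s0 b r : ℕ}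

theorem lam_le {C : Crt} (h : R.ok C = true) : R.lam ≤ R.m := by
  have k := ok_sound h
  have h1 : (R.lam : ℝ) / 100000 ≤ (R.m : ℝ) / 100000 := k.m0
  have h2 : (R.lam : ℝ) ≤ R.m := by linarith
  exact_mod_cast h2

theorem mm_cast {C : Crt} (h : R.ok C = true) : ((mm R : ℕ) : ℂ) = (R.m : ℂ) - R.lam := by
  have h1 := lam_le h
  have h2 : ((mm R : ℕ) : ℤ) = R.m - R.lam := by
    show ((Int.toNat (R.m - R.lam) : ℕ) : ℤ) = _
    exact Int.toNat_of_nonneg (by omega)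
  have h3 : (((mm R : ℕ) : ℤ) : ℂ) = ((R.m - R.lam : ℤ) : ℂ) := by rw [h2]
  push_cast at h3
  exact h3

theorem toNat_cast {a : ℤ} (h : 0 ≤ a) : ((a.toNat : ℕ) : ℂ) = (a : ℂ) := by
  have h2 : ((a.toNat : ℕ) : ℤ) = a := Int.toNat_of_nonneg h
  have h3 : (((a.toNat : ℕ) : ℤ) : ℂ) = (a : ℂ) := by rw [h2]
  push_cast at h3
  exact h3

theorem okg_iff (k : okg R b r = true) : okT R b r = true ∧ okg1 R b r = true ∧ okg2 R b r = true ∧
    okg3 R b r = true ∧ okg4 R b r = true := by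
  unfold okg at k
  simp only [bif_iff] at k
  exact k

theorem gG_sound (k : okg R b r = true) (m1 : 0 ≤ R.mu1) : wf b (gG R b) = true ∧
    ∀ t, V b (gG R b) t = ((1000000000000000000000 : ℕ) : ℂ) * fG (cd R h len s0) t := by
  obtain ⟨kT, k1, -, -, -⟩ := okg_iff k
  have hr : r ≤ b + 1 := (okT_iff.1 kT).1
  obtain ⟨a1, a2⟩ := wfF_sound kT
  obtain ⟨b1, b2⟩ := fF_sound kT
  unfold okg1 at k1
  simp only [bif_iff] at k1
  obtain ⟨k1, k2, k3⟩ := k1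
  obtain ⟨s1, s2⟩ := smF_sound b r hr _ _ a1 k1
  obtain ⟨t1, t2⟩ := smF_sound b r hr _ _ b1 k2
  obtain ⟨p1, p2⟩ := padF_sound b 2 _ t1
  obtain ⟨q1, q2⟩ := addF_sound b r hr _ _ s1 p1 k3
  refine ⟨q1, fun t => ?_⟩
  show V b (addF b _ _) t = _
  rw [q2, s2, p2, t2, a2, b2]
  have e1 : ((Nat.mul 2 (mm R) : ℕ) : ℂ) = 2 * ((R.m : ℂ) - R.lam) := by
    show ((2 * mm R : ℕ) : ℂ) = _
    rw [Nat.cast_mul, mm_cast h]; norm_num
  have e2 : ((Nat.mul 100000 R.mu1.toNat : ℕ) : ℂ) = 100000 * (R.mu1 : ℂ) := by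
    show ((100000 * R.mu1.toNat : ℕ) : ℂ) = _
    rw [Nat.cast_mul, toNat_cast m1]; norm_num
  rw [e1, e2]
  show _ = _ * ((((R.m : ℝ) / 100000 - (R.lam : ℝ) / 100000 : ℝ) : ℂ) * ((R.par.w t * R.cb.f t : ℝ) : ℂ)
    + ((((R.mu1 : ℝ) / 100000 : ℝ) : ℂ) / 2) * (R.cb.f t : ℂ))
  push_cast
  ring

theorem zzF_sound (k : okg R b r = true) : wf b (zzF R b) = true ∧
    ∀ t, V b (zzF R b) t = ((200000 : ℕ) : ℂ) * fZs (cd R h len s0) t := by
  obtain ⟨kT, -, k2, -, -⟩ := okg_iff k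
  have hT := okT_iff.1 kT
  have hr : r ≤ b + 1 := hT.1
  obtain ⟨a1, a2⟩ := zsF_sound kT
  unfold okg2 at k2
  simp only [bif_iff] at k2
  obtain ⟨k1, k2⟩ := k2
  obtain ⟨c1, c2⟩ := cjF_sound b r hr _ hT.2.2.2.1
  obtain ⟨s1, s2⟩ := smF_sound b r hr _ _ a1 k1
  obtain ⟨q1, q2⟩ := addF_sound b r hr _ _ s1 c1 k2
  refine ⟨q1, fun t => ?_⟩
  show V b (addF b _ _) t = _
  rw [q2, s2, c2, a2]
  show _ = _ * (R.cb.z0 t + 1 / 2 * (starRingEnd ℂ) (R.cb.z0 t))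
  rw [map_mul]
  have : (starRingEnd ℂ) (100000 : ℂ) = 100000 := Complex.conj_ofNat _
  rw [this]
  push_cast
  ring

theorem hWF_sound (k : okg R b r = true) (h : R.ok C = true) : wf b (hWF R b) = true ∧
    ∀ t, V b (hWF R b) t = 20000000000 * ((((R.m : ℂ) - R.lam) / 100000) * (R.par.w t : ℂ) + (R.mu1 : ℂ) / 200000) := by
  obtain ⟨kT, -, -, k3, -⟩ := okg_iff k
  have hr : r ≤ b + 1 := (okT_iff.1 kT).1
  obtain ⟨a1, a2⟩ := wF_sound kT
  unfold okg3 at k3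
  simp only [bif_iff] at k3
  obtain ⟨k1, k2⟩ := k3
  obtain ⟨s1, s2⟩ := smF_sound b r hr _ _ a1 k1
  obtain ⟨q1, q2⟩ := adC_sound hr _ s1 _ k2
  refine ⟨q1, fun t => ?_⟩
  show V b (adC b _ _) t = _
  rw [q2, s2, a2]
  have e1 : ((Nat.mul 2 (mm R) : ℕ) : ℂ) = 2 * ((R.m : ℂ) - R.lam) := by
    show ((2 * mm R : ℕ) : ℂ) = _
    rw [Nat.cast_mul, mm_cast h]; norm_num
  have e2 : ((Int.mul 100000 R.mu1 : ℤ) : ℂ) = 100000 * (R.mu1 : ℂ) := by
    show ((100000 * R.mu1 : ℤ) : ℂ) = _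
    push_cast; rfl
  rw [e1, e2]
  push_cast
  ring

theorem k2F_sound (k : okg R b r = true) : wf b (k2F R b) = true ∧
    ∀ t, V b (k2F R b) t = ((4000000000000000 : ℕ) : ℂ) * (((cd R h len s0).L.p2 : ℂ) *
      hWf (cd R h len s0) (cd R h len s0).L.b2s t) := by
  obtain ⟨kT, -, -, -, k4⟩ := okg_iff k
  have hr : r ≤ b + 1 := (okT_iff.1 kT).1
  obtain ⟨a1, a2⟩ := hWF_sound k h
  obtain ⟨b1, b2⟩ := b2F_sound kT
  unfold okg4 at k4
  simp only [bif_iff] at k4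
  obtain ⟨k1, -, -⟩ := k4
  obtain ⟨q1, q2⟩ := mulF_sound b r hr _ _ a1 b1 k1
  refine ⟨q1, fun t => ?_⟩
  show V b (mulF b _ _) t = _
  rw [q2, a2, b2]
  show _ = _ * (((1 : ℝ) : ℂ) * ((((R.m : ℝ) / 100000 - (R.lam : ℝ) / 100000 : ℝ) : ℂ) * ((R.par.w t : ℂ) * (R.cb.b2 t : ℂ))
    + ((((R.mu1 : ℝ) / 100000 : ℝ) : ℂ) / 2) * (R.cb.b2 t : ℂ)))
  push_cast
  ring

theorem k3F_sound (k : okg R b r = true) : wf b (k3F R b) = true ∧
    ∀ t, V b (k3F R b) t = ((8000000000000000 : ℕ) : ℂ) * (((cd R h len s0).L.p3 : ℂ) *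
      hWf (cd R h len s0) (cd R h len s0).L.b3s t) := by
  obtain ⟨kT, -, -, -, k4⟩ := okg_iff k
  have hr : r ≤ b + 1 := (okT_iff.1 kT).1
  obtain ⟨a1, a2⟩ := hWF_sound k h
  obtain ⟨b1, b2⟩ := b3F_sound kT
  unfold okg4 at k4
  simp only [bif_iff] at k4
  obtain ⟨-, k2, k3⟩ := k4
  obtain ⟨s1, s2⟩ := smF_sound b r hr _ _ b1 k2
  obtain ⟨q1, q2⟩ := mulF_sound b r hr _ _ a1 s1 k3
  refine ⟨q1, fun t => ?_⟩
  show V b (mulF b _ _) t = _
  rw [q2, a2, s2, b2]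
  show _ = _ * (((3 / 2 : ℝ) : ℂ) * ((((R.m : ℝ) / 100000 - (R.lam : ℝ) / 100000 : ℝ) : ℂ) * ((R.par.w t : ℂ) * (R.cb.b3 t : ℂ))
    + ((((R.mu1 : ℝ) / 100000 : ℝ) : ℂ) / 2) * (R.cb.b3 t : ℂ)))
  push_cast
  ring

/-- **the coefficients of `G`** -/
theorem Gf_gG (k : okg R b r = true) (m1 : 0 ≤ R.mu1) (ok : (cd R h len s0).OK) (n : ℤ) :
    Gf (cd R h len s0) n = cf b (gG R b) n / ((1000000000000000000000 : ℕ) : ℂ) := by
  rw [← fc_fG ok]
  exact fc_of (by norm_num) (gG_sound k m1).2 n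

end

/-! ### the certificates -/

/-- parameters: packing, scale, bound of the digits, `√3`, window of the results, shifts of the exact polynomials -/
structure KP where
  b : ℕ
  s : ℕ
  r : ℕ
  h : ℕ
  M : ℕ
  k : ℕ
  t : ℕ
  t2 : ℕ

section

variable (p : KP) (R : Rec)

/-- bounds of `2 ^ s |mu_j / 2|` -/
def n1 : ℕ := nmF p.s R.mu1 200000
def n2 : ℕ := nmF p.s R.mu2 200000

/-- `mu1 / 2 u + mu2 / 2 d` -/
def vP (U D : PF) : PF :=
  addP p.b (mcP p.b p.s p.r (Nat.pow 2 p.s) R.mu1 200000 (adP p.b p.r p.M U))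
    (mcP p.b p.s p.r (Nat.pow 2 p.s) R.mu2 200000 (adP p.b p.r p.M D))
def okv (U D : PF) : Bool :=
  bif okmc p.b p.s p.r R.mu1 200000 (adP p.b p.r p.M U) then
  bif okmc p.b p.s p.r R.mu2 200000 (adP p.b p.r p.M D) then
    oka p.b p.r (mcP p.b p.s p.r (Nat.pow 2 p.s) R.mu1 200000 (adP p.b p.r p.M U)).z
      (mcP p.b p.s p.r (Nat.pow 2 p.s) R.mu2 200000 (adP p.b p.r p.M D)).z
  else false else false

/-- a constant times a function with the bound `n1 + n2` -/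
def kmP (q y : PF) : PF := stepG p.b p.s p.r y.z.N (Nat.mul 2 (Nat.pow 2 p.s)) (Nat.add (n1 p R) (n2 p R)) q y

/-- `q v + q' v' ` -/
def kcb (q q' y y' : PF) : PF := addP p.b (kmP p R q y) (kmP p R q' y')
def okkcb (q q' y y' : PF) : Bool :=
  bif okG p.b p.r y.z.N q y then bif okG p.b p.r y'.z.N q' y' then oka p.b p.r (kmP p R q y).z (kmP p R q' y').z
  else false else false

/-- `G (z* + conj z* / 2)` -/
def gzP : PF :=
  adP p.b p.r p.M (stepG p.b p.s p.r 38 (exN p.b p.s p.r 1000000000000000000000 (gG R p.b)) (exN p.b p.s p.r 200000 (zzF R p.b))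
    (exP p.b p.s p.r p.k p.t 1000000000000000000000 (gG R p.b)) (exP0 p.b p.s p.r p.t2 200000 (zzF R p.b)))
def okgz : Bool :=
  bif okex p.b p.s p.r p.k p.t 1000000000000000000000 (gG R p.b) then
  bif okex0 p.b p.s p.r p.t2 200000 (zzF R p.b) then
    okG p.b p.r 38 (exP p.b p.s p.r p.k p.t 1000000000000000000000 (gG R p.b)) (exP0 p.b p.s p.r p.t2 200000 (zzF R p.b))
  else false else false

/-- THE CERTIFICATES, from `V1, V2` (near directions) and the tangent parts -/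
def kX1 (V1 V2 pS : PF) : PF := subP p.b (addP p.b (adP p.b p.r p.M pS) (subP p.b V1 V2)) (gzP p R)
def okX1 (V1 V2 pS : PF) : Bool :=
  bif oka p.b p.r V1.z V2.z then
  bif oka p.b p.r (adP p.b p.r p.M pS).z (subP p.b V1 V2).z then
    oka p.b p.r (addP p.b (adP p.b p.r p.M pS) (subP p.b V1 V2)).z (gzP p R).z
  else false else false

/-- `p + (q V1 + q' V2)` -/
def yP (q q' V1 V2 pP : PF) : PF := addP p.b (adP p.b p.r p.M pP) (kcb p R q q' V1 V2)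
def oky (q q' V1 V2 pP : PF) : Bool :=
  bif okkcb p R q q' V1 V2 then oka p.b p.r (adP p.b p.r p.M pP).z (kcb p R q q' V1 V2).z else false
/-- real part of `Y` plus an exact polynomial over `c` -/
def kR1 (c : ℕ) (z : FP) (Y : PF) : PF := addP p.b (reP p.b Y) (adP p.b p.r p.M (exP0 p.b p.s p.r p.t2 c z))
def okR1 (c : ℕ) (z : FP) (Y : PF) : Bool :=
  bif okex0 p.b p.s p.r p.t2 c z then
  bif okre p.b p.r Y then oka p.b p.r (reP p.b Y).z (adP p.b p.r p.M (exP0 p.b p.s p.r p.t2 c z)).z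
  else false else false

def kX (U1 U2 D1 D2 pS : PF) : PF := kX1 p R (vP p R U1 D1) (vP p R U2 D2) pS
def kY (U1 U2 D1 D2 pP : PF) : PF :=
  kR1 p 4000000000000000 (k2F R p.b) (yP p R (omP p.b p.s p.h) (om2P p.b p.s p.h) (vP p R U1 D1) (vP p R U2 D2) pP)
def kZ (U1 U2 D1 D2 pR : PF) : PF :=
  kR1 p 8000000000000000 (k3F R p.b) (yP p R (kcP p.b p.s p.h) (kqP p.b p.s p.h) (vP p R U1 D1) (vP p R U2 D2) pR)

/-- the check with `V1, V2` given -/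
def okK1 (V1 V2 pS pP pR : PF) : Bool :=
  bif okX1 p R V1 V2 pS then
  bif oky p R (omP p.b p.s p.h) (om2P p.b p.s p.h) V1 V2 pP then
  bif okR1 p 4000000000000000 (k2F R p.b) (yP p R (omP p.b p.s p.h) (om2P p.b p.s p.h) V1 V2 pP) then
  bif oky p R (kcP p.b p.s p.h) (kqP p.b p.s p.h) V1 V2 pR then
    okR1 p 8000000000000000 (k3F R p.b) (yP p R (kcP p.b p.s p.h) (kqP p.b p.s p.h) V1 V2 pR)
  else false else false else false else false

/-- THE CHECK -/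
def okK (U1 U2 D1 D2 pS pP pR : PF) : Bool :=
  bif Nat.ble p.r (Nat.succ p.b) then
  bif okh p.b p.s p.h then
  bif okg R p.b p.r then
  bif decide (0 ≤ R.mu1) then
  bif decide (0 ≤ R.mu2) then
  bif okgz p R then
  bif okv p R U1 D1 then
  bif okv p R U2 D2 then okK1 p R (vP p R U1 D1) (vP p R U2 D2) pS pP pR
  else false else false else false else false else false else false else false else false

end

section

variable {p : KP} {R : Rec} {C : Crt} {h : R.ok C = true} {K0 : ℕ} {len : Len R K0} {s0 : ℕ}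

theorem n1_le (s : ℕ) (a : ℤ) {f : ℝ → ℂ} (hf : ∀ t, ‖f t‖ ≤ 1) (t : ℝ) :
    (2 ^ s : ℝ) * ‖(a : ℂ) / (200000 : ℕ) * f t‖ ≤ nmF s a 200000 := by
  rw [norm_mul]
  have h1 := nmF_le s a (D := 200000) (by norm_num)
  have h2 := hf t
  have h3 : 0 ≤ (2 ^ s : ℝ) * ‖(a : ℂ) / (200000 : ℕ)‖ := by positivity
  calc (2 ^ s : ℝ) * (‖(a : ℂ) / (200000 : ℕ)‖ * ‖f t‖) = (2 ^ s : ℝ) * ‖(a : ℂ) / (200000 : ℕ)‖ * ‖f t‖ := by ring
    _ ≤ (2 ^ s : ℝ) * ‖(a : ℂ) / (200000 : ℕ)‖ * 1 := mul_le_mul_of_nonneg_left h2 h3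
    _ ≤ _ := by rw [mul_one]; exact h1

theorem vP_sound (hr : p.r ≤ p.b + 1) (hs : p.s ≤ p.b) {U D : PF} {u d : ℝ → ℂ} (hu : ∀ t, ‖u t‖ ≤ 1)
    (hd : ∀ t, ‖d t‖ ≤ 1) (h1 : AP p.b p.s U u) (h2 : AP p.b p.s D d) (k : okv p R U D = true) :
    AP p.b p.s (vP p R U D) (fun t => (R.mu1 : ℂ) / (200000 : ℕ) * u t + (R.mu2 : ℂ) / (200000 : ℕ) * d t) ∧
    ∀ t, (2 ^ p.s : ℝ) * ‖(R.mu1 : ℂ) / (200000 : ℕ) * u t + (R.mu2 : ℂ) / (200000 : ℕ) * d t‖ ≤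
      ((Nat.add (n1 p R) (n2 p R) : ℕ) : ℝ) := by
  unfold okv at k
  simp only [bif_iff] at k
  obtain ⟨k1, k2, k3⟩ := k
  have e1 := adP_sound hr p.M h1
  have e2 := adP_sound hr p.M h2
  refine ⟨addP_sound hr (mcP_sound hr hs (le_of_one hu) e1 k1) (mcP_sound hr hs (le_of_one hd) e2 k2) k3, fun t => ?_⟩
  have g1 := n1_le p.s R.mu1 hu t
  have g2 := n1_le p.s R.mu2 hd t
  have e : ((Nat.add (n1 p R) (n2 p R) : ℕ) : ℝ) = (nmF p.s R.mu1 200000 : ℝ) + nmF p.s R.mu2 200000 := by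
    show ((nmF p.s R.mu1 200000 + nmF p.s R.mu2 200000 : ℕ) : ℝ) = _
    push_cast; rfl
  rw [e]
  have h3 := norm_add_le ((R.mu1 : ℂ) / (200000 : ℕ) * u t) ((R.mu2 : ℂ) / (200000 : ℕ) * d t)
  have hs0 : (0 : ℝ) ≤ 2 ^ p.s := by positivity
  nlinarith [mul_le_mul_of_nonneg_left h3 hs0]

theorem kcb_sound (hr : p.r ≤ p.b + 1) (hs : p.s ≤ p.b) {q q' y y' : PF} {x x' : ℂ} {f f' : ℝ → ℂ} (hx : ‖x‖ ≤ 2)
    (hx' : ‖x'‖ ≤ 2) (hq : AP p.b p.s q (fun _ => x)) (hq' : AP p.b p.s q' (fun _ => x'))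
    (hy : AP p.b p.s y f) (hy' : AP p.b p.s y' f')
    (hf : ∀ t, (2 ^ p.s : ℝ) * ‖f t‖ ≤ ((Nat.add (n1 p R) (n2 p R) : ℕ) : ℝ))
    (hf' : ∀ t, (2 ^ p.s : ℝ) * ‖f' t‖ ≤ ((Nat.add (n1 p R) (n2 p R) : ℕ) : ℝ)) (k : okkcb p R q q' y y' = true) :
    AP p.b p.s (kcb p R q q' y y') (fun t => x * f t + x' * f' t) := by
  unfold okkcb at k
  simp only [bif_iff] at k
  obtain ⟨k1, k2, k3⟩ := k
  exact addP_sound hr (stepG_sound p.b p.s p.r _ _ _ hr hs q y _ _ (le_of_two (f := fun _ => x) fun _ => hx) hf hq hy k1)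
    (stepG_sound p.b p.s p.r _ _ _ hr hs q' y' _ _ (le_of_two (f := fun _ => x') fun _ => hx') hf' hq' hy' k2) k3

theorem kR1_sound (hr : p.r ≤ p.b + 1) (hb : 1 ≤ p.b) {c : ℕ} {z : FP} {Y : PF} {f g : ℝ → ℂ}
    (hV : ∀ x, V p.b z x = (c : ℂ) * g x) (hY : AP p.b p.s Y f) (k : okR1 p c z Y = true) :
    AP p.b p.s (kR1 p c z Y) (fun t => 1 / 2 * (f t + (starRingEnd ℂ) (f t)) + g t) := by
  unfold okR1 at k
  simp only [bif_iff] at k
  obtain ⟨k1, k2, k3⟩ := k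
  exact addP_sound hr (reP_sound hr hb hY k2) (adP_sound hr p.M (exP0_sound hr hV k1)) k3

/-- **the certificates of the constants** -/
theorem kK_sound {U1 U2 D1 D2 pS pP pR : PF} (ok : (cd R h len s0).OK)
    (a1 : AP p.b p.s U1 R.par.u1) (a2 : AP p.b p.s U2 R.par.u2) (b1 : AP p.b p.s D1 (Helper87.SH.dP s0 R.f1))
    (b2 : AP p.b p.s D2 (Helper87.SH.dP s0 R.f2)) (c1 : AP p.b p.s pS (fS R.par)) (c2 : AP p.b p.s pP (fP R.par))
    (c3 : AP p.b p.s pR (fR R.par)) (k : okK p R U1 U2 D1 D2 pS pP pR = true) :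
    AP p.b p.s (kX p R U1 U2 D1 D2 pS) (kXf (cd R h len s0)) ∧
    AP p.b p.s (kY p R U1 U2 D1 D2 pP) (kYf (cd R h len s0)) ∧
    AP p.b p.s (kZ p R U1 U2 D1 D2 pR) (kZf (cd R h len s0)) := by
  unfold okK at k
  simp only [bif_iff] at k
  obtain ⟨hr, hh, kg, m1, m2, kz, kv1, kv2, k⟩ := k
  have hr : p.r ≤ p.b + 1 := Nat.le_of_ble_eq_true hr
  have m1 : 0 ≤ R.mu1 := of_decide_eq_true m1
  have m2 : 0 ≤ R.mu2 := of_decide_eq_true m2
  obtain ⟨o1, o2, o3, o4, o5, o6⟩ := consts hh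
  obtain ⟨q1, q2, q3, q4⟩ := okh_sound hh
  have hs : p.s ≤ p.b := by omega
  have hb : 1 ≤ p.b := by omega
  unfold okK1 okX1 oky at k
  simp only [bif_iff] at k
  obtain ⟨⟨x1, x2, x3⟩, ⟨y1, y2⟩, y3, ⟨z1, z2⟩, z3⟩ := k
  -- near directions
  have u1n : ∀ t, ‖R.par.u1 t‖ ≤ 1 := (u1_bm ok.st.reg).b
  have u2n : ∀ t, ‖R.par.u2 t‖ ≤ 1 := (u2_bm ok.st.reg).b
  have d1n : ∀ t, ‖Helper87.SH.dP s0 R.f1 t‖ ≤ 1 := ok.b1.b
  have d2n : ∀ t, ‖Helper87.SH.dP s0 R.f2 t‖ ≤ 1 := ok.b2.b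
  obtain ⟨v1, w1⟩ := vP_sound (R := R) hr hs u1n d1n a1 b1 kv1
  obtain ⟨v2, w2⟩ := vP_sound (R := R) hr hs u2n d2n a2 b2 kv2
  have e1 : ∀ t, v1f (cd R h len s0) t = (R.mu1 : ℂ) / (200000 : ℕ) * R.par.u1 t
      + (R.mu2 : ℂ) / (200000 : ℕ) * Helper87.SH.dP s0 R.f1 t := fun t => by
    show ((((R.mu1 : ℝ) / 100000 : ℝ) : ℂ) / 2) * R.par.u1 t + ((((R.mu2 : ℝ) / 100000 : ℝ) : ℂ) / 2)
      * Helper87.SH.dP s0 R.f1 t = _
    push_cast
    ring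
  have e2 : ∀ t, v2f (cd R h len s0) t = (R.mu1 : ℂ) / (200000 : ℕ) * R.par.u2 t
      + (R.mu2 : ℂ) / (200000 : ℕ) * Helper87.SH.dP s0 R.f2 t := fun t => by
    show ((((R.mu1 : ℝ) / 100000 : ℝ) : ℂ) / 2) * R.par.u2 t + ((((R.mu2 : ℝ) / 100000 : ℝ) : ℂ) / 2)
      * Helper87.SH.dP s0 R.f2 t = _
    push_cast
    ring
  -- the local part
  have gz : AP p.b p.s (gzP p R) (fun t => fG (cd R h len s0) t * fZs (cd R h len s0) t) := by
    unfold okgz at kz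
    simp only [bif_iff] at kz
    obtain ⟨g1, g2, g3⟩ := kz
    obtain ⟨-, s1⟩ := gG_sound (h := h) (len := len) (s0 := s0) kg m1
    obtain ⟨-, s2⟩ := zzF_sound (h := h) (len := len) (s0 := s0) kg
    exact adP_sound hr p.M (stepG_sound p.b p.s p.r 38 _ _ hr hs _ _ _ _ (exN_le hr (by norm_num) s1)
      (exN_le hr (by norm_num) s2) (exP_sound hr s1 g1) (exP0_sound hr s2 g2) g3)
  have no : ‖om‖ ≤ 2 := by rw [norm_om]; norm_num
  have no2 : ‖om ^ 2‖ ≤ 2 := by rw [norm_pow, norm_om]; norm_num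
  have nk : ‖(starRingEnd ℂ) (kq 2)‖ ≤ 2 := by rw [RCLike.norm_conj]; exact norm_kq
  refine ⟨?_, ?_, ?_⟩
  · have r1 := subP_sound hr v1 v2 x1
    have r2 := addP_sound hr (adP_sound hr p.M c1) r1 x2
    have r3 := subP_sound hr r2 gz x3
    refine AP_congr r3 fun t => ?_
    show (fS R.par t + (v1f (cd R h len s0) t - v2f (cd R h len s0) t)) - _ = _
    rw [e1, e2]
  · have r1 := kcb_sound (R := R) hr hs no no2 o1 o2 v1 v2 w1 w2 y1
    have r2 := addP_sound hr (adP_sound hr p.M c2) r1 y2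
    have r3 := kR1_sound hr hb (k2F_sound (h := h) (len := len) (s0 := s0) kg).2 r2 y3
    refine AP_congr r3 fun t => ?_
    show 1 / 2 * (yYf (cd R h len s0) t + (starRingEnd ℂ) (yYf (cd R h len s0) t)) + _ = _
    have e3 : yYf (cd R h len s0) t = fP R.par t + (om * v1f (cd R h len s0) t + om ^ 2 * v2f (cd R h len s0) t) := rfl
    rw [e3, e1, e2]
  · have r1 := kcb_sound (R := R) hr hs nk norm_kq o6 o5 v1 v2 w1 w2 z1
    have r2 := addP_sound hr (adP_sound hr p.M c3) r1 z2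
    have r3 := kR1_sound hr hb (k3F_sound (h := h) (len := len) (s0 := s0) kg).2 r2 z3
    refine AP_congr r3 fun t => ?_
    show 1 / 2 * (yZf (cd R h len s0) t + (starRingEnd ℂ) (yZf (cd R h len s0) t)) + _ = _
    have e3 : yZf (cd R h len s0) t = fR R.par t + ((starRingEnd ℂ) (kq 2) * v1f (cd R h len s0) t
      + kq 2 * v2f (cd R h len s0) t) := rfl
    rw [e3, e1, e2]

/-- **the digits of the constants** -/
theorem k_CA {U1 U2 D1 D2 pS pP pR : PF} (ok : (cd R h len s0).OK)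
    (a1 : AP p.b p.s U1 R.par.u1) (a2 : AP p.b p.s U2 R.par.u2) (b1 : AP p.b p.s D1 (Helper87.SH.dP s0 R.f1))
    (b2 : AP p.b p.s D2 (Helper87.SH.dP s0 R.f2)) (c1 : AP p.b p.s pS (fS R.par)) (c2 : AP p.b p.s pP (fP R.par))
    (c3 : AP p.b p.s pR (fR R.par)) (k : okK p R U1 U2 D1 D2 pS pP pR = true) :
    (∀ N : ℕ, K0 ≤ N → ∀ n : ℤ, CA (2 ^ p.s) (cX (cd R h len s0) N n) (dR p.b (kX p R U1 U2 D1 D2 pS).z n)
      (dI p.b (kX p R U1 U2 D1 D2 pS).z n) (kX p R U1 U2 D1 D2 pS).er) ∧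
    (∀ n : ℤ, CA (2 ^ p.s) (cY (cd R h len s0) n) (dR p.b (kY p R U1 U2 D1 D2 pP).z n)
      (dI p.b (kY p R U1 U2 D1 D2 pP).z n) (kY p R U1 U2 D1 D2 pP).er) ∧
    ∀ n : ℤ, CA (2 ^ p.s) (cZ (cd R h len s0) n) (dR p.b (kZ p R U1 U2 D1 D2 pR).z n)
      (dI p.b (kZ p R U1 U2 D1 D2 pR).z n) (kZ p R U1 U2 D1 D2 pR).er := by
  obtain ⟨k1, k2, k3⟩ := kK_sound ok a1 a2 b1 b2 c1 c2 c3 k
  have h0 : (cd R h len s0).P.a0 = fun _ => 0 := rfl
  obtain ⟨B1, q1⟩ := kXf_bm ok h0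
  obtain ⟨B2, q2⟩ := kYf_bm ok h0
  obtain ⟨B3, q3⟩ := kZf_bm ok h0
  refine ⟨fun N hN n => ?_, fun n => ?_, fun n => ?_⟩
  · rw [← fc_kXf ok h0 (N := N) hN]
    exact CA_fc q1 k1 n
  · rw [← fc_kYf ok h0]
    exact CA_fc q2 k2 n
  · rw [← fc_kZf ok h0]
    exact CA_fc q3 k3 n

end

end Helper87.SH
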