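import Pool.Agent.Helper19.SH.ColJ
import Pool.Agent.Helper85.NS.Rows
import Pool.Agent.Helper51.SH.E12
import Pool.Agent.Helper87.SH.ColK2
import Pool.Agent.Helper96.SH.Fl
import Pool.Agent.Helper38.SH.O1R
import Pool.Agent.Helper51.SH.Low

/-!
# Project RC, SHARP, cell engine: the inputs of the collar block for a record

`cin q R zA zB F1 F2 X Y Z`: helper19's inputs `CIn` for the record `R`: rows `zA, zB` of `gA, gB` (helper85, `rowN`), digits
`F1, F2` of `E1, E2` (helper51), constants `X, Y, Z` (helper87, `kX, kY, kZ`) rounded to the scale `2 ^ S`, the exact polynomial `G`.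
`cin_ok`: it satisfies `CIn.Ok` for the data `cd` of the record (helper70).
-/

set_option autoImplicit false

open Finset

namespace Helper87.SH

open Helper95.SH Helper95.RC
open Helper49.LT hiding sg
open Helper49.Cell
open Helper54.RC.Fast hiding ps
open Helper56.RC (fc)
open Helper76.RC.TPoly (l1)
open Helper70.SH (cd Len)
open Helper85.NS (CR TabH kaA kaB rowN gA_CR gB_CR)
open Helper96.SH (dz flC dz_flC)
open Pool.Agent.Helper64.SH
open Pool.Agent.Helper19.SH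
open Pool.Agent.Helper99.RC (ps)

/-! ### digits -/

theorem l1_get (l : List ℤ) (k : ℕ) : (l.getD k 0).natAbs ≤ l1 l := by
  induction l generalizing k with
  | nil => simp
  | cons a l ih =>
    have e : l1 (a :: l) = a.natAbs + l1 l := by simp [l1]
    rw [e]
    cases k with
    | zero => simp
    | succ k =>
      rw [List.getD_cons_succ]
      exact (ih k).trans (Nat.le_add_left _ _)

/-- the digits are at most the `l1` norm -/
theorem dRI_le {b r : ℕ} (hr : r ≤ b + 1) (z : FP) (n : ℤ) : |dR b z n| ≤ (nrF b r z : ℤ) ∧ |dI b z n| ≤ (nrF b r z : ℤ) := by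
  have key : ∀ X : ℕ, ∀ k < len z.N, |((dg b k X : ℕ) : ℤ) - 2 ^ b| ≤ (l1F b r (len z.N) X : ℤ) := by
    intro X k hk
    rw [← Pool.Agent.Helper51.SH.getD_ls b (len z.N) X k hk, Int.abs_eq_natAbs]
    exact_mod_cast (l1_get _ k).trans (l1F_le b r (len z.N) X hr)
  have e : (nrF b r z : ℤ) = (l1F b r (len z.N) z.x : ℤ) + (l1F b r (len z.N) z.y : ℤ) := by
    show ((l1F b r (len z.N) z.x + l1F b r (len z.N) z.y : ℕ) : ℤ) = _
    push_cast; rfl
  have i1 : (0 : ℤ) ≤ (l1F b r (len z.N) z.x : ℤ) := Int.natCast_nonneg _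
  have i2 : (0 : ℤ) ≤ (l1F b r (len z.N) z.y : ℤ) := Int.natCast_nonneg _
  by_cases h : -(z.N : ℤ) ≤ n ∧ n ≤ z.N
  · have hk : (n + z.N).toNat < len z.N := by rw [len_eq]; omega
    unfold dR dI
    rw [if_pos h, if_pos h, e]
    have a1 := key z.x _ hk
    have a2 := key z.y _ hk
    constructor <;> linarith
  · unfold dR dI
    rw [if_neg h, if_neg h, e, abs_zero]
    constructor <;> linarith

/-- the check -/
def leD (b r D : ℕ) (z : FP) : Bool := Nat.ble (nrF b r z) D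

theorem leD_sound {b r D : ℕ} (hr : r ≤ b + 1) {z : FP} (h : leD b r D z = true) (n : ℤ) :
    |dR b z n| ≤ (D : ℤ) ∧ |dI b z n| ≤ (D : ℤ) := by
  have h1 : nrF b r z ≤ D := Nat.le_of_ble_eq_true h
  have h2 : (nrF b r z : ℤ) ≤ (D : ℤ) := by exact_mod_cast h1
  obtain ⟨a, c⟩ := dRI_le hr z n
  exact ⟨a.trans h2, c.trans h2⟩

/-! ### rows -/

theorem dR_dz {b : ℕ} {z : FP} {N : ℕ} (hN : z.N = N) {k : ℤ} (hk : |k| ≤ N) :
    dR b z k = dz b (k + N).toNat z.x ∧ dI b z k = dz b (k + N).toNat z.y := by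
  subst hN
  have h := abs_le.1 hk
  unfold dR dI
  rw [if_pos h, if_pos h]
  exact ⟨rfl, rfl⟩

/-- from helper85's rows to helper19's rows -/
theorem CR_LC {b s n N e : ℕ} {X : (ℕ → ℝ) → ℤ → ℂ} {Z : ℕ → FP} (h : CR b s n N X Z e) {k : ℤ} (hk : |k| ≤ N) :
    LC n (2 ^ s) (fun v => X v k) (fun i => dR b (Z i) k) (fun i => dI b (Z i) k) e := by
  obtain ⟨ξ, h1, h2⟩ := h
  have hk' := abs_le.1 hk
  refine ⟨fun i => ξ i k, fun v hv => ?_, fun i hi => ?_⟩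
  · beta_reduce
    rw [h1 v hv k (Finset.mem_Icc.2 hk')]
    exact Finset.sum_congr rfl fun i _ => by ring
  · obtain ⟨a1, -, a3⟩ := h2 i hi
    have hj : (k + N).toNat < len N := by rw [len_eq]; omega
    have h3 := a3 _ hj
    have e1 : (((k + N).toNat : ℕ) : ℤ) - N = k := by omega
    rw [e1] at h3
    obtain ⟨d1, d2⟩ := dR_dz (b := b) a1 hk
    show ‖(((2 : ℝ) ^ s : ℝ) : ℂ) * ξ i k - ci (dR b (Z i) k) (dI b (Z i) k)‖ ≤ e
    have e2 : (((2 : ℝ) ^ s : ℝ) : ℂ) = 2 ^ s := by push_cast; rfl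
    rw [d1, d2, norm_sub_rev, e2]
    unfold ci
    exact h3

theorem CR_wf {b s n N e : ℕ} {X : (ℕ → ℝ) → ℤ → ℂ} {Z : ℕ → FP} (h : CR b s n N X Z e) {i : ℕ} (hi : i < n) :
    (Z i).N = N ∧ wf b (Z i) = true := by
  obtain ⟨ξ, h1, h2⟩ := h
  obtain ⟨a1, a2, -⟩ := h2 i hi
  refine ⟨a1, (wf_iff b (Z i)).2 ?_⟩
  rw [a1]
  exact a2

/-! ### rounding of the constants -/

theorem dR_flF {b t : ℕ} {z : FP} (hz : wf b z = true) (ht : t ≤ b) (n : ℤ) :
    dR b (flF b t z) n = dR b z n / 2 ^ t ∧ dI b (flF b t z) n = dI b z n / 2 ^ t := by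
  obtain ⟨w1, w2⟩ := (wf_iff b z).1 hz
  have hl : len z.N = 2 * z.N + 1 := len_eq _
  by_cases h : -(z.N : ℤ) ≤ n ∧ n ≤ z.N
  · have hk : (n + z.N).toNat ≤ 2 * z.N := by omega
    rw [hl] at w1 w2
    have d1 := dz_flC (b := b) (t := t) (l1 := 2 * z.N) w1 ht hk
    have d2 := dz_flC (b := b) (t := t) (l1 := 2 * z.N) w2 ht hk
    constructor
    · have e : dR b (flF b t z) n = dz b (n + z.N).toNat (flC b t (2 * z.N) z.x) := by
        unfold dR
        rw [if_pos (show -((flF b t z).N : ℤ) ≤ n ∧ n ≤ (flF b t z).N from h)]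
        rfl
      rw [e, d1]
      unfold dR
      rw [if_pos h]
      rfl
    · have e : dI b (flF b t z) n = dz b (n + z.N).toNat (flC b t (2 * z.N) z.y) := by
        unfold dI
        rw [if_pos (show -((flF b t z).N : ℤ) ≤ n ∧ n ≤ (flF b t z).N from h)]
        rfl
      rw [e, d2]
      unfold dI
      rw [if_pos h]
      rfl
  · unfold dR dI
    rw [if_neg (show ¬ (-((flF b t z).N : ℤ) ≤ n ∧ n ≤ (flF b t z).N) from h), if_neg h,
      if_neg (show ¬ (-((flF b t z).N : ℤ) ≤ n ∧ n ≤ (flF b t z).N) from h), if_neg h]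
    simp

theorem CA_div {s t : ℕ} (hts : t ≤ s) {ζ : ℂ} {a c : ℤ} {e : ℝ} (h : CA (2 ^ s) ζ a c e) :
    CA (2 ^ (s - t)) ζ (a / 2 ^ t) (c / 2 ^ t) (e / 2 ^ t + 2) := by
  unfold CA at *
  have hS : (0 : ℝ) < 2 ^ t := by positivity
  have e1 : (2 : ℝ) ^ s = 2 ^ t * 2 ^ (s - t) := by rw [← pow_add]; congr 1; omega
  have hd : ∀ x : ℤ, |(x : ℝ) - 2 ^ t * ((x / 2 ^ t : ℤ) : ℝ)| ≤ 2 ^ t := by
    intro x
    have h1 := Int.emod_add_mul_ediv x (2 ^ t)
    have h2 := Int.emod_nonneg x (show (2 ^ t : ℤ) ≠ 0 by positivity)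
    have h3 := Int.emod_lt_of_pos x (show (0 : ℤ) < 2 ^ t by positivity)
    have h4 : (x : ℝ) - 2 ^ t * ((x / 2 ^ t : ℤ) : ℝ) = ((x % 2 ^ t : ℤ) : ℝ) := by
      have : ((x % 2 ^ t + 2 ^ t * (x / 2 ^ t) : ℤ) : ℝ) = (x : ℝ) := by rw [h1]
      push_cast at this ⊢
      linarith
    rw [h4, abs_of_nonneg (by exact_mod_cast h2)]
    have : ((x % 2 ^ t : ℤ) : ℝ) ≤ ((2 ^ t : ℤ) : ℝ) := by exact_mod_cast h3.le
    push_cast at this ⊢
    exact this
  have e2 : (((2 : ℝ) ^ t : ℝ) : ℂ) * ((((2 : ℝ) ^ (s - t) : ℝ) : ℂ) * ζ - ci (a / 2 ^ t) (c / 2 ^ t)) =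
      ((((2 : ℝ) ^ s : ℝ) : ℂ) * ζ - ci a c) + ((((a : ℝ) - 2 ^ t * ((a / 2 ^ t : ℤ) : ℝ) : ℝ) : ℂ)
        + Complex.I * (((c : ℝ) - 2 ^ t * ((c / 2 ^ t : ℤ) : ℝ) : ℝ) : ℂ)) := by
    rw [e1]
    unfold ci
    push_cast
    ring
  have h5 : (2 : ℝ) ^ t * ‖(((2 : ℝ) ^ (s - t) : ℝ) : ℂ) * ζ - ci (a / 2 ^ t) (c / 2 ^ t)‖ ≤ e + 2 * 2 ^ t := by
    rw [← abs_of_pos hS, ← Real.norm_eq_abs, ← Complex.norm_real, ← norm_mul, e2, Complex.norm_real, Real.norm_eq_abs,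
      abs_of_pos hS]
    refine (norm_add_le _ _).trans (add_le_add h ?_)
    refine (norm_add_le _ _).trans ?_
    rw [norm_mul, Complex.norm_I, one_mul, Complex.norm_real, Complex.norm_real, Real.norm_eq_abs, Real.norm_eq_abs]
    have := hd a
    have := hd c
    linarith
  rw [← mul_le_mul_iff_right₀ hS]
  refine h5.trans (le_of_eq ?_)
  field_simp

/-- the rounded constant -/
theorem CA_flF {b s t : ℕ} {z : FP} (hz : wf b z = true) (ht : t ≤ b) (hts : t ≤ s) {ζ : ℂ} {n : ℤ} {e : ℕ}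
    (h : CA (2 ^ s) ζ (dR b z n) (dI b z n) e) :
    CA (2 ^ (s - t)) ζ (dR b (flF b t z) n) (dI b (flF b t z) n) ((Nat.add (Nat.div e (Nat.pow 2 t)) 3 : ℕ) : ℝ) := by
  obtain ⟨d1, d2⟩ := dR_flF hz ht n
  rw [d1, d2]
  have h1 := CA_div hts h
  unfold CA at *
  refine h1.trans ?_
  have h2 : (e : ℝ) / 2 ^ t ≤ ((e / 2 ^ t : ℕ) : ℝ) + 1 := by
    have h3 : e < 2 ^ t * (e / 2 ^ t + 1) := Nat.lt_mul_div_succ _ (by positivity)
    have h4 : (e : ℝ) ≤ ((2 ^ t * (e / 2 ^ t + 1) : ℕ) : ℝ) := by exact_mod_cast h3.le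
    rw [div_le_iff₀ (by positivity)]
    push_cast at h4
    linarith
  have e3 : ((Nat.add (Nat.div e (Nat.pow 2 t)) 3 : ℕ) : ℝ) = ((e / 2 ^ t : ℕ) : ℝ) + 3 := by
    show ((e / 2 ^ t + 3 : ℕ) : ℝ) = _
    push_cast; rfl
  rw [e3]
  linarith

/-! ### the row of `H0A + lam` -/

/-- `10 ^ 5 (H0A + lam)` -/
def hH (K : ℕ) (R : Rec) (i : ℕ) : ℤ :=
  bif Nat.beq i 0 then R.lam else
  bif Nat.beq i (bp K) then 100000 else
  bif Nat.beq i (Nat.add (bp K) 1) then Int.mul 2 R.e1 else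
  bif Nat.beq i (Nat.add (bp K) 2) then Int.mul 2 R.e2 else 0

def hHm (R : Rec) : ℕ :=
  Nat.add (Nat.add R.lam.natAbs 100000) (Nat.mul 2 (Nat.add R.e1.natAbs R.e2.natAbs))

theorem hH_eq (K : ℕ) (R : Rec) (i : ℕ) : hH K R i =
    (if i = 0 then R.lam else 0) + (if i = bp K then 100000 else 0) + (if i = bp K + 1 then 2 * R.e1 else 0)
      + (if i = bp K + 2 then 2 * R.e2 else 0) := by
  have hb : 0 < bp K := by unfold bp; omega
  have e : hH K R i = if i = 0 then R.lam else if i = bp K then 100000 else if i = bp K + 1 then 2 * R.e1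
      else if i = bp K + 2 then 2 * R.e2 else 0 := by
    unfold hH
    have b0 : ∀ x y : ℕ, Nat.beq x y = decide (x = y) := fun x y => by
      cases h : Nat.beq x y with
      | true => rw [decide_eq_true (Nat.eq_of_beq_eq_true h)]
      | false => rw [decide_eq_false (Nat.ne_of_beq_eq_false h)]
    rw [b0, b0, b0, b0]
    simp only [Bool.cond_decide]
    rfl
  rw [e]
  split_ifs <;> first | omega | simp

theorem hH_le (K : ℕ) (R : Rec) (i : ℕ) : |hH K R i| ≤ (hHm R : ℤ) := by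
  have e : (hHm R : ℤ) = |R.lam| + 100000 + 2 * (|R.e1| + |R.e2|) := by
    show ((R.lam.natAbs + 100000 + 2 * (R.e1.natAbs + R.e2.natAbs) : ℕ) : ℤ) = _
    push_cast
    rfl
  rw [hH_eq, e]
  have a1 := abs_nonneg R.lam
  have a2 := abs_nonneg R.e1
  have a3 := abs_nonneg R.e2
  have b1 := abs_le.1 (le_refl |R.lam|)
  have b2 := abs_le.1 (le_refl |R.e1|)
  have b3 := abs_le.1 (le_refl |R.e2|)
  rw [abs_le]
  split_ifs <;> constructor <;> linarith

theorem hV_zero (L base : ℕ) (v : ℕ → ℝ) : hV L base v 0 = (v base : ℂ) := by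
  unfold hV
  rw [if_neg (by push Not; exact ⟨Even.zero, by rw [Finset.mem_Icc]; omega⟩), if_pos rfl]

/-- **the row of `H0A + lam`** -/
theorem H_row {K L : ℕ} (hL2 : 2 ≤ L) {R : Rec} :
    LR (nt K L) (100000 : ℕ) (fun v => H0A R.par (pV K L v) (rV K L v) + R.par.lam) (hH K R) 0 := by
  have ha : fc R.par.a0 0 = 0 := by
    rw [Helper70.SH.par_a0]
    unfold Helper56.RC.fc
    simp
  have hb : 0 < bp K := by unfold bp; omega
  have hn : bp K + 2 < nt K L := by unfold nt; omega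
  refine ⟨fun i => (hH K R i : ℝ) / 100000, fun v hv => ?_, fun i _ => ?_⟩
  · beta_reduce
    have e0 : ∀ i, (hH K R i : ℝ) / 100000 * v i =
        (if i = 0 then (R.lam : ℝ) / 100000 * v 0 else 0) + (if i = bp K then v (bp K) else 0)
          + (if i = bp K + 1 then 2 * (R.e1 : ℝ) / 100000 * v (bp K + 1) else 0)
          + (if i = bp K + 2 then 2 * (R.e2 : ℝ) / 100000 * v (bp K + 2) else 0) := by
      intro i
      rw [hH_eq]
      have v0 : i = 0 → v i = v 0 := fun h => by rw [h]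
      have v1 : i = bp K → v i = v (bp K) := fun h => by rw [h]
      have v2 : i = bp K + 1 → v i = v (bp K + 1) := fun h => by rw [h]
      have v3 : i = bp K + 2 → v i = v (bp K + 2) := fun h => by rw [h]
      split_ifs with h0 h1 h2 h3 h4 h5 h6 h7 <;> first
        | omega
        | (rw [v0 ‹_›]; push_cast; ring)
        | (rw [v1 ‹_›]; push_cast; ring)
        | (rw [v2 ‹_›]; push_cast; ring)
        | (rw [v3 ‹_›]; push_cast; ring)
        | (push_cast; ring)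
    simp only [e0, sum_add_distrib, sum_ite_eq', mem_range]
    rw [if_pos (by omega), if_pos (by omega), if_pos (by omega), if_pos (by omega), hv]
    rw [Helper38.SH.H0A_eq ha]
    have p0 : pV K L v 0 = (v (bp K) : ℂ) := hV_zero L (bp K) v
    have r0 : rV K L v 0 = (v (br K L) : ℂ) := hV_zero L (br K L) v
    have p2 : pV K L v 2 = (v (bp K + 1) : ℂ) + Complex.I * (v (bp K + 2) : ℂ) :=
      hV_pos v (by decide) (by norm_num) (by omega)
    have r2 : rV K L v 2 = (v (br K L + 1) : ℂ) + Complex.I * (v (br K L + 2) : ℂ) :=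
      hV_pos v (by decide) (by norm_num) (by omega)
    have p2' : pV K L v (-2) = (starRingEnd ℂ) (pV K L v 2) := hV_neg L (bp K) v 2
    have r2' : rV K L v (-2) = (starRingEnd ℂ) (rV K L v 2) := hV_neg L (br K L) v 2
    have e1 : alA R.par (pV K L v) (rV K L v) 0 =
        (pV K L v 0 + R.par.eta * pV K L v (-2) + (starRingEnd ℂ) R.par.eta * pV K L v 2) +
        Complex.I / 2 * (rV K L v 0 + R.par.eta * rV K L v (-2) + (starRingEnd ℂ) R.par.eta * rV K L v 2) := by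
      unfold alA wm
      norm_num
    have e2 : R.par.eta = (((R.e1 : ℝ) / 100000 : ℝ) : ℂ) + Complex.I * (((R.e2 : ℝ) / 100000 : ℝ) : ℂ) := by
      rw [Helper70.SH.par_eta]
      push_cast
      ring
    rw [e1, p2', r2', p0, r0, p2, r2, e2, Helper70.SH.par_lam]
    simp [Complex.add_re, Complex.mul_re, Complex.add_im, Complex.mul_im, Complex.div_re, Complex.div_im]
    ring
  · show |((100000 : ℕ) : ℝ) * ((hH K R i : ℝ) / 100000) - hH K R i| ≤ 0
    have : ((100000 : ℕ) : ℝ) * ((hH K R i : ℝ) / 100000) - hH K R i = 0 := by push_cast; ring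
    rw [this, abs_zero]

/-! ### another base -/

/-- the digits of `x` divided by `2 ^ t` -/
def cvL (b t n x : ℕ) : List ℤ := (List.range n).map fun i =>
  Int.ediv (Int.sub (Int.ofNat (dg b i x)) (Int.ofNat (Nat.pow 2 b))) (Int.ofNat (Nat.pow 2 t))

/-- the polynomial `z` (base `b`) divided by `2 ^ t`, in the base `b'` -/
def cvF (b b' t : ℕ) (z : FP) : FP := ofL b' z.N (cvL b t (len z.N) z.x) (cvL b t (len z.N) z.y)

/-- the check -/
def okcv (b b' t : ℕ) (z : FP) : Bool := rng b' (cvL b t (len z.N) z.x) && rng b' (cvL b t (len z.N) z.y)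

theorem cvF_sound {b b' t : ℕ} {z : FP} (h : okcv b b' t z = true) : wf b' (cvF b b' t z) = true ∧ (cvF b b' t z).N = z.N ∧
    ∀ n : ℤ, |n| ≤ z.N → dR b' (cvF b b' t z) n = dR b z n / 2 ^ t ∧ dI b' (cvF b b' t z) n = dI b z n / 2 ^ t := by
  unfold okcv at h
  rw [Bool.and_eq_true] at h
  have l1 : (cvL b t (len z.N) z.x).length = len z.N := by unfold cvL; simp
  have l2 : (cvL b t (len z.N) z.y).length = len z.N := by unfold cvL; simp
  obtain ⟨w, -⟩ := ofL_sound b' z.N _ _ l1 l2 h.1 h.2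
  refine ⟨w, rfl, fun n hn => ?_⟩
  have hn' := abs_le.1 hn
  have hk : (n + z.N).toNat < len z.N := by rw [len_eq]; omega
  unfold cvF
  rw [Pool.Agent.Helper51.SH.dR_ofL l1 h.1 hn', Pool.Agent.Helper51.SH.dI_ofL l2 h.2 hn']
  have e : ∀ X : ℕ, (cvL b t (len z.N) X).getD (n + z.N).toNat 0 =
      (((dg b (n + z.N).toNat X : ℕ) : ℤ) - 2 ^ b) / 2 ^ t := by
    intro X
    unfold cvL
    rw [Pool.Agent.Helper51.SH.getD_map_range _ _ hk]
    show (((dg b (n + z.N).toNat X : ℕ) : ℤ) - ((2 ^ b : ℕ) : ℤ)) / ((2 ^ t : ℕ) : ℤ) = _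
    push_cast
    rfl
  rw [e, e]
  unfold dR dI
  rw [if_pos hn', if_pos hn']
  exact ⟨rfl, rfl⟩

/-! ### the inputs -/

/-- parameters of the block: windows, packing `b` and scale `2 ^ s` of the rows, packing `bK`, scale `sK`, `rK` (norms) of
the constants, `√3 = t / q'`, intermediate scale `S1`, output scale `S`, output packing `bo`, bounds of digits, errors -/
structure CQ where
  K : ℕ
  L : ℕ
  J1 : ℕ
  J2 : ℕ
  N : ℕ
  b : ℕ
  s : ℕ
  bK : ℕ
  sK : ℕ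
  rK : ℕ
  q' : ℕ
  t : ℕ
  S1 : ℕ
  S : ℕ
  bo : ℕ
  DE : ℕ
  DG : ℕ
  DK : ℕ
  e : ℕ
  eE : ℕ
  eK : ℕ

section

variable (q : CQ) (R : Rec)

/-- a rounded constant -/
def rdK (X : FP) : FP := flF q.bK (Nat.sub q.sK q.S) X

/-- **THE INPUTS OF THE COLLAR BLOCK** -/
def cin (zA zB : ℕ → FP) (F1 F2 X Y Z : FP) : CIn where
  b := q.b
  bG := q.bK
  bK := q.bK
  bo := q.bo
  N := q.N
  K := q.K
  L := q.L
  J1 := q.J1
  J2 := q.J2
  den := 100000
  e1 := R.e1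
  e2 := R.e2
  q' := q.q'
  t := q.t
  dH := 100000
  s := q.s
  S1 := q.S1
  S := q.S
  h := hH q.K R
  zA := zA
  zB := zB
  zE1 := F1
  zE2 := F2
  kX := rdK q X
  kY := rdK q Y
  kZ := rdK q Z
  gG := gG R q.bK
  qG := 1000000000000000000000
  aY := Int.sub (Int.sub 1800000 (Int.mul 2 R.cs)) (Int.mul 2 (Int.sub R.m R.lam))
  aZ := Int.sub (Int.sub 1800000 (Int.mul 2 R.cs)) (Int.mul 3 (Int.sub R.m R.lam))
  dA := 200000
  D := Nat.pow 2 (Nat.add q.s 7)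
  DE := q.DE
  DG := q.DG
  DK := q.DK
  Hm := hHm R
  e := q.e
  eE := q.eE
  eK := q.eK

/-- the checks of the windows and scales -/
def okQ0 (K0 M : ℕ) : Bool :=
  (Nat.beq (Nat.mod q.K 2) 1 && Nat.beq (Nat.mod q.L 2) 0 && Nat.ble q.K M && Nat.ble q.L M
    && Nat.ble K0 M && Nat.ble 2 q.L) &&
  (Nat.ble q.rK (Nat.succ q.bK) && Nat.ble q.S q.sK && Nat.ble q.sK q.bK)

/-- the checks of `E1, E2`, of the constants and of `G` -/
def okDE (F1 F2 : FP) : Bool := leD q.b q.rK q.DE F1 && leD q.b q.rK q.DE F2 && Nat.ble q.rK (Nat.succ q.b)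
def okD1 (X : PF) : Bool :=
  leD q.bK q.rK q.DK (rdK q X.z) && Nat.ble (Nat.add (Nat.div X.er (Nat.pow 2 (Nat.sub q.sK q.S))) 3) q.eK
def okDK (X Y Z : PF) : Bool := okD1 q X && okD1 q Y && okD1 q Z
def okDG : Bool := leD q.bK q.rK q.DG (gG R q.bK)

end

/-- certified digits of a sequence -/
def FOk (b s N e : ℕ) (E : ℤ → ℂ) (F : FP) : Prop :=
  wf b F = true ∧ F.N = N ∧ ∀ k : ℤ, |k| ≤ N → CA (2 ^ s) (E k) (dR b F k) (dI b F k) e
/-- certified digits of a constant -/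
def KOk (b s : ℕ) (E : ℤ → ℂ) (X : PF) : Prop :=
  wf b X.z = true ∧ ∀ k : ℤ, CA (2 ^ s) (E k) (dR b X.z k) (dI b X.z k) X.er

/-- another base and scale -/
theorem FOk.cv {b b' s t N e e' : ℕ} {E : ℤ → ℂ} {F : FP} (h : FOk b s N e E F) (k : okcv b b' t F = true) (ht : t ≤ s)
    (he : Nat.ble (Nat.add (Nat.div e (Nat.pow 2 t)) 3) e' = true) : FOk b' (s - t) N e' E (cvF b b' t F) := by
  obtain ⟨h1, h2, h3⟩ := h
  obtain ⟨w1, w2, w3⟩ := cvF_sound k
  refine ⟨w1, w2.trans h2, fun n hn => ?_⟩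
  obtain ⟨d1, d2⟩ := w3 n (by rw [h2]; exact hn)
  rw [d1, d2]
  refine ((CA_div ht (h3 n hn)).mono ?_)
  have h4 : (e : ℝ) / 2 ^ t ≤ ((e / 2 ^ t : ℕ) : ℝ) + 1 := by
    have h5 : e < 2 ^ t * (e / 2 ^ t + 1) := Nat.lt_mul_div_succ _ (by positivity)
    have h6 : (e : ℝ) ≤ ((2 ^ t * (e / 2 ^ t + 1) : ℕ) : ℝ) := by exact_mod_cast h5.le
    rw [div_le_iff₀ (by positivity)]
    push_cast at h6
    linarith
  have h7 : e / 2 ^ t + 3 ≤ e' := Nat.le_of_ble_eq_true he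
  have h8 : ((e / 2 ^ t : ℕ) : ℝ) + 3 ≤ e' := by exact_mod_cast h7
  linarith

section

variable {q : CQ} {R : Rec} {C : Crt} {h : R.ok C = true} {K0 : ℕ} {len : Len R K0} {s0 M : ℕ} {zA zB : ℕ → FP}
  {F1 F2 : FP} {X Y Z : PF}

theorem bif_and {a c : Bool} (h : (a && c) = true) : a = true ∧ c = true := by
  rw [Bool.and_eq_true] at h; exact h

theorem k_sound {E : ℤ → ℂ} (hr : q.rK ≤ q.bK + 1) (hS : q.S ≤ q.sK) (hs : q.sK ≤ q.bK) (hX : KOk q.bK q.sK E X)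
    (o : okD1 q X = true) : (∀ k : ℤ, CA (2 ^ q.S) (E k) (dR q.bK (rdK q X.z) k) (dI q.bK (rdK q X.z) k) q.eK) ∧
      ∀ k, |dR q.bK (rdK q X.z) k| ≤ (q.DK : ℤ) ∧ |dI q.bK (rdK q X.z) k| ≤ (q.DK : ℤ) := by
  obtain ⟨o1, o2⟩ := bif_and o
  refine ⟨fun k => ?_, leD_sound hr o1⟩
  have h1 := CA_flF (t := q.sK - q.S) hX.1 (by omega) (by omega) (hX.2 k)
  have e : q.sK - (q.sK - q.S) = q.S := by omega
  rw [e] at h1
  have h2 : Nat.add (Nat.div X.er (Nat.pow 2 (Nat.sub q.sK q.S))) 3 ≤ q.eK := Nat.le_of_ble_eq_true o2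
  exact h1.mono (by exact_mod_cast h2)

theorem DB_d {b n N e s : ℕ} {B : ℤ} {X : (ℕ → ℝ) → ℤ → ℂ} {Z : ℕ → FP} (h : CR b s n N X Z e)
    (hB : Helper85.NS.DB b n N B Z) (hB0 : 0 ≤ B) {i : ℕ} (hi : i < n) (k : ℤ) :
    |dR b (Z i) k| ≤ B ∧ |dI b (Z i) k| ≤ B := by
  obtain ⟨hN, -⟩ := CR_wf h hi
  by_cases hk : |k| ≤ N
  · obtain ⟨d1, d2⟩ := dR_dz (b := b) hN hk
    have hk' := abs_le.1 hk
    rw [d1, d2]
    exact hB i hi _ (by rw [len_eq]; omega)
  · have hk2 : ¬ (-((Z i).N : ℤ) ≤ k ∧ k ≤ (Z i).N) := by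
      rw [hN]; exact fun h => hk (abs_le.2 h)
    unfold dR dI
    rw [if_neg hk2, if_neg hk2, abs_zero]
    exact ⟨hB0, hB0⟩

/-- **THE INPUTS OF THE RECORD ARE CORRECT** -/
theorem cin_ok (ok : (cd R h len s0).OK) (m1 : 0 ≤ R.mu1) (o0 : okQ0 q K0 M = true)
    (hA : CR q.b q.s (nt q.K q.L) q.N (fun v n => gA (cd R h len s0) M (pV q.K q.L v) (rV q.K q.L v) (sV q.K v) n) zA q.e ∧
      Helper85.NS.DB q.b (nt q.K q.L) q.N (2 ^ (q.s + 7)) zA)
    (hB : CR q.b q.s (nt q.K q.L) q.N (fun v n => gB (cd R h len s0) M (pV q.K q.L v) (rV q.K q.L v) (sV q.K v) n) zB q.e ∧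
      Helper85.NS.DB q.b (nt q.K q.L) q.N (2 ^ (q.s + 7)) zB)
    (hF1 : FOk q.b q.s q.N q.eE (E1 (cd R h len s0)) F1) (hF2 : FOk q.b q.s q.N q.eE (E2 (cd R h len s0)) F2)
    (dE : okDE q F1 F2 = true)
    (hX : KOk q.bK q.sK (cX (cd R h len s0) M) X) (hY : KOk q.bK q.sK (cY (cd R h len s0)) Y)
    (hZ : KOk q.bK q.sK (cZ (cd R h len s0)) Z) (dK : okDK q X Y Z = true)
    {rg : ℕ} (oG : okg R q.bK rg = true) (dG : okDG q R = true) (num : (cin q R zA zB F1 F2 X.z Y.z Z.z).okN = true) :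
    (cin q R zA zB F1 F2 X.z Y.z Z.z).Ok (cd R h len s0) M := by
  unfold okQ0 at o0
  simp only [Bool.and_eq_true] at o0
  obtain ⟨⟨⟨⟨⟨⟨p1, p2⟩, p3⟩, p4⟩, p6⟩, p7⟩, ⟨p8, p9⟩, p10⟩ := o0
  have hK : ¬ Even q.K := by
    have h1 : q.K % 2 = 1 := Nat.eq_of_beq_eq_true p1
    rw [Nat.even_iff]; omega
  have hL : Even q.L := by
    have h1 : q.L % 2 = 0 := Nat.eq_of_beq_eq_true p2
    rw [Nat.even_iff]; exact h1
  have hK' : q.K ≤ M := Nat.le_of_ble_eq_true p3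
  have hL' : q.L ≤ M := Nat.le_of_ble_eq_true p4
  have hL2 : 2 ≤ q.L := Nat.le_of_ble_eq_true p7
  have hr : q.rK ≤ q.bK + 1 := Nat.le_of_ble_eq_true p8
  have hS : q.S ≤ q.sK := Nat.le_of_ble_eq_true p9
  have hs : q.sK ≤ q.bK := Nat.le_of_ble_eq_true p10
  obtain ⟨kx, dx⟩ := k_sound hr hS hs hX (bif_and (bif_and dK).1).1
  obtain ⟨ky, dy⟩ := k_sound hr hS hs hY (bif_and (bif_and dK).1).2
  obtain ⟨kz, dz⟩ := k_sound hr hS hs hZ (bif_and dK).2
  have g1 := gG_sound (h := h) (len := len) (s0 := s0) oG m1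
  obtain ⟨dE0, r1⟩ := bif_and dE
  have r1 : q.rK ≤ q.b + 1 := Nat.le_of_ble_eq_true r1
  have eD : (((Nat.pow 2 (Nat.add q.s 7) : ℕ)) : ℤ) = 2 ^ (q.s + 7) := by
    show ((2 ^ (q.s + 7) : ℕ) : ℤ) = _
    push_cast; rfl
  exact
    { hK := hK
      hL := hL
      KM := hK'
      LM := hL'
      nA := fun i hi => (CR_wf hA.1 hi).1
      nB := fun i hi => (CR_wf hB.1 hi).1
      nE1 := hF1.2.1
      nE2 := hF2.2.1
      wA := fun i hi => (CR_wf hA.1 hi).2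
      wB := fun i hi => (CR_wf hB.1 hi).2
      wE1 := hF1.1
      wE2 := hF2.1
      wG := g1.1
      A := fun k hk => CR_LC hA.1 hk
      B := fun k hk => CR_LC hB.1 hk
      a1 := hF1.2.2
      a2 := hF2.2.2
      H := H_row hL2
      hm := fun i _ => hH_le q.K R i
      dA := fun i hi k => by
        show _ ≤ (((Nat.pow 2 (Nat.add q.s 7) : ℕ)) : ℤ) ∧ _ ≤ (((Nat.pow 2 (Nat.add q.s 7) : ℕ)) : ℤ)
        rw [eD]
        exact DB_d hA.1 hA.2 (by positivity) hi k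
      dB := fun i hi k => by
        show _ ≤ (((Nat.pow 2 (Nat.add q.s 7) : ℕ)) : ℤ) ∧ _ ≤ (((Nat.pow 2 (Nat.add q.s 7) : ℕ)) : ℤ)
        rw [eD]
        exact DB_d hB.1 hB.2 (by positivity) hi k
      dE1 := fun k => leD_sound r1 (bif_and dE0).1 k
      dE2 := fun k => leD_sound r1 (bif_and dE0).2 k
      kX := fun k _ => kx k
      kY := fun k _ => ky k
      kZ := fun k _ => kz k
      dX := dx
      dY := dy
      dZ := dz
      G := fun k => by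
        have h1 := Gf_gG (h := h) (len := len) (s0 := s0) oG m1 ok k
        show ‖((((1000000000000000000000 : ℕ) : ℝ)) : ℂ) * Gf (cd R h len s0) k
          - ci (dR q.bK (gG R q.bK) k) (dI q.bK (gG R q.bK) k)‖ ≤ 0
        rw [h1, cf_ci]
        have : (((1000000000000000000000 : ℕ) : ℝ) : ℂ) * (ci (dR q.bK (gG R q.bK) k) (dI q.bK (gG R q.bK) k) /
            ((1000000000000000000000 : ℕ) : ℂ)) - ci (dR q.bK (gG R q.bK) k) (dI q.bK (gG R q.bK) k) = 0 := by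
          push_cast
          field_simp
          ring
        rw [this, norm_zero]
      dG := leD_sound hr dG
      eta := by
        show ((100000 : ℕ) : ℂ) * R.par.eta = ci R.e1 R.e2
        rw [Helper70.SH.par_eta]
        unfold ci
        push_cast
        ring
      aY := by
        show ((200000 : ℕ) : ℝ) * (9 - (R.cs : ℝ) / 100000 - 1 * ((R.m : ℝ) / 100000 - (R.lam : ℝ) / 100000)) =
          (((1800000 - 2 * R.cs) - 2 * (R.m - R.lam) : ℤ) : ℝ)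
        push_cast
        ring
      aZ := by
        show ((200000 : ℕ) : ℝ) * (9 - (R.cs : ℝ) / 100000 - (3 / 2) * ((R.m : ℝ) / 100000 - (R.lam : ℝ) / 100000)) =
          (((1800000 - 2 * R.cs) - 3 * (R.m - R.lam) : ℤ) : ℝ)
        push_cast
        ring
      num := num }

end

/-! ### the rows -/

section

variable {R : Rec} {C : Crt} {h : R.ok C = true} {K0 : ℕ} {len : Len R K0} {s0 : ℕ} {b s R3 N W K L K' M e : ℕ}
  {T : ℕ → FP}

theorem eta_D : (cd R h len s0).P.eta = ((R.e1 : ℂ) + R.e2 * Complex.I) / ((100000 : ℕ) : ℂ) := by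
  show R.par.eta = _
  rw [Helper70.SH.par_eta]
  push_cast
  ring

/-- the rows of `gA` for a record -/
theorem rowA_CR (hK : ¬ Even K) (hL : Even L) (hK' : K ≤ K') (hL' : L ≤ K') (hM : K' ≤ M) (hW : W = K' + 3)
    (hN : K' + 2 ≤ N) (he : R.e1.natAbs + R.e2.natAbs ≤ 100000)
    (hT : TabH b s N W e T (kaA ((R.d : ℝ) / 100000) ((R.k : ℝ) / 100000) R.cb.ph))
    (hR : Helper85.NS.okR3 s R3 = true) :
    CR b s (nt K L) N (fun v n => gA (cd R h len s0) M (pV K L v) (rV K L v) (sV K v) n)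
      (rowN false b s R3 N W K L 100000 R.e1 R.e2 T) (24 * e + 62) ∧
      Helper85.NS.DB b (nt K L) N (2 ^ (s + 7)) (rowN false b s R3 N W K L 100000 R.e1 R.e2 T) :=
  gA_CR (c := cd R h len s0) hK hL hK' hL' hM hW hN (by norm_num) he eta_D rfl hT hR

/-- the rows of `gB` for a record -/
theorem rowB_CR (hK : ¬ Even K) (hL : Even L) (hK' : K ≤ K') (hL' : L ≤ K') (hM : K' ≤ M) (hW : W = K' + 3)
    (hN : K' + 2 ≤ N) (he : R.e1.natAbs + R.e2.natAbs ≤ 100000)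
    (hT : TabH b s N W e T (kaB ((R.d : ℝ) / 100000) ((R.k : ℝ) / 100000) R.cb.ph))
    (hR : Helper85.NS.okR3 s R3 = true) :
    CR b s (nt K L) N (fun v n => gB (cd R h len s0) M (pV K L v) (rV K L v) (sV K v) n)
      (rowN true b s R3 N W K L 100000 R.e1 R.e2 T) (24 * e + 62) ∧
      Helper85.NS.DB b (nt K L) N (2 ^ (s + 7)) (rowN true b s R3 N W K L 100000 R.e1 R.e2 T) :=
  gB_CR (c := cd R h len s0) hK hL hK' hL' hM hW hN (by norm_num) he eta_D rfl hT hR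

end

/-! ### suppliers -/

section

variable {R : Rec} {C : Crt} {h : R.ok C = true} {K0 : ℕ} {len : Len R K0} {s0 : ℕ}

/-- `E1` from a table of `D1` -/
theorem FOk_E1 {b s g N e : ℕ} {ps : List PF} (hps : Pool.Agent.Helper51.SH.Tab b s 1000 R.D1 ps)
    (hc : Pool.Agent.Helper51.SH.okE12 b s g 1000 N 1 e R.D1 ps = true) :
    FOk b s N e (E1 (cd R h len s0)) (Pool.Agent.Helper51.SH.zE b s g 1000 N 1 R.D1 ps) := by
  obtain ⟨w1, w2, -⟩ := Pool.Agent.Helper51.SH.EV_CA hps hc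
  exact ⟨w1, w2, fun k hk => Pool.Agent.Helper51.SH.E1_CA (c := cd R h len s0) rfl rfl hps hc k hk⟩

/-- `E2` from a table of `D2` -/
theorem FOk_E2 {b s g N e : ℕ} {ps : List PF} (hps : Pool.Agent.Helper51.SH.Tab b s 1000 R.D2 ps)
    (hc : Pool.Agent.Helper51.SH.okE12 b s g 1000 N 2 e R.D2 ps = true) :
    FOk b s N e (E2 (cd R h len s0)) (Pool.Agent.Helper51.SH.zE b s g 1000 N 2 R.D2 ps) := by
  obtain ⟨w1, w2, -⟩ := Pool.Agent.Helper51.SH.EV_CA hps hc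
  exact ⟨w1, w2, fun k hk => Pool.Agent.Helper51.SH.E2_CA (c := cd R h len s0) rfl rfl hps hc k hk⟩

/-- the constants -/
theorem KOk_of {p : KP} {U1 U2 D1 D2 pS pP pR : PF} (ok : (cd R h len s0).OK) {M : ℕ} (hM : K0 ≤ M)
    (a1 : AP p.b p.s U1 R.par.u1) (a2 : AP p.b p.s U2 R.par.u2) (b1 : AP p.b p.s D1 (Helper87.SH.dP s0 R.f1))
    (b2 : AP p.b p.s D2 (Helper87.SH.dP s0 R.f2)) (c1 : AP p.b p.s pS (Helper30.SH.fS R.par))
    (c2 : AP p.b p.s pP (Helper30.SH.fP R.par)) (c3 : AP p.b p.s pR (Helper30.SH.fR R.par))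
    (k : okK p R U1 U2 D1 D2 pS pP pR = true) :
    KOk p.b p.s (cX (cd R h len s0) M) (kX p R U1 U2 D1 D2 pS) ∧ KOk p.b p.s (cY (cd R h len s0)) (kY p R U1 U2 D1 D2 pP) ∧
      KOk p.b p.s (cZ (cd R h len s0)) (kZ p R U1 U2 D1 D2 pR) := by
  obtain ⟨k1, k2, k3⟩ := k_CA ok a1 a2 b1 b2 c1 c2 c3 k
  obtain ⟨w1, w2, w3⟩ := kK_sound ok a1 a2 b1 b2 c1 c2 c3 k
  exact ⟨⟨w1.1, fun n => k1 M hM n⟩, ⟨w2.1, k2⟩, ⟨w3.1, k3⟩⟩

end

end Helper87.SH
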