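import Pool.Agent.Helper87.SH.ColRec
import Pool.Agent.Helper64.SH.UR

/-!
# Project RC, SHARP, cell engine: the inputs of the collar block of a cell, one check

`CC`: the data (parameters `q` of the block, `p` of the constants, the linear rows `z` at the scale of the tables, `a` the
difference of the scales of `z` and of the fields, `g` near `2 ^ s √3 / 2`, powers `P1, P2` of the alignments).
`CC.I`: the inputs of helper19's block. `CC.ok`: the check. `CC.I_ok`: the inputs are correct.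
-/

set_option autoImplicit false

namespace Helper87.SH

open Helper95.SH Helper95.RC
open Helper49.LT hiding sg
open Helper49.Cell
open Helper54.RC.Fast hiding ps
open Helper70.SH (cd Len okM okM_iff LocH CrtD cd_ok)
open Helper85.NS (CR DB)
open Helper30.SH (ZD)
open Pool.Agent.Helper64.SH (okU UR)
open Pool.Agent.Helper19.SH
open Pool.Agent.Helper51.SH (Tab okE12 zE)

/-- the data of the collar block -/
structure CC where
  q : CQ
  p : KP
  z : ZD
  a : ℕ
  g : ℕ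
  eT1 : ℕ
  eT2 : ℕ
  P1 : List PF
  P2 : List PF

namespace CC

variable (c : CC) (R : Rec) (zA zB : ℕ → FP)

/-- the fields of the second multiplier at the scale of the tables -/
def D1 : PF := ⟨smF c.p.b (Nat.pow 2 c.a) (ofP c.p.b R.f1), 0⟩
def D2 : PF := ⟨smF c.p.b (Nat.pow 2 c.a) (ofP c.p.b R.f2), 0⟩
/-- the constants -/
def X : PF := kX c.p R c.z.U1 c.z.U2 (c.D1 R) (c.D2 R) c.z.rS
def Y : PF := kY c.p R c.z.U1 c.z.U2 (c.D1 R) (c.D2 R) c.z.rP
def Z : PF := kZ c.p R c.z.U1 c.z.U2 (c.D1 R) (c.D2 R) c.z.rR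
/-- `E1`, `E2` at the scale and base of the tables -/
def Z1 : FP := zE c.p.b c.p.s c.g 1000 c.q.N 1 R.D1 c.P1
def Z2 : FP := zE c.p.b c.p.s c.g 1000 c.q.N 2 R.D2 c.P2
/-- `E1`, `E2` at the scale and base of the rows -/
def F1 : FP := cvF c.p.b c.q.b (Nat.sub c.p.s c.q.s) (c.Z1 R)
def F2 : FP := cvF c.p.b c.q.b (Nat.sub c.p.s c.q.s) (c.Z2 R)

/-- **the inputs** -/
def I : CIn := cin c.q R zA zB (c.F1 R) (c.F2 R) (c.X R).z (c.Y R).z (c.Z R).z

/-- numbers -/
def ok1 (s0 ue : ℕ) : Bool :=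
  bif Nat.beq c.p.s (Nat.add s0 c.a) then
  bif Nat.beq c.z.s c.p.s then
  bif Nat.beq c.z.b c.p.b then
  bif Nat.beq c.z.U1.er ue then
  bif Nat.beq c.z.U2.er ue then
  bif decide (c.z.e1 = R.e1) then
  bif decide (c.z.e2 = R.e2) then
  bif Nat.beq c.z.D 100000 then
  bif decide ((c.z.la : ℤ) = 100000 - R.lam) then
  bif Nat.beq c.q.bK c.p.b then
  bif Nat.beq c.q.sK c.p.s then
    Nat.ble c.q.s c.p.s
  else false else false else false else false else false else false else false else false else false else false else false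

/-- fields and constants -/
def ok2 : Bool :=
  bif okA c.p.b R.f1 then
  bif okA c.p.b R.f2 then
  bif Nat.ble c.p.r (Nat.succ c.p.b) then
  bif oks c.p.b c.p.r (2 ^ c.a) (ofP c.p.b R.f1) then
  bif oks c.p.b c.p.r (2 ^ c.a) (ofP c.p.b R.f2) then
  bif okK c.p R c.z.U1 c.z.U2 (c.D1 R) (c.D2 R) c.z.rS c.z.rP c.z.rR then
    okDK c.q (c.X R) (c.Y R) (c.Z R)
  else false else false else false else false else false else false

/-- `E1, E2` -/
def ok3 : Bool :=
  bif okE12 c.p.b c.p.s c.g 1000 c.q.N 1 c.eT1 R.D1 c.P1 then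
  bif okE12 c.p.b c.p.s c.g 1000 c.q.N 2 c.eT2 R.D2 c.P2 then
  bif okcv c.p.b c.q.b (Nat.sub c.p.s c.q.s) (c.Z1 R) then
  bif okcv c.p.b c.q.b (Nat.sub c.p.s c.q.s) (c.Z2 R) then
  bif Nat.ble (Nat.add (Nat.div c.eT1 (Nat.pow 2 (Nat.sub c.p.s c.q.s))) 3) c.q.eE then
  bif Nat.ble (Nat.add (Nat.div c.eT2 (Nat.pow 2 (Nat.sub c.p.s c.q.s))) 3) c.q.eE then
    okDE c.q (c.F1 R) (c.F2 R)
  else false else false else false else false else false else false

/-- **THE CHECK**: `M` = window of the functions, `s0` scale of the fields, `ue` error of the unit fields -/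
def ok (K0 M s0 ue : ℕ) : Bool :=
  bif okQ0 c.q K0 M then
  bif c.ok1 R s0 ue then
  bif c.ok2 R then
  bif c.ok3 R then
  bif okDG c.q R then
    (c.I R zA zB).okN
  else false else false else false else false else false

end CC

section

variable {R : Rec} {C : Crt} (h : R.ok C = true) {K0 : ℕ} (len : Len R K0) {D : CrtD} {c : CC} {zA zB : ℕ → FP}
  {ue r uQ uh M : ℕ}

/-- **THE INPUTS ARE CORRECT** -/
theorem CC.I_ok (hm : okM R D = true) (H0 : LocH)
    (hu : okU c.z.b r c.z.s uQ uh ue R.z c.z.U1.z c.z.U2.z = true) (hQ : 0 < uQ) (hz : c.z.ok = true)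
    (t1 : Tab c.p.b c.p.s 1000 R.D1 c.P1) (t2 : Tab c.p.b c.p.s 1000 R.D2 c.P2)
    (hA : CR c.q.b c.q.s (nt c.q.K c.q.L) c.q.N
      (fun v n => gA (cd R h len D.s) M (pV c.q.K c.q.L v) (rV c.q.K c.q.L v) (sV c.q.K v) n) zA c.q.e ∧
      DB c.q.b (nt c.q.K c.q.L) c.q.N (2 ^ (c.q.s + 7)) zA)
    (hB : CR c.q.b c.q.s (nt c.q.K c.q.L) c.q.N
      (fun v n => gB (cd R h len D.s) M (pV c.q.K c.q.L v) (rV c.q.K c.q.L v) (sV c.q.K v) n) zB c.q.e ∧
      DB c.q.b (nt c.q.K c.q.L) c.q.N (2 ^ (c.q.s + 7)) zB)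
    (ok : c.ok R zA zB K0 M D.s ue = true) : (c.I R zA zB).Ok (cd R h len D.s) M := by
  unfold CC.ok at ok
  simp only [bif_iff] at ok
  obtain ⟨o0, o1, o2, o3, o4, o5⟩ := ok
  unfold CC.ok1 at o1
  simp only [bif_iff] at o1
  obtain ⟨n1, n2, n3, n4, n5, n6, n7, n8, n9, n10, n11, n12⟩ := o1
  have hs : c.p.s = D.s + c.a := Nat.eq_of_beq_eq_true n1
  have hzs : c.z.s = c.p.s := Nat.eq_of_beq_eq_true n2
  have hzb : c.z.b = c.p.b := Nat.eq_of_beq_eq_true n3
  have hU1 : c.z.U1.er = ue := Nat.eq_of_beq_eq_true n4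
  have hU2 : c.z.U2.er = ue := Nat.eq_of_beq_eq_true n5
  have he1 : c.z.e1 = R.e1 := of_decide_eq_true n6
  have he2 : c.z.e2 = R.e2 := of_decide_eq_true n7
  have hD : c.z.D = 100000 := Nat.eq_of_beq_eq_true n8
  have hla : (c.z.la : ℤ) = 100000 - R.lam := of_decide_eq_true n9
  have hbK : c.q.bK = c.p.b := Nat.eq_of_beq_eq_true n10
  have hsK : c.q.sK = c.p.s := Nat.eq_of_beq_eq_true n11
  have hqs : c.q.s ≤ c.p.s := Nat.le_of_ble_eq_true n12
  have kk := cd_ok h len hm H0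
  have hreg : R.par.Reg := kk.st.reg
  have m1 : 0 ≤ R.mu1 := (okM_iff.1 hm).1
  obtain ⟨u1, u2⟩ := UR h hQ hu
  have w1 : AP c.z.b c.z.s c.z.U1 R.par.u1 := by
    have e : c.z.U1 = ⟨c.z.U1.z, ue⟩ := by rw [← hU1]
    rw [e]
    exact u1
  have w2 : AP c.z.b c.z.s c.z.U2 R.par.u2 := by
    have e : c.z.U2 = ⟨c.z.U2.z, ue⟩ := by rw [← hU2]
    rw [e]
    exact u2
  have heta : R.par.eta = ((c.z.e1 : ℂ) + Complex.I * c.z.e2) / c.z.D := by
    rw [Helper70.SH.par_eta, he1, he2, hD]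
    push_cast
    rfl
  have hlam : 1 - R.par.lam = (c.z.la : ℝ) / c.z.D := by
    have h1 : (c.z.la : ℝ) = 100000 - R.lam := by exact_mod_cast hla
    rw [Helper70.SH.par_lam, hD, h1]
    push_cast
    ring
  obtain ⟨g1, g2, g3, -⟩ := Helper30.SH.rows_sound c.z hreg heta hlam w1 w2 hz
  rw [hzb, hzs] at g1 g2 g3 w1 w2
  unfold CC.ok2 at o2
  simp only [bif_iff] at o2
  obtain ⟨a1, a2, a3, a4, a5, a6, a7⟩ := o2
  have hr : c.p.r ≤ c.p.b + 1 := Nat.le_of_ble_eq_true a3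
  have f1 : AP c.p.b c.p.s (c.D1 R) (dP D.s R.f1) := by
    rw [hs]
    exact okA_ap2 a1 c.a hr a4
  have f2 : AP c.p.b c.p.s (c.D2 R) (dP D.s R.f2) := by
    rw [hs]
    exact okA_ap2 a2 c.a hr a5
  have hK0 : K0 ≤ M := by
    have h1 := o0
    unfold okQ0 at h1
    simp only [Bool.and_eq_true] at h1
    exact Nat.le_of_ble_eq_true h1.1.1.2
  obtain ⟨kx, ky, kz⟩ := KOk_of (h := h) (len := len) (s0 := D.s) kk hK0 w1 w2 f1 f2 g1 g2 g3 a6
  have hg : okg R c.p.b c.p.r = true := by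
    have h1 := a6
    unfold okK at h1
    simp only [bif_iff] at h1
    exact h1.2.2.1
  unfold CC.ok3 at o3
  simp only [bif_iff] at o3
  obtain ⟨b1, b2, b3, b4, b5, b6, b7⟩ := o3
  have e : c.p.s - Nat.sub c.p.s c.q.s = c.q.s := by
    show c.p.s - (c.p.s - c.q.s) = c.q.s
    omega
  have x1 := (FOk_E1 (h := h) (len := len) (s0 := D.s) t1 b1).cv b3 (Nat.sub_le _ _) b5
  have x2 := (FOk_E2 (h := h) (len := len) (s0 := D.s) t2 b2).cv b4 (Nat.sub_le _ _) b6
  rw [e] at x1 x2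
  exact cin_ok (q := c.q) (R := R) (h := h) (len := len) (s0 := D.s) (M := M) (zA := zA) (zB := zB) (F1 := c.F1 R)
    (F2 := c.F2 R) (X := c.X R) (Y := c.Y R) (Z := c.Z R) (rg := c.p.r) kk m1 o0 hA hB x1 x2 b7
    (by rw [hbK, hsK]; exact kx) (by rw [hbK, hsK]; exact ky) (by rw [hbK, hsK]; exact kz) a7
    (by rw [hbK]; exact hg) o4 o5

end

end Helper87.SH
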