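import Pool.Agent.Helper54.RC.Fast4
import Pool.Agent.Helper95.SH.PassI

/-!
# Project RC, SHARP, cell engine (O4): unit fields for the multiplier as trigonometric polynomials

`okD b r s v q = true` (one kernel check, integer data) gives `‖V b v t / 2 ^ s‖ ≤ 1` for all `t`: the polynomial `q` is
a sum of squares certificate, `|v|² + |q|² ≤ 4 ^ s` by the `ℓ¹` norm of the coefficients. `fc_dF`: the coefficients.
`zrE`: the even coefficients with `L < |n|` vanish.
-/

open MeasureTheory Set Filter Topology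

namespace Helper87.SH

open Helper49.LT hiding sg
open Helper54.RC.Fast
open Helper87.RC (BM fc_eq fc_add fc_cmul)
open Helper56.RC (fc)

/-! ## The certificate -/

/-- `|v|² + |q|²` -/
def sqF (b : ℕ) (v q : FP) : FP := addF b (mulF b v (cjF b v)) (mulF b q (cjF b q))

def okD2 (b r s : ℕ) (v q : FP) : Bool :=
  bif okm b r v (cjF b v) then
  bif okm b r q (cjF b q) then
  bif oka b r (mulF b v (cjF b v)) (mulF b q (cjF b q)) then
    Nat.ble (nrF b r (sqF b v q)) (Nat.pow 2 (Nat.add s s))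
  else false else false else false

/-- THE CHECK -/
def okD (b r s : ℕ) (v q : FP) : Bool :=
  bif Nat.ble r (Nat.succ b) then bif wf b v then bif wf b q then bif okn b r v then bif okn b r q then
    okD2 b r s v q
  else false else false else false else false else false

theorem bift {a c : Bool} : (bif a then c else false) = true ↔ a = true ∧ c = true := by
  cases a <;> simp

theorem okD_norm {b r s : ℕ} {v q : FP} (h : okD b r s v q = true) (t : ℝ) : ‖V b v t‖ ≤ 2 ^ s := by
  unfold okD okD2 at h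
  simp only [bift] at h
  obtain ⟨hr, wv, wq, ov, oq, m1, m2, a1, h1⟩ := h
  have hr : r ≤ b + 1 := Nat.le_of_ble_eq_true hr
  obtain ⟨wc, cv⟩ := cjF_sound b r hr v ov
  obtain ⟨wd, cq⟩ := cjF_sound b r hr q oq
  obtain ⟨w1, v1⟩ := mulF_sound b r hr v (cjF b v) wv wc m1
  obtain ⟨w2, v2⟩ := mulF_sound b r hr q (cjF b q) wq wd m2
  obtain ⟨w3, v3⟩ := addF_sound b r hr _ _ w1 w2 a1
  have n1 := norm_V_le b r hr (sqF b v q) t
  have h2 : nrF b r (sqF b v q) ≤ 2 ^ (s + s) := Nat.le_of_ble_eq_true h1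
  have e1 : V b (sqF b v q) t = ((‖V b v t‖ ^ 2 + ‖V b q t‖ ^ 2 : ℝ) : ℂ) := by
    show V b (addF b (mulF b v (cjF b v)) (mulF b q (cjF b q))) t = _
    rw [v3, v1, v2, cv, cq, Complex.mul_conj, Complex.mul_conj, Complex.normSq_eq_norm_sq, Complex.normSq_eq_norm_sq]
    push_cast
    ring
  rw [e1, Complex.norm_real, Real.norm_eq_abs, abs_of_nonneg (by positivity)] at n1
  have h3 : ((nrF b r (sqF b v q) : ℕ) : ℝ) ≤ 2 ^ (s + s) := by exact_mod_cast h2
  have h4 : ‖V b v t‖ ^ 2 ≤ (2 ^ s) ^ 2 := by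
    have e2 : ((2 : ℝ) ^ s) ^ 2 = 2 ^ (s + s) := by rw [sq, ← pow_add]
    rw [e2]
    have := sq_nonneg ‖V b q t‖
    linarith
  exact (pow_le_pow_iff_left₀ (norm_nonneg _) (by positivity) two_ne_zero).1 h4

/-! ## The field -/

/-- the field -/
noncomputable def dF (b s : ℕ) (v : FP) (t : ℝ) : ℂ := (1 / 2 ^ s : ℂ) * V b v t

theorem cont_V (b : ℕ) (z : FP) : Continuous (V b z) := by
  have e : V b z = fun t => ∑ k ∈ Finset.range (len z.N), cc b z k * ee (((k : ℝ) - z.N) * t) := by
    funext t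
    exact V_eq_sum b z t
  rw [e]
  exact continuous_finsetSum _ fun k _ => continuous_const.mul (continuous_ee.comp (continuous_const.mul continuous_id))

theorem dF_bm {b r s : ℕ} {v q : FP} (h : okD b r s v q = true) : BM (dF b s v) 1 := by
  refine ⟨(continuous_const.mul (cont_V b v)).measurable, fun t => ?_⟩
  unfold dF
  rw [norm_mul, norm_div, norm_one, norm_pow]
  have h2 : ‖(2 : ℂ)‖ = 2 := by simp
  rw [h2]
  have h1 := okD_norm h t
  have h3 : (0 : ℝ) < 2 ^ s := by positivity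
  rw [one_div, inv_mul_le_iff₀ h3, mul_one]
  exact h1

/-- the integer coefficient of the frequency `n`, times `2 ^ s` -/
noncomputable def cz (b : ℕ) (v : FP) (n : ℤ) : ℂ :=
  if n ∈ Finset.Icc (-(v.N : ℤ)) v.N then cc b v (n + v.N).toNat else 0

theorem fc_fsum (S : Finset ℕ) (f : ℕ → ℝ → ℂ) (C : ℕ → ℝ) (h : ∀ k, BM (f k) (C k)) (n : ℤ) :
    (∃ D, BM (fun t => ∑ k ∈ S, f k t) D) ∧ fc (fun t => ∑ k ∈ S, f k t) n = ∑ k ∈ S, fc (f k) n := by
  induction S using Finset.induction_on with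
  | empty =>
    refine ⟨⟨0, by simp only [Finset.sum_empty]; exact measurable_const, fun t => by simp⟩, ?_⟩
    simp only [Finset.sum_empty]
    rw [fc_eq]
    simp
  | insert a S ha ih =>
    obtain ⟨⟨D, hD⟩, h2⟩ := ih
    have e : (fun t => ∑ k ∈ insert a S, f k t) = fun t => f a t + ∑ k ∈ S, f k t := by
      funext t
      rw [Finset.sum_insert ha]
    rw [e, Finset.sum_insert ha, fc_add (h a) hD, h2]
    exact ⟨⟨_, (h a).add hD⟩, rfl⟩

theorem fc_V (b : ℕ) (v : FP) (n : ℤ) : fc (V b v) n = cz b v n := by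
  have e : V b v = fun t => ∑ k ∈ Finset.range (len v.N), cc b v k * ee (((k : ℝ) - v.N) * t) := by
    funext t
    exact V_eq_sum b v t
  have hk : ∀ k : ℕ, BM (fun t => cc b v k * ee (((k : ℝ) - v.N) * t)) (‖cc b v k‖ * 1) := fun k =>
    (BM.eec _).cmul _
  rw [e, (fc_fsum (Finset.range (len v.N)) (fun k t => cc b v k * ee (((k : ℝ) - v.N) * t)) _ hk n).2]
  have e1 : ∀ k : ℕ, fc (fun t => cc b v k * ee (((k : ℝ) - v.N) * t)) n =
      if (k : ℤ) = n + v.N then cc b v k else 0 := by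
    intro k
    rw [fc_cmul]
    have e2 : (fun t : ℝ => ee (((k : ℝ) - v.N) * t)) = fun t : ℝ => ee ((((k : ℤ) - (v.N : ℤ) : ℤ) : ℝ) * t) := by
      funext t
      push_cast
      rfl
    rw [e2, Helper95.RC.fc_ee]
    by_cases hn : (k : ℤ) = n + v.N
    · rw [if_pos hn, if_pos (by omega), mul_one]
    · rw [if_neg hn, if_neg (by omega), mul_zero]
  rw [Finset.sum_congr rfl fun k _ => e1 k]
  unfold cz
  by_cases hn : n ∈ Finset.Icc (-(v.N : ℤ)) v.N
  · rw [if_pos hn]
    rw [Finset.mem_Icc] at hn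
    rw [Finset.sum_eq_single (n + v.N).toNat]
    · rw [if_pos]
      exact Int.toNat_of_nonneg (by omega)
    · intro k _ hk
      rw [if_neg]
      intro h
      apply hk
      omega
    · intro h
      exfalso
      apply h
      rw [Finset.mem_range, len_eq]
      omega
  · rw [if_neg hn]
    rw [Finset.mem_Icc] at hn
    refine Finset.sum_eq_zero fun k hk => ?_
    rw [Finset.mem_range, len_eq] at hk
    rw [if_neg]
    omega

theorem fc_dF (b s : ℕ) (v : FP) (n : ℤ) : fc (dF b s v) n = (1 / 2 ^ s : ℂ) * cz b v n := by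
  unfold dF
  rw [fc_cmul, fc_V]

/-! ## Vanishing coefficients -/

/-- the digit `k` is zero in both components -/
def zrK (b : ℕ) (v : FP) (k : ℕ) : Bool :=
  bif Nat.beq (dg b k v.x) (Nat.pow 2 b) then Nat.beq (dg b k v.y) (Nat.pow 2 b) else false

/-- the digits `k, k + 2, ..., k + 2 (m - 1)` are zero -/
def zrL (b : ℕ) (v : FP) : ℕ → ℕ → Bool
  | 0, _ => true
  | m + 1, k => bif zrK b v k then zrL b v m (Nat.add k 2) else false

/-- `v.N` is odd, `L` even: the even frequencies beyond `L` have zero coefficients -/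
def zrE (b L : ℕ) (v : FP) : Bool :=
  bif Nat.beq (Nat.mod v.N 2) 1 then bif Nat.beq (Nat.mod L 2) 0 then bif Nat.ble L v.N then
    bif zrL b v (Nat.div (Nat.sub (Nat.sub v.N 1) L) 2) 1 then
      zrL b v (Nat.div (Nat.sub (Nat.sub v.N 1) L) 2) (Nat.add (Nat.add v.N L) 2)
    else false
  else false else false else false

theorem zrK_sound {b : ℕ} {v : FP} {k : ℕ} (h : zrK b v k = true) : cc b v k = 0 := by
  unfold zrK at h
  simp only [bift] at h
  have h1 : dg b k v.x = 2 ^ b := Nat.eq_of_beq_eq_true h.1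
  have h2 : dg b k v.y = 2 ^ b := Nat.eq_of_beq_eq_true h.2
  unfold Helper54.RC.Fast.cc
  rw [h1, h2]
  push_cast
  ring

theorem zrL_sound {b : ℕ} {v : FP} (m : ℕ) : ∀ k, zrL b v m k = true → ∀ j, j < m → cc b v (k + 2 * j) = 0 := by
  induction m with
  | zero => intro k _ j hj; omega
  | succ m ih =>
    intro k h j hj
    unfold zrL at h
    simp only [bift] at h
    cases j with
    | zero => exact zrK_sound h.1
    | succ j =>
      have := ih (k + 2) h.2 j (by omega)
      have e : k + 2 * (j + 1) = k + 2 + 2 * j := by ring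
      rw [e]
      exact this

theorem zrE_sound {b L : ℕ} {v : FP} (h : zrE b L v = true) (n : ℤ) (hn : Even n) (hL : (L : ℤ) < |n|) :
    cz b v n = 0 := by
  unfold zrE at h
  simp only [bift] at h
  obtain ⟨h1, h2, h3, h4, h5⟩ := h
  have h1 : v.N % 2 = 1 := Nat.eq_of_beq_eq_true h1
  have h2 : L % 2 = 0 := Nat.eq_of_beq_eq_true h2
  have h3 : L ≤ v.N := Nat.le_of_ble_eq_true h3
  have h4 := zrL_sound _ _ h4
  have h5 := zrL_sound _ _ h5
  have e0 : Nat.div (Nat.sub (Nat.sub v.N 1) L) 2 = (v.N - 1 - L) / 2 := rfl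
  have e5 : Nat.add (Nat.add v.N L) 2 = v.N + L + 2 := rfl
  rw [e0] at h4 h5
  rw [e5] at h5
  unfold cz
  by_cases hm : n ∈ Finset.Icc (-(v.N : ℤ)) v.N
  · rw [if_pos hm]
    rw [Finset.mem_Icc] at hm
    obtain ⟨m, hm2⟩ := hn
    rcases le_or_gt 0 n with hs | hs
    · rw [abs_of_nonneg hs] at hL
      have e : (n + v.N).toNat = v.N + L + 2 + 2 * ((n.toNat - L - 2) / 2) := by omega
      rw [e]
      exact h5 _ (by omega)
    · rw [abs_of_neg hs] at hL
      have e : (n + v.N).toNat = 1 + 2 * (((n + v.N).toNat - 1) / 2) := by omega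
      rw [e]
      exact h4 _ (by omega)
  · rw [if_neg hm]

end Helper87.SH
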