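import Pool.Agent.Helper87.SH.UF
import Pool.Agent.Helper95.SH.Cell

/-!
# Project RC, SHARP, cell engine (O4): the row of the linear part of `NrA`

`NrX K L d1 d2 v` = the linear part of `NrA d1 d2` at the head arrays of the coordinates `v`;
`nrR_LR` : integer row `nrR` at the scale `2 ^ (s + 2 + h)` with the error `16 2 ^ s + 1` for the polynomial fields.
-/

open MeasureTheory Set Filter Topology

namespace Helper87.SH

open Helper49.LT hiding sg cc
open Helper49.RC (om)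
open Helper95.RC
open Helper54.RC.Fast
open Helper87.RC (BM fc_eq fc_add fc_cmul)
open Helper56.RC (fc)
open Helper95.SH

/-! ## Sums -/

theorem sum_Icc_sh (K : ℕ) (F : ℤ → ℝ) : ∑ n ∈ Finset.Icc (-(K : ℤ)) K, F n =
    ∑ m ∈ Finset.range (2 * K + 1), F (m - K) := by
  refine (Finset.sum_bij (fun (m : ℕ) _ => (m : ℤ) - K) ?_ ?_ ?_ ?_).symm
  · intro m hm
    rw [Finset.mem_range] at hm
    rw [Finset.mem_Icc]
    omega
  · intro a _ c _ h
    beta_reduce at h
    omega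
  · intro n hn
    rw [Finset.mem_Icc] at hn
    exact ⟨(n + K).toNat, by rw [Finset.mem_range]; omega, by beta_reduce; omega⟩
  · intro m _
    rfl

theorem sum_even_odd (m : ℕ) (G : ℕ → ℝ) : ∑ j ∈ Finset.range (2 * m), G j =
    ∑ a ∈ Finset.range m, (G (2 * a) + G (2 * a + 1)) := by
  induction m with
  | zero => simp
  | succ m ih =>
    have e : 2 * (m + 1) = 2 * m + 1 + 1 := by ring
    rw [e, Finset.sum_range_succ, Finset.sum_range_succ, ih, Finset.sum_range_succ]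
    ring

theorem sum_odd {K : ℕ} (hK : ¬ Even K) (F : ℤ → ℝ) (hF : ∀ n, Even n → F n = 0) :
    ∑ n ∈ Finset.Icc (-(K : ℤ)) K, F n = ∑ a ∈ Finset.range (K + 1), F (2 * a - K) := by
  obtain ⟨c, hc⟩ := Nat.not_even_iff_odd.1 hK
  rw [sum_Icc_sh, Finset.sum_range_succ, sum_even_odd, Finset.sum_range_succ]
  congr 1
  · refine Finset.sum_congr rfl fun a _ => ?_
    have h : F (((2 * a + 1 : ℕ) : ℤ) - K) = 0 := by
      apply hF
      refine ⟨(a : ℤ) - c, ?_⟩
      push_cast [hc]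
      ring
    rw [h, add_zero]
    congr 1

/-- coefficients of the `s` part -/
noncomputable def sCo (K : ℕ) (c : ℤ → ℂ) (j : ℕ) : ℝ :=
  if j % 2 = 0 then (c ((j : ℤ) - K)).re else (c (((j - 1 : ℕ) : ℤ) - K)).im

theorem sum_s {K : ℕ} (hK : ¬ Even K) (v : ℕ → ℝ) (c : ℤ → ℂ) :
    ∑ n ∈ Finset.Icc (-(K : ℤ)) K, (sV K v n * (starRingEnd ℂ) (c n)).re =
      ∑ j ∈ Finset.range (2 * (K + 1)), sCo K c j * v (1 + j) := by
  rw [sum_odd hK (fun n => (sV K v n * (starRingEnd ℂ) (c n)).re) (fun n hn => by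
    beta_reduce
    rw [sV_even K v n hn, zero_mul, Complex.zero_re]), sum_even_odd]
  refine Finset.sum_congr rfl fun a ha => ?_
  rw [Finset.mem_range] at ha
  obtain ⟨c', hc⟩ := Nat.not_even_iff_odd.1 hK
  have e1 : sV K v (2 * a - K) = (v (1 + 2 * a) : ℂ) + Complex.I * (v (1 + (2 * a + 1)) : ℂ) := by
    unfold sV
    rw [if_neg]
    · have e2 : ((2 * a - K : ℤ) + K).toNat = 2 * a := by omega
      have e3 : 2 + 2 * a = 1 + (2 * a + 1) := by ring
      rw [e2, e3]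
    · push Not
      refine ⟨?_, ?_⟩
      · rw [Int.not_even_iff_odd]
        refine ⟨(a : ℤ) - c' - 1, ?_⟩
        push_cast [hc]
        ring
      · rw [Finset.mem_Icc]
        omega
  have h1 : sCo K c (2 * a) = (c (2 * a - K)).re := by
    unfold sCo
    rw [if_pos (by omega)]
    push_cast
    rfl
  have h2 : sCo K c (2 * a + 1) = (c (2 * a - K)).im := by
    unfold sCo
    rw [if_neg (by omega), Nat.add_sub_cancel]
    push_cast
    rfl
  rw [e1, h1, h2]
  simp only [Complex.mul_re, Complex.add_re, Complex.add_im, Complex.ofReal_re, Complex.ofReal_im, Complex.I_re,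
    Complex.I_im, Complex.mul_im, Complex.conj_re, Complex.conj_im]
  ring

/-- coefficients of a hermitian part -/
noncomputable def hCo (w : ℤ → ℂ) (j : ℕ) : ℝ :=
  if j = 0 then (w 0).re else if j % 2 = 1 then (w ((j : ℤ) + 1)).re + (w (-((j : ℤ) + 1))).re
  else (w (j : ℤ)).im - (w (-(j : ℤ))).im

theorem sum_pm (K : ℕ) (F : ℤ → ℝ) : ∑ n ∈ Finset.Icc (-(K : ℤ)) K, F n =
    F 0 + ∑ j ∈ Finset.range K, (F ((j : ℤ) + 1) + F (-((j : ℤ) + 1))) := by
  induction K with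
  | zero => simp
  | succ K ih =>
    rw [Finset.sum_range_succ, ← add_assoc, ← ih]
    have e : Finset.Icc (-((K + 1 : ℕ) : ℤ)) ((K + 1 : ℕ) : ℤ) =
        insert (-((K : ℤ) + 1)) (insert ((K : ℤ) + 1) (Finset.Icc (-(K : ℤ)) K)) := by
      ext n
      simp only [Finset.mem_insert, Finset.mem_Icc]
      push_cast
      omega
    rw [e, Finset.sum_insert, Finset.sum_insert]
    · ring
    · rw [Finset.mem_Icc]; omega
    · rw [Finset.mem_insert, Finset.mem_Icc]; omega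

theorem sum_h {K L : ℕ} (hL : Even L) (h : L ≤ K) (base : ℕ) (v : ℕ → ℝ) (w : ℤ → ℂ) :
    ∑ n ∈ Finset.Icc (-(K : ℤ)) K, (hV L base v n * (starRingEnd ℂ) (w n)).re =
      ∑ j ∈ Finset.range (L + 1), hCo w j * v (base + j) := by
  have e0 : ∑ n ∈ Finset.Icc (-(K : ℤ)) K, (hV L base v n * (starRingEnd ℂ) (w n)).re =
      ∑ n ∈ Finset.Icc (-(L : ℤ)) L, (hV L base v n * (starRingEnd ℂ) (w n)).re := by
    symm
    refine Finset.sum_subset ?_ ?_
    · intro n hn
      rw [Finset.mem_Icc] at hn ⊢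
      omega
    · intro n _ hn
      rw [hV_sup L base v n hn, zero_mul, Complex.zero_re]
  rw [e0, sum_pm]
  obtain ⟨m, hm⟩ := hL
  have hm2 : L = 2 * m := by omega
  subst hm2
  have z0 : hV (2 * m) base v 0 = (v base : ℂ) := by
    unfold hV
    rw [if_neg (by push Not; exact ⟨Even.zero, by rw [Finset.mem_Icc]; omega⟩), if_pos rfl]
  rw [Finset.sum_range_succ', z0]
  have h0 : hCo w 0 = (w 0).re := by unfold hCo; rw [if_pos rfl]
  rw [h0, sum_even_odd, sum_even_odd]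
  have e3 : ((v base : ℂ) * (starRingEnd ℂ) (w 0)).re = (w 0).re * v (base + 0) := by
    simp only [Complex.mul_re, Complex.ofReal_re, Complex.ofReal_im, Complex.conj_re, Nat.add_zero]
    ring
  rw [e3, add_comm]
  congr 1
  refine Finset.sum_congr rfl fun a ha => ?_
  rw [Finset.mem_range] at ha
  have o1 : hV (2 * m) base v (((2 * a : ℕ) : ℤ) + 1) = 0 := hV_odd _ _ _ _ (by
    rw [Int.not_even_iff_odd]; exact ⟨a, by push_cast; ring⟩)
  have o2 : hV (2 * m) base v (-(((2 * a : ℕ) : ℤ) + 1)) = 0 := hV_odd _ _ _ _ (by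
    rw [Int.not_even_iff_odd]; exact ⟨-(a : ℤ) - 1, by push_cast; ring⟩)
  have ev : Even (((2 * a + 1 : ℕ) : ℤ) + 1) := ⟨(a : ℤ) + 1, by push_cast; ring⟩
  have e1 : hV (2 * m) base v (((2 * a + 1 : ℕ) : ℤ) + 1) =
      (v (base + (2 * a + 1)) : ℂ) + Complex.I * (v (base + (2 * a + 1 + 1)) : ℂ) := by
    unfold hV
    rw [if_neg (by push Not; exact ⟨ev, by rw [Finset.mem_Icc]; omega⟩), if_neg (by omega), if_pos (by omega)]
    have e2 : (((2 * a + 1 : ℕ) : ℤ) + 1).toNat = 2 * a + 1 + 1 := by omega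
    rw [e2]
    rfl
  have e2 : hV (2 * m) base v (-(((2 * a + 1 : ℕ) : ℤ) + 1)) =
      (v (base + (2 * a + 1)) : ℂ) - Complex.I * (v (base + (2 * a + 1 + 1)) : ℂ) := by
    rw [hV_neg, e1, map_add, map_mul, Complex.conj_I, Complex.conj_ofReal, Complex.conj_ofReal]
    ring
  have h1 : hCo w (2 * a + 1) = (w (((2 * a + 1 : ℕ) : ℤ) + 1)).re + (w (-(((2 * a + 1 : ℕ) : ℤ) + 1))).re := by
    unfold hCo
    rw [if_neg (by omega), if_pos (by omega)]
  have h2 : hCo w (2 * a + 1 + 1) = (w (((2 * a + 1 : ℕ) : ℤ) + 1)).im - (w (-(((2 * a + 1 : ℕ) : ℤ) + 1))).im := by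
    unfold hCo
    rw [if_neg (by omega), if_neg (by omega)]
    have e5 : ((2 * a + 1 + 1 : ℕ) : ℤ) = ((2 * a + 1 : ℕ) : ℤ) + 1 := by push_cast; ring
    rw [e5]
  rw [o1, o2, e1, e2, h1, h2]
  simp only [Complex.mul_re, Complex.add_re, Complex.add_im, Complex.sub_re, Complex.sub_im, Complex.ofReal_re,
    Complex.ofReal_im, Complex.I_re, Complex.I_im, Complex.mul_im, Complex.conj_re, Complex.conj_im, zero_mul,
    Complex.zero_re]
  ring

/-! ## The functional -/

/-- the linear part of `NrA` at arrays with the support in `[-M, M]` -/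
noncomputable def NrL (d1 d2 : ℝ → ℂ) (M : ℕ) (p r s : ℤ → ℂ) : ℝ :=
  (∑ n ∈ Finset.Icc (-(M : ℤ)) M, g1A p r s n * (starRingEnd ℂ) (fc d1 n)).re
  + (∑ n ∈ Finset.Icc (-(M : ℤ)) M, g2A p r s n * (starRingEnd ℂ) (fc d2 n)).re
  - 2 + (p 0).re - 1 / 5

/-- the linear part of `NrA` in the coordinates -/
noncomputable def NrX (K L : ℕ) (d1 d2 : ℝ → ℂ) (v : ℕ → ℝ) : ℝ := NrL d1 d2 K (pV K L v) (rV K L v) (sV K v)

/-- the weights: `om c1`, `om² c2`, `conj kq c1`, `kq c2` -/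
noncomputable def wP (c1 c2 : ℤ → ℂ) (n : ℤ) : ℂ := om * c1 n + om ^ 2 * c2 n
noncomputable def wR (c1 c2 : ℤ → ℂ) (n : ℤ) : ℂ := (starRingEnd ℂ) (kq 2) * c1 n + kq 2 * c2 n

/-- the real coefficients of the functional, `c1, c2` the Fourier coefficients of the fields -/
noncomputable def rho (K L : ℕ) (c1 c2 : ℤ → ℂ) (i : ℕ) : ℝ :=
  if i = 0 then (om * (starRingEnd ℂ) (c1 0) + om ^ 2 * (starRingEnd ℂ) (c2 0)).re - 11 / 5
  else if i < bp K then sCo K (fun n => c1 n - c2 n) (i - 1)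
  else if i < br K L then hCo (wP c1 c2) (i - bp K) + (if i = bp K then 1 else 0)
  else hCo (wR c1 c2) (i - br K L)

theorem sum_g1 (K L : ℕ) (v : ℕ → ℝ) (c : ℤ → ℂ) :
    (∑ n ∈ Finset.Icc (-(K : ℤ)) K, g1A (pV K L v) (rV K L v) (sV K v) n * (starRingEnd ℂ) (c n)).re =
      (om * (starRingEnd ℂ) (c 0)).re +
      ∑ n ∈ Finset.Icc (-(K : ℤ)) K, (pV K L v n * (starRingEnd ℂ) (om * c n)).re +
      ∑ n ∈ Finset.Icc (-(K : ℤ)) K, (rV K L v n * (starRingEnd ℂ) ((starRingEnd ℂ) (kq 2) * c n)).re +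
      ∑ n ∈ Finset.Icc (-(K : ℤ)) K, (sV K v n * (starRingEnd ℂ) (c n)).re := by
  have e0 : (om * (starRingEnd ℂ) (c 0)).re =
      ∑ n ∈ Finset.Icc (-(K : ℤ)) K, (om * (if n = 0 then 1 else 0) * (starRingEnd ℂ) (c n)).re := by
    rw [Finset.sum_eq_single (0 : ℤ)]
    · rw [if_pos rfl, mul_one]
    · intro n _ hn
      rw [if_neg hn, mul_zero, zero_mul, Complex.zero_re]
    · intro hn
      exfalso
      apply hn
      rw [Finset.mem_Icc]
      omega
  rw [e0, Complex.re_sum, ← Finset.sum_add_distrib, ← Finset.sum_add_distrib, ← Finset.sum_add_distrib]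
  refine Finset.sum_congr rfl fun n _ => ?_
  rw [← Complex.add_re, ← Complex.add_re, ← Complex.add_re]
  congr 1
  unfold g1A
  rw [map_mul, map_mul, Complex.conj_conj]
  ring

theorem sum_g2 (K L : ℕ) (v : ℕ → ℝ) (c : ℤ → ℂ) :
    (∑ n ∈ Finset.Icc (-(K : ℤ)) K, g2A (pV K L v) (rV K L v) (sV K v) n * (starRingEnd ℂ) (c n)).re =
      (om ^ 2 * (starRingEnd ℂ) (c 0)).re +
      ∑ n ∈ Finset.Icc (-(K : ℤ)) K, (pV K L v n * (starRingEnd ℂ) (om ^ 2 * c n)).re +
      ∑ n ∈ Finset.Icc (-(K : ℤ)) K, (rV K L v n * (starRingEnd ℂ) (kq 2 * c n)).re -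
      ∑ n ∈ Finset.Icc (-(K : ℤ)) K, (sV K v n * (starRingEnd ℂ) (c n)).re := by
  have e0 : (om ^ 2 * (starRingEnd ℂ) (c 0)).re =
      ∑ n ∈ Finset.Icc (-(K : ℤ)) K, (om ^ 2 * (if n = 0 then 1 else 0) * (starRingEnd ℂ) (c n)).re := by
    rw [Finset.sum_eq_single (0 : ℤ)]
    · rw [if_pos rfl, mul_one]
    · intro n _ hn
      rw [if_neg hn, mul_zero, zero_mul, Complex.zero_re]
    · intro hn
      exfalso
      apply hn
      rw [Finset.mem_Icc]
      omega
  rw [e0, Complex.re_sum, ← Finset.sum_add_distrib, ← Finset.sum_add_distrib, ← Finset.sum_sub_distrib]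
  refine Finset.sum_congr rfl fun n _ => ?_
  rw [← Complex.add_re, ← Complex.add_re, ← Complex.sub_re]
  congr 1
  unfold g2A
  rw [map_mul, map_mul, map_pow]
  ring

theorem NrX_sum {K L : ℕ} (hK : ¬ Even K) (hL : Even L) (h : L ≤ K) (d1 d2 : ℝ → ℂ) (v : ℕ → ℝ) (hv : v 0 = 1) :
    NrX K L d1 d2 v = ∑ i ∈ Finset.range (nt K L), rho K L (fc d1) (fc d2) i * v i := by
  set c1 := fc d1 with hc1
  set c2 := fc d2 with hc2
  have s1 := sum_s hK v (fun n => c1 n - c2 n)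
  have s2 := sum_h hL h (bp K) v (wP c1 c2)
  have s3 := sum_h hL h (br K L) v (wR c1 c2)
  have p0 : (pV K L v 0).re = v (bp K) := by
    unfold pV hV
    rw [if_neg (by push Not; exact ⟨Even.zero, by rw [Finset.mem_Icc]; omega⟩), if_pos rfl, Complex.ofReal_re]
  have e1 : NrX K L d1 d2 v = ((om * (starRingEnd ℂ) (c1 0) + om ^ 2 * (starRingEnd ℂ) (c2 0)).re - 11 / 5) +
      ∑ n ∈ Finset.Icc (-(K : ℤ)) K, (sV K v n * (starRingEnd ℂ) ((fun n => c1 n - c2 n) n)).re +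
      (∑ n ∈ Finset.Icc (-(K : ℤ)) K, (hV L (bp K) v n * (starRingEnd ℂ) (wP c1 c2 n)).re + v (bp K)) +
      ∑ n ∈ Finset.Icc (-(K : ℤ)) K, (hV L (br K L) v n * (starRingEnd ℂ) (wR c1 c2 n)).re := by
    unfold NrX NrL
    rw [← hc1, ← hc2, sum_g1, sum_g2, p0, Complex.add_re]
    have a1 : ∑ n ∈ Finset.Icc (-(K : ℤ)) K, (sV K v n * (starRingEnd ℂ) ((fun n => c1 n - c2 n) n)).re =
        ∑ n ∈ Finset.Icc (-(K : ℤ)) K, (sV K v n * (starRingEnd ℂ) (c1 n)).re -
        ∑ n ∈ Finset.Icc (-(K : ℤ)) K, (sV K v n * (starRingEnd ℂ) (c2 n)).re := by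
      rw [← Finset.sum_sub_distrib]
      refine Finset.sum_congr rfl fun n _ => ?_
      rw [← Complex.sub_re]
      congr 1
      beta_reduce
      rw [map_sub]
      ring
    have a2 : ∑ n ∈ Finset.Icc (-(K : ℤ)) K, (hV L (bp K) v n * (starRingEnd ℂ) (wP c1 c2 n)).re =
        ∑ n ∈ Finset.Icc (-(K : ℤ)) K, (pV K L v n * (starRingEnd ℂ) (om * c1 n)).re +
        ∑ n ∈ Finset.Icc (-(K : ℤ)) K, (pV K L v n * (starRingEnd ℂ) (om ^ 2 * c2 n)).re := by
      rw [← Finset.sum_add_distrib]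
      refine Finset.sum_congr rfl fun n _ => ?_
      rw [← Complex.add_re]
      congr 1
      unfold wP pV
      rw [map_add]
      ring
    have a3 : ∑ n ∈ Finset.Icc (-(K : ℤ)) K, (hV L (br K L) v n * (starRingEnd ℂ) (wR c1 c2 n)).re =
        ∑ n ∈ Finset.Icc (-(K : ℤ)) K, (rV K L v n * (starRingEnd ℂ) ((starRingEnd ℂ) (kq 2) * c1 n)).re +
        ∑ n ∈ Finset.Icc (-(K : ℤ)) K, (rV K L v n * (starRingEnd ℂ) (kq 2 * c2 n)).re := by
      rw [← Finset.sum_add_distrib]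
      refine Finset.sum_congr rfl fun n _ => ?_
      rw [← Complex.add_re]
      congr 1
      unfold wR rV
      rw [map_add]
      ring
    rw [a1, a2, a3]
    ring
  rw [e1, s1, s2, s3]
  -- the right side
  have en : nt K L = 1 + (2 * (K + 1)) + (L + 1) + (L + 1) := rfl
  have split : ∀ f : ℕ → ℝ, ∑ i ∈ Finset.range (nt K L), f i = ∑ x ∈ Finset.range 1, f x +
      ∑ x ∈ Finset.range (2 * (K + 1)), f (1 + x) + ∑ x ∈ Finset.range (L + 1), f (1 + 2 * (K + 1) + x) +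
      ∑ x ∈ Finset.range (L + 1), f (1 + 2 * (K + 1) + (L + 1) + x) := by
    intro f
    rw [en, Finset.sum_range_add f (1 + 2 * (K + 1) + (L + 1)), Finset.sum_range_add f (1 + 2 * (K + 1)),
      Finset.sum_range_add f 1]
  rw [split]
  have b0 : ∑ x ∈ Finset.range 1, rho K L c1 c2 x * v x =
      (om * (starRingEnd ℂ) (c1 0) + om ^ 2 * (starRingEnd ℂ) (c2 0)).re - 11 / 5 := by
    rw [Finset.sum_range_one, hv, mul_one]
    unfold rho
    rw [if_pos rfl]
  have b1 : ∑ x ∈ Finset.range (2 * (K + 1)), rho K L c1 c2 (1 + x) * v (1 + x) =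
      ∑ j ∈ Finset.range (2 * (K + 1)), sCo K (fun n => c1 n - c2 n) j * v (1 + j) := by
    refine Finset.sum_congr rfl fun j hj => ?_
    rw [Finset.mem_range] at hj
    congr 1
    unfold rho bp
    rw [if_neg (by omega), if_pos (by omega)]
    congr 1
    omega
  have b2 : ∑ x ∈ Finset.range (L + 1), rho K L c1 c2 (1 + 2 * (K + 1) + x) * v (1 + 2 * (K + 1) + x) =
      ∑ j ∈ Finset.range (L + 1), hCo (wP c1 c2) j * v (bp K + j) + v (bp K) := by
    have e : ∀ x ∈ Finset.range (L + 1), rho K L c1 c2 (1 + 2 * (K + 1) + x) * v (1 + 2 * (K + 1) + x) =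
        hCo (wP c1 c2) x * v (bp K + x) + (if x = 0 then v (bp K) else 0) := by
      intro x hx
      rw [Finset.mem_range] at hx
      unfold rho br bp
      rw [if_neg (by omega), if_neg (by omega), if_pos (by omega)]
      have e2 : 1 + 2 * (K + 1) + x - (1 + 2 * (K + 1)) = x := by omega
      rw [e2]
      by_cases h0 : x = 0
      · subst h0
        rw [if_pos (by omega), if_pos rfl, Nat.add_zero]
        ring
      · rw [if_neg (by omega), if_neg h0]
        ring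
    rw [Finset.sum_congr rfl e, Finset.sum_add_distrib]
    congr 1
    rw [Finset.sum_ite_eq' (Finset.range (L + 1)) 0 (fun _ => v (bp K)), if_pos (by rw [Finset.mem_range]; omega)]
  have b3 : ∑ x ∈ Finset.range (L + 1), rho K L c1 c2 (1 + 2 * (K + 1) + (L + 1) + x) *
      v (1 + 2 * (K + 1) + (L + 1) + x) = ∑ j ∈ Finset.range (L + 1), hCo (wR c1 c2) j * v (br K L + j) := by
    refine Finset.sum_congr rfl fun j hj => ?_
    rw [Finset.mem_range] at hj
    unfold rho br bp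
    rw [if_neg (by omega), if_neg (by omega), if_neg (by omega)]
    congr 2
    omega
  rw [b0, b1, b2, b3]

end Helper87.SH
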