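import Pool.Agent.Helper87.SH.UR
import Pool.Agent.Helper87.RC.M_KERb

/-!
# Project RC, SHARP, cell engine (O4): the integer row of the linear part of `NrA`

`nrR b s h r3 K L z w i = nrP - nrN` (natural numbers, fast operations only), scale `2 ^ (s + 2 + h)`,
`z, w` the polynomials of the two fields with `z.N = w.N = K`, `r3 / 2 ^ h` an approximation of `√3`.
-/

open MeasureTheory Set Filter Topology

namespace Helper87.SH

open Helper49.LT hiding sg cc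
open Helper49.RC (om)
open Helper95.RC
open Helper54.RC.Fast
open Helper87.RC (BM fc_eq fc_add fc_cmul)
open Helper56.RC (fc)
open Helper95.SH

/-! ## The natural numbers -/

def sP (b h : ℕ) (z : FP) (j : ℕ) : ℕ :=
  Nat.mul (Nat.pow 2 (Nat.add h 2)) (bif Nat.beq (Nat.mod j 2) 0 then dg b j z.x else dg b (Nat.sub j 1) z.y)

def pP (b s h r3 K : ℕ) (z w : FP) (j : ℕ) : ℕ :=
  bif Nat.beq j 0 then
    Nat.add (Nat.mul (Nat.pow 2 h) (Nat.add (Nat.mul 2 (dg b K z.x)) (Nat.mul 4 (Nat.pow 2 s))))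
      (Nat.mul r3 (Nat.mul 4 (Nat.pow 2 b)))
  else bif Nat.beq (Nat.mod j 2) 1 then
    Nat.add (Nat.mul (Nat.pow 2 h) (Nat.mul 2 (Nat.add (dg b (Nat.add K (Nat.succ j)) z.x)
      (dg b (Nat.sub K (Nat.succ j)) z.x)))) (Nat.mul r3 (Nat.mul 8 (Nat.pow 2 b)))
  else
    Nat.add (Nat.mul (Nat.pow 2 h) (Nat.mul 2 (Nat.add (dg b (Nat.add K j) z.y) (dg b (Nat.sub K j) w.y))))
      (Nat.mul r3 (Nat.mul 2 (Nat.add (dg b (Nat.add K j) z.x) (dg b (Nat.add K j) w.x))))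

def pN (b h r3 K : ℕ) (z w : FP) (j : ℕ) : ℕ :=
  bif Nat.beq j 0 then
    Nat.add (Nat.mul (Nat.pow 2 h) (Nat.mul 2 (dg b K w.x))) (Nat.mul r3 (Nat.mul 2 (Nat.add (dg b K z.y) (dg b K w.y))))
  else bif Nat.beq (Nat.mod j 2) 1 then
    Nat.add (Nat.mul (Nat.pow 2 h) (Nat.mul 2 (Nat.add (dg b (Nat.add K (Nat.succ j)) w.x)
      (dg b (Nat.sub K (Nat.succ j)) w.x))))
      (Nat.mul r3 (Nat.mul 2 (Nat.add (Nat.add (dg b (Nat.add K (Nat.succ j)) z.y) (dg b (Nat.sub K (Nat.succ j)) z.y))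
        (Nat.add (dg b (Nat.add K (Nat.succ j)) w.y) (dg b (Nat.sub K (Nat.succ j)) w.y)))))
  else
    Nat.add (Nat.mul (Nat.pow 2 h) (Nat.mul 2 (Nat.add (dg b (Nat.sub K j) z.y) (dg b (Nat.add K j) w.y))))
      (Nat.mul r3 (Nat.mul 2 (Nat.add (dg b (Nat.sub K j) z.x) (dg b (Nat.sub K j) w.x))))

def rP (b h r3 K : ℕ) (z w : FP) (j : ℕ) : ℕ :=
  bif Nat.beq j 0 then
    Nat.add (Nat.mul (Nat.pow 2 h) (dg b K z.y)) (Nat.mul r3 (Nat.mul 4 (Nat.add (dg b K z.x) (dg b K w.x))))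
  else bif Nat.beq (Nat.mod j 2) 1 then
    Nat.add (Nat.mul (Nat.pow 2 h) (Nat.add (dg b (Nat.add K (Nat.succ j)) z.y) (dg b (Nat.sub K (Nat.succ j)) z.y)))
      (Nat.mul r3 (Nat.mul 4 (Nat.add (Nat.add (dg b (Nat.add K (Nat.succ j)) z.x) (dg b (Nat.sub K (Nat.succ j)) z.x))
        (Nat.add (dg b (Nat.add K (Nat.succ j)) w.x) (dg b (Nat.sub K (Nat.succ j)) w.x)))))
  else
    Nat.add (Nat.mul (Nat.pow 2 h) (Nat.add (dg b (Nat.sub K j) z.x) (dg b (Nat.add K j) w.x)))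
      (Nat.mul r3 (Nat.mul 4 (Nat.add (dg b (Nat.add K j) z.y) (dg b (Nat.add K j) w.y))))

def rN (b h r3 K : ℕ) (z w : FP) (j : ℕ) : ℕ :=
  bif Nat.beq j 0 then
    Nat.add (Nat.mul (Nat.pow 2 h) (dg b K w.y)) (Nat.mul r3 (Nat.mul 8 (Nat.pow 2 b)))
  else bif Nat.beq (Nat.mod j 2) 1 then
    Nat.add (Nat.mul (Nat.pow 2 h) (Nat.add (dg b (Nat.add K (Nat.succ j)) w.y) (dg b (Nat.sub K (Nat.succ j)) w.y)))
      (Nat.mul r3 (Nat.mul 16 (Nat.pow 2 b)))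
  else
    Nat.add (Nat.mul (Nat.pow 2 h) (Nat.add (dg b (Nat.add K j) z.x) (dg b (Nat.sub K j) w.x)))
      (Nat.mul r3 (Nat.mul 4 (Nat.add (dg b (Nat.sub K j) z.y) (dg b (Nat.sub K j) w.y))))

def kP (b h r3 K : ℕ) (z w : FP) : ℕ :=
  Nat.add (Nat.mul (Nat.pow 2 h) (Nat.mul 2 (dg b K z.x))) (Nat.mul r3 (Nat.mul 2 (Nat.add (dg b K z.y) (dg b K w.y))))
def kN (b s h r3 K : ℕ) (w : FP) : ℕ :=
  Nat.add (Nat.add (Nat.mul (Nat.pow 2 h) (Nat.mul 2 (dg b K w.x))) (Nat.mul r3 (Nat.mul 4 (Nat.pow 2 b))))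
    (Nat.div (Nat.mul 44 (Nat.pow 2 (Nat.add s h))) 5)

/-- positive part of the coordinate `i` -/
def nrP (b s h r3 K L : ℕ) (z w : FP) (i : ℕ) : ℕ :=
  bif Nat.beq i 0 then kP b h r3 K z w
  else bif Nat.ble (bp K) i then
    (bif Nat.ble (br K L) i then rP b h r3 K z w (Nat.sub i (br K L)) else pP b s h r3 K z w (Nat.sub i (bp K)))
  else sP b h z (Nat.sub i 1)
/-- negative part of the coordinate `i` -/
def nrN (b s h r3 K L : ℕ) (z w : FP) (i : ℕ) : ℕ :=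
  bif Nat.beq i 0 then kN b s h r3 K w
  else bif Nat.ble (bp K) i then
    (bif Nat.ble (br K L) i then rN b h r3 K z w (Nat.sub i (br K L)) else pN b h r3 K z w (Nat.sub i (bp K)))
  else sP b h w (Nat.sub i 1)

/-- the integer row -/
def nrR (b s h r3 K L : ℕ) (z w : FP) (i : ℕ) : ℤ :=
  Int.subNatNat (nrP b s h r3 K L z w i) (nrN b s h r3 K L z w i)
/-- the digit with the offset `2 ^ B` -/
def nrD (B b s h r3 K L : ℕ) (z w : FP) (i : ℕ) : ℕ :=
  Nat.sub (Nat.add (Nat.pow 2 B) (nrP b s h r3 K L z w i)) (nrN b s h r3 K L z w i)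

/-- the check of `√3` -/
def ok3 (h r3 : ℕ) : Bool :=
  bif Nat.ble (Nat.mul r3 r3) (Nat.mul 3 (Nat.pow 2 (Nat.add h h))) then
    Nat.ble (Nat.mul 3 (Nat.pow 2 (Nat.add h h))) (Nat.mul (Nat.succ r3) (Nat.succ r3)) else false

/-- all conditions of the block -/
def okN (b r s h r3 K L : ℕ) (z q w q' : FP) : Bool :=
  bif okD b r s z q then bif okD b r s w q' then bif ok3 h r3 then bif Nat.beq z.N K then bif Nat.beq w.N K then
    bif Nat.beq (Nat.mod K 2) 1 then bif Nat.beq (Nat.mod L 2) 0 then Nat.ble L K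
  else false else false else false else false else false else false else false

/-! ## Soundness -/

theorem bif_eq {α : Type*} (c : Bool) (x y : α) (p : Prop) [Decidable p] (h : c = decide p) :
    (bif c then x else y) = if p then x else y := by
  rw [h]
  by_cases hp : p <;> simp [hp]

theorem beq_dec (a c : ℕ) : Nat.beq a c = decide (a = c) := by
  by_cases h : a = c
  · rw [decide_eq_true h, h]
    exact Nat.beq_refl c
  · rw [decide_eq_false h]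
    cases h2 : Nat.beq a c with
    | false => rfl
    | true => exact absurd (Nat.eq_of_beq_eq_true h2) h

theorem ble_dec (a c : ℕ) : Nat.ble a c = decide (a ≤ c) := by
  by_cases h : a ≤ c
  · rw [decide_eq_true h]
    exact Nat.ble_eq_true_of_le h
  · rw [decide_eq_false h]
    cases h2 : Nat.ble a c with
    | false => rfl
    | true => exact absurd (Nat.le_of_ble_eq_true h2) h

theorem ok3_sound {h r3 : ℕ} (hc : ok3 h r3 = true) : |2 ^ h * Real.sqrt 3 - r3| ≤ 1 := by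
  unfold ok3 at hc
  simp only [bift] at hc
  have h1 : r3 * r3 ≤ 3 * 2 ^ (h + h) := Nat.le_of_ble_eq_true hc.1
  have h2 : 3 * 2 ^ (h + h) ≤ (r3 + 1) * (r3 + 1) := Nat.le_of_ble_eq_true hc.2
  have h1' : (r3 : ℝ) * r3 ≤ 3 * 2 ^ (h + h) := by exact_mod_cast h1
  have h2' : (3 : ℝ) * 2 ^ (h + h) ≤ (r3 + 1) * (r3 + 1) := by exact_mod_cast h2
  rw [pow_add] at h1' h2'
  have s3 : Real.sqrt 3 ^ 2 = 3 := Real.sq_sqrt (by norm_num)
  have s0 := Real.sqrt_nonneg 3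
  have hp : (0 : ℝ) < 2 ^ h := by positivity
  have hr : (0 : ℝ) ≤ r3 := Nat.cast_nonneg _
  set y : ℝ := 2 ^ h * Real.sqrt 3 with hy
  have e : y ^ 2 = 3 * (2 ^ h * 2 ^ h) := by
    rw [hy, mul_pow, s3]; ring
  have y0 : 0 ≤ y := by positivity
  rw [abs_le]
  constructor
  · have : (r3 : ℝ) ≤ y := abs_le_of_sq_le_sq' (by nlinarith) y0 |>.2
    linarith
  · have : y ≤ r3 + 1 := abs_le_of_sq_le_sq' (by nlinarith) (by linarith) |>.2
    linarith

/-- real and imaginary part of a coefficient, times `2 ^ s` -/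
noncomputable def cx (b : ℕ) (z : FP) (k : ℕ) : ℝ := (dg b k z.x : ℝ) - 2 ^ b
noncomputable def cy (b : ℕ) (z : FP) (k : ℕ) : ℝ := (dg b k z.y : ℝ) - 2 ^ b

theorem cc_eq (b : ℕ) (z : FP) (k : ℕ) : Helper54.RC.Fast.cc b z k = (cx b z k : ℂ) + Complex.I * (cy b z k : ℂ) := by
  unfold Helper54.RC.Fast.cc cx cy
  push_cast
  rfl

theorem norm_fc_le {f : ℝ → ℂ} (h : BM f 1) (n : ℤ) : ‖fc f n‖ ≤ 1 := by
  rw [fc_eq]
  have hp : (0 : ℝ) < 2 * Real.pi := by positivity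
  have h1 : ‖∫ t in (0 : ℝ)..(2 * Real.pi), f t * ee (-(n : ℝ) * t)‖ ≤ 1 * |2 * Real.pi - 0| := by
    refine intervalIntegral.norm_integral_le_of_norm_le_const fun t _ => ?_
    rw [norm_mul, norm_ee, mul_one]
    exact h.b t
  rw [sub_zero, abs_of_pos hp, one_mul] at h1
  rw [norm_mul]
  have h2 : ‖(1 / (2 * Real.pi) : ℂ)‖ = 1 / (2 * Real.pi) := by
    have : (1 / (2 * Real.pi) : ℂ) = ((1 / (2 * Real.pi) : ℝ) : ℂ) := by push_cast; rfl
    rw [this, Complex.norm_real, Real.norm_eq_abs, abs_of_pos (by positivity)]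
  rw [h2, one_div, inv_mul_le_iff₀ hp, mul_one]
  exact h1

section

variable {b r s K : ℕ} {z q : FP}

theorem fc_cx (hN : z.N = K) {n : ℤ} (hn : n ∈ Finset.Icc (-(K : ℤ)) K) {k : ℕ} (hk : (k : ℤ) = n + K) :
    fc (dF b s z) n = (1 / 2 ^ s : ℂ) * ((cx b z k : ℂ) + Complex.I * (cy b z k : ℂ)) := by
  rw [fc_dF]
  unfold cz
  rw [hN, if_pos hn, ← hk, Int.toNat_natCast, cc_eq]

theorem cx_bd (h : okD b r s z q = true) (hN : z.N = K) {k : ℕ} (hk : k ≤ 2 * K) :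
    |cx b z k| ≤ 2 ^ s ∧ |cy b z k| ≤ 2 ^ s := by
  have h1 := norm_fc_le (dF_bm h) ((k : ℤ) - K)
  rw [fc_cx hN (k := k) (by rw [Finset.mem_Icc]; omega) (by ring), norm_mul, norm_div, norm_one, norm_pow] at h1
  have h2 : ‖(2 : ℂ)‖ = 2 := by simp
  rw [h2, one_div, inv_mul_le_iff₀ (by positivity), mul_one] at h1
  have h3 := (Complex.abs_re_le_norm _).trans h1
  have h4 := (Complex.abs_im_le_norm _).trans h1
  simp only [Complex.add_re, Complex.add_im, Complex.mul_re, Complex.mul_im, Complex.ofReal_re, Complex.ofReal_im,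
    Complex.I_re, Complex.I_im, zero_mul, one_mul, mul_zero, sub_zero, zero_sub, add_zero, zero_add, neg_zero] at h3 h4
  exact ⟨h3, h4⟩

end

/-- the error of one coordinate -/
theorem err1 {s h r3 : ℕ} (h3 : ok3 h r3 = true) {ρ U T R e : ℝ} (h1 : ρ = (U + Real.sqrt 3 * T) / (4 * 2 ^ s))
    (hT : |T| ≤ 16 * 2 ^ s) (hR : |2 ^ h * U + r3 * T - R| ≤ e) : |2 ^ (s + 2 + h) * ρ - R| ≤ 16 * 2 ^ s + e := by
  have e1 : 2 ^ (s + 2 + h) * ρ = 2 ^ h * U + 2 ^ h * Real.sqrt 3 * T := by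
    rw [h1]
    have hp : (0 : ℝ) < 2 ^ s := by positivity
    rw [pow_add, pow_add]
    field_simp
    ring
  have e2 : 2 ^ (s + 2 + h) * ρ - R = (2 ^ h * Real.sqrt 3 - r3) * T + (2 ^ h * U + r3 * T - R) := by
    rw [e1]; ring
  rw [e2]
  refine (abs_add_le _ _).trans (add_le_add ?_ hR)
  rw [abs_mul]
  calc |2 ^ h * Real.sqrt 3 - r3| * |T| ≤ 1 * |T| := mul_le_mul_of_nonneg_right (ok3_sound h3) (abs_nonneg _)
    _ ≤ _ := by rw [one_mul]; exact hT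

theorem om_form : om = 1 / 2 + (Real.sqrt 3 / 2 : ℂ) * Complex.I := by
  have e : (1 / 2 + (Real.sqrt 3 / 2 : ℂ) * Complex.I : ℂ) = ((1 / 2 : ℝ) : ℂ) + ((Real.sqrt 3 / 2 : ℝ) : ℂ) * Complex.I := by
    push_cast
    ring
  rw [e]
  apply Complex.ext
  · rw [Helper87.RC.om_re]
    simp
  · rw [Helper87.RC.om_im]
    simp

theorem om_c (x y : ℝ) : om * ((x : ℂ) + Complex.I * y) =
    (((x - Real.sqrt 3 * y) / 2 : ℝ) : ℂ) + Complex.I * (((Real.sqrt 3 * x + y) / 2 : ℝ) : ℂ) := by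
  rw [om_form]
  have hI : Complex.I * Complex.I = -1 := Complex.I_mul_I
  push_cast
  linear_combination ((Real.sqrt 3 : ℂ) * y / 2) * hI

theorem om2_c (x y : ℝ) : om ^ 2 * ((x : ℂ) + Complex.I * y) =
    (((-x - Real.sqrt 3 * y) / 2 : ℝ) : ℂ) + Complex.I * (((Real.sqrt 3 * x - y) / 2 : ℝ) : ℂ) := by
  have h2 : om ^ 2 = -1 / 2 + (Real.sqrt 3 / 2 : ℂ) * Complex.I := by
    rw [om_form]
    have hI : Complex.I * Complex.I = -1 := Complex.I_mul_I
    have hs : (Real.sqrt 3 : ℂ) * Real.sqrt 3 = 3 := by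
      rw [← Complex.ofReal_mul, Real.mul_self_sqrt (by norm_num)]
      norm_num
    linear_combination ((Real.sqrt 3 : ℂ) ^ 2 / 4) * hI - (1 / 4) * hs
  rw [h2]
  have hI : Complex.I * Complex.I = -1 := Complex.I_mul_I
  push_cast
  linear_combination ((Real.sqrt 3 : ℂ) * y / 2) * hI

theorem kq2 : kq 2 = (Real.sqrt 3 : ℂ) + Complex.I * (1 / 4) := by
  unfold kq
  push_cast
  ring

theorem kqc_c (x y : ℝ) : (starRingEnd ℂ) (kq 2) * ((x : ℂ) + Complex.I * y) =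
    ((Real.sqrt 3 * x + y / 4 : ℝ) : ℂ) + Complex.I * ((Real.sqrt 3 * y - x / 4 : ℝ) : ℂ) := by
  rw [kq2, map_add, map_mul, Complex.conj_I, Complex.conj_ofReal]
  have : (starRingEnd ℂ) (1 / 4 : ℂ) = 1 / 4 := by
    rw [map_div₀, map_one, Complex.conj_ofNat]
  rw [this]
  have hI : Complex.I * Complex.I = -1 := Complex.I_mul_I
  push_cast
  linear_combination (-(y : ℂ) / 4) * hI

theorem kq_c (x y : ℝ) : kq 2 * ((x : ℂ) + Complex.I * y) =
    ((Real.sqrt 3 * x - y / 4 : ℝ) : ℂ) + Complex.I * ((Real.sqrt 3 * y + x / 4 : ℝ) : ℂ) := by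
  rw [kq2]
  have hI : Complex.I * Complex.I = -1 := Complex.I_mul_I
  push_cast
  linear_combination ((y : ℂ) / 4) * hI

section

variable {b r s h r3 K L : ℕ} {z q w q' : FP}

theorem okN_iff (hc : okN b r s h r3 K L z q w q' = true) : okD b r s z q = true ∧ okD b r s w q' = true ∧
    ok3 h r3 = true ∧ z.N = K ∧ w.N = K ∧ ¬ Even K ∧ Even L ∧ L ≤ K := by
  unfold okN at hc
  simp only [bift] at hc
  obtain ⟨h1, h2, h3, h4, h5, h6, h7, h8⟩ := hc
  have h6 : K % 2 = 1 := Nat.eq_of_beq_eq_true h6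
  have h7 : L % 2 = 0 := Nat.eq_of_beq_eq_true h7
  exact ⟨h1, h2, h3, Nat.eq_of_beq_eq_true h4, Nat.eq_of_beq_eq_true h5,
    Nat.not_even_iff_odd.2 (Nat.odd_iff.2 h6), Nat.even_iff.2 h7, Nat.le_of_ble_eq_true h8⟩

/-- the four real numbers of a frequency -/
theorem fields (hz : z.N = K) (hw : w.N = K) {n : ℤ} (hn : n ∈ Finset.Icc (-(K : ℤ)) K) {k : ℕ}
    (hk : (k : ℤ) = n + K) :
    (fc (dF b s z) n - fc (dF b s w) n).re = (cx b z k - cx b w k) / 2 ^ s ∧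
    (fc (dF b s z) n - fc (dF b s w) n).im = (cy b z k - cy b w k) / 2 ^ s ∧
    (wP (fc (dF b s z)) (fc (dF b s w)) n).re =
      ((2 * cx b z k - 2 * cx b w k) + Real.sqrt 3 * (-2 * cy b z k - 2 * cy b w k)) / (4 * 2 ^ s) ∧
    (wP (fc (dF b s z)) (fc (dF b s w)) n).im =
      ((2 * cy b z k - 2 * cy b w k) + Real.sqrt 3 * (2 * cx b z k + 2 * cx b w k)) / (4 * 2 ^ s) ∧
    (wR (fc (dF b s z)) (fc (dF b s w)) n).re =
      ((cy b z k - cy b w k) + Real.sqrt 3 * (4 * cx b z k + 4 * cx b w k)) / (4 * 2 ^ s) ∧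
    (wR (fc (dF b s z)) (fc (dF b s w)) n).im =
      ((cx b w k - cx b z k) + Real.sqrt 3 * (4 * cy b z k + 4 * cy b w k)) / (4 * 2 ^ s) := by
  have a1 := fc_cx (b := b) (s := s) hz hn hk
  have a2 := fc_cx (b := b) (s := s) hw hn hk
  have hp : (2 : ℝ) ^ s ≠ 0 := by positivity
  have rr : ∀ x y : ℝ, (1 / 2 ^ s : ℂ) * ((x : ℂ) + Complex.I * (y : ℂ)) =
      ((x / 2 ^ s : ℝ) : ℂ) + Complex.I * ((y / 2 ^ s : ℝ) : ℂ) := by
    intro x y
    push_cast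
    ring
  rw [rr] at a1 a2
  have re1 : ∀ x y : ℝ, ((x : ℂ) + Complex.I * (y : ℂ)).re = x := by intro x y; simp
  have im1 : ∀ x y : ℝ, ((x : ℂ) + Complex.I * (y : ℂ)).im = y := by intro x y; simp
  refine ⟨?_, ?_, ?_, ?_, ?_, ?_⟩
  · rw [a1, a2, Complex.sub_re, re1, re1]; ring
  · rw [a1, a2, Complex.sub_im, im1, im1]; ring
  · unfold wP
    rw [a1, a2, om_c, om2_c, Complex.add_re, re1, re1]
    field_simp
    ring
  · unfold wP
    rw [a1, a2, om_c, om2_c, Complex.add_im, im1, im1]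
    field_simp
    ring
  · unfold wR
    rw [a1, a2, kqc_c, kq_c, Complex.add_re, re1, re1]
    field_simp
    ring
  · unfold wR
    rw [a1, a2, kqc_c, kq_c, Complex.add_im, im1, im1]
    field_simp
    ring

end

end Helper87.SH
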