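import Pool.Agent.Helper87.SH.UR2

/-!
# Project RC, SHARP, cell engine (O4): the certificate `LR` of the row of the linear part of `NrA`

`nrR_LR`, the digits `nrD_eq`, and the head/tail split `NrA_ht` of the second multiplier.
-/

open MeasureTheory Set Filter Topology

namespace Helper87.SH

open Helper49.LT hiding sg cc
open Helper49.RC (om)
open Helper95.RC
open Helper54.RC.Fast
open Helper87.RC (BM fc_eq fc_add fc_cmul)
open Helper56.RC (fc)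
open Helper95.SH

section

variable {b s h r3 K L : ℕ} {z w : FP} {j : ℕ}

theorem bq_t {a c : ℕ} (hh : a = c) : Nat.beq a c = true := by rw [beq_dec]; exact decide_eq_true hh
theorem bq_f {a c : ℕ} (hh : a ≠ c) : Nat.beq a c = false := by rw [beq_dec]; exact decide_eq_false hh
theorem bl_t {a c : ℕ} (hh : a ≤ c) : Nat.ble a c = true := by rw [ble_dec]; exact decide_eq_true hh
theorem bl_f {a c : ℕ} (hh : ¬ a ≤ c) : Nat.ble a c = false := by rw [ble_dec]; exact decide_eq_false hh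

theorem sP_e (hj : j % 2 = 0) : sP b h z j = 2 ^ (h + 2) * dg b j z.x := by
  unfold sP
  rw [bq_t (show Nat.mod j 2 = 0 from hj)]
  rfl
theorem sP_o (hj : j % 2 ≠ 0) : sP b h z j = 2 ^ (h + 2) * dg b (j - 1) z.y := by
  unfold sP
  rw [bq_f (show Nat.mod j 2 ≠ 0 from hj)]
  rfl

theorem pP_o (h0 : j ≠ 0) (hj : j % 2 = 1) : pP b s h r3 K z w j =
    2 ^ h * (2 * (dg b (K + (j + 1)) z.x + dg b (K - (j + 1)) z.x)) + r3 * (8 * 2 ^ b) := by
  unfold pP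
  rw [bq_f h0, bq_t (show Nat.mod j 2 = 1 from hj)]
  rfl
theorem pP_e (h0 : j ≠ 0) (hj : j % 2 ≠ 1) : pP b s h r3 K z w j =
    2 ^ h * (2 * (dg b (K + j) z.y + dg b (K - j) w.y)) + r3 * (2 * (dg b (K + j) z.x + dg b (K + j) w.x)) := by
  unfold pP
  rw [bq_f h0, bq_f (show Nat.mod j 2 ≠ 1 from hj)]
  rfl
theorem pN_o (h0 : j ≠ 0) (hj : j % 2 = 1) : pN b h r3 K z w j =
    2 ^ h * (2 * (dg b (K + (j + 1)) w.x + dg b (K - (j + 1)) w.x)) +
      r3 * (2 * ((dg b (K + (j + 1)) z.y + dg b (K - (j + 1)) z.y) + (dg b (K + (j + 1)) w.y + dg b (K - (j + 1)) w.y))) := by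
  unfold pN
  rw [bq_f h0, bq_t (show Nat.mod j 2 = 1 from hj)]
  rfl
theorem pN_e (h0 : j ≠ 0) (hj : j % 2 ≠ 1) : pN b h r3 K z w j =
    2 ^ h * (2 * (dg b (K - j) z.y + dg b (K + j) w.y)) + r3 * (2 * (dg b (K - j) z.x + dg b (K - j) w.x)) := by
  unfold pN
  rw [bq_f h0, bq_f (show Nat.mod j 2 ≠ 1 from hj)]
  rfl
theorem rP_o (h0 : j ≠ 0) (hj : j % 2 = 1) : rP b h r3 K z w j =
    2 ^ h * (dg b (K + (j + 1)) z.y + dg b (K - (j + 1)) z.y) +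
      r3 * (4 * ((dg b (K + (j + 1)) z.x + dg b (K - (j + 1)) z.x) + (dg b (K + (j + 1)) w.x + dg b (K - (j + 1)) w.x))) := by
  unfold rP
  rw [bq_f h0, bq_t (show Nat.mod j 2 = 1 from hj)]
  rfl
theorem rP_e (h0 : j ≠ 0) (hj : j % 2 ≠ 1) : rP b h r3 K z w j =
    2 ^ h * (dg b (K - j) z.x + dg b (K + j) w.x) + r3 * (4 * (dg b (K + j) z.y + dg b (K + j) w.y)) := by
  unfold rP
  rw [bq_f h0, bq_f (show Nat.mod j 2 ≠ 1 from hj)]
  rfl
theorem rN_o (h0 : j ≠ 0) (hj : j % 2 = 1) : rN b h r3 K z w j =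
    2 ^ h * (dg b (K + (j + 1)) w.y + dg b (K - (j + 1)) w.y) + r3 * (16 * 2 ^ b) := by
  unfold rN
  rw [bq_f h0, bq_t (show Nat.mod j 2 = 1 from hj)]
  rfl
theorem rN_e (h0 : j ≠ 0) (hj : j % 2 ≠ 1) : rN b h r3 K z w j =
    2 ^ h * (dg b (K + j) z.x + dg b (K - j) w.x) + r3 * (4 * (dg b (K - j) z.y + dg b (K - j) w.y)) := by
  unfold rN
  rw [bq_f h0, bq_f (show Nat.mod j 2 ≠ 1 from hj)]
  rfl

variable {i : ℕ}

theorem nrP_s (h0 : i ≠ 0) (h1 : ¬ bp K ≤ i) : nrP b s h r3 K L z w i = sP b h z (i - 1) := by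
  unfold nrP
  rw [bq_f h0, bl_f h1]
  rfl
theorem nrN_s (h0 : i ≠ 0) (h1 : ¬ bp K ≤ i) : nrN b s h r3 K L z w i = sP b h w (i - 1) := by
  unfold nrN
  rw [bq_f h0, bl_f h1]
  rfl
theorem nrP_p (h0 : i ≠ 0) (h1 : bp K ≤ i) (h2 : ¬ br K L ≤ i) :
    nrP b s h r3 K L z w i = pP b s h r3 K z w (i - bp K) := by
  unfold nrP
  rw [bq_f h0, bl_t h1, bl_f h2]
  rfl
theorem nrN_p (h0 : i ≠ 0) (h1 : bp K ≤ i) (h2 : ¬ br K L ≤ i) :
    nrN b s h r3 K L z w i = pN b h r3 K z w (i - bp K) := by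
  unfold nrN
  rw [bq_f h0, bl_t h1, bl_f h2]
  rfl
theorem nrP_r (h0 : i ≠ 0) (h1 : bp K ≤ i) (h2 : br K L ≤ i) :
    nrP b s h r3 K L z w i = rP b h r3 K z w (i - br K L) := by
  unfold nrP
  rw [bq_f h0, bl_t h1, bl_t h2]
  rfl
theorem nrN_r (h0 : i ≠ 0) (h1 : bp K ≤ i) (h2 : br K L ≤ i) :
    nrN b s h r3 K L z w i = rN b h r3 K z w (i - br K L) := by
  unfold nrN
  rw [bq_f h0, bl_t h1, bl_t h2]
  rfl

theorem nrR_cast : ((nrR b s h r3 K L z w i : ℤ) : ℝ) =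
    (nrP b s h r3 K L z w i : ℝ) - (nrN b s h r3 K L z w i : ℝ) := by
  unfold nrR
  rw [Int.subNatNat_eq_coe]
  push_cast
  ring

end

section

variable {b r s h r3 K L : ℕ} {z q w q' : FP}

theorem abs4 {x y S : ℝ} (hx : |x| ≤ S) (hy : |y| ≤ S) : |x + y| ≤ 2 * S := (abs_add_le _ _).trans (by linarith)

/-- the coordinates of `s` -/
theorem err_s (hc : okN b r s h r3 K L z q w q' = true) (j : ℕ) (hj : j < 2 * (K + 1)) :
    |2 ^ (s + 2 + h) * sCo K (fun n => fc (dF b s z) n - fc (dF b s w) n) j -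
      ((sP b h z j : ℝ) - (sP b h w j : ℝ))| ≤ 16 * 2 ^ s + 1 := by
  obtain ⟨dz, dw, h3, hz, hw, hK, hL, hLK⟩ := okN_iff hc
  obtain ⟨c, hcK⟩ := Nat.not_even_iff_odd.1 hK
  have hs : (0 : ℝ) < 2 ^ s := by positivity
  unfold sCo
  by_cases hj2 : j % 2 = 0
  · rw [if_pos hj2, sP_e hj2, sP_e hj2]
    have hn : ((j : ℤ) - K) ∈ Finset.Icc (-(K : ℤ)) K := by rw [Finset.mem_Icc]; omega
    have f := (fields (b := b) (s := s) hz hw hn (k := j) (by ring)).1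
    beta_reduce
    refine err1 h3 (U := 4 * (cx b z j - cx b w j)) (T := 0) ?_ ?_ ?_
    · rw [f]; field_simp; ring
    · rw [abs_zero]; positivity
    · unfold cx
      have : 2 ^ h * (4 * (((dg b j z.x : ℕ) : ℝ) - 2 ^ b - (((dg b j w.x : ℕ) : ℝ) - 2 ^ b))) + (r3 : ℝ) * 0 -
          (((2 ^ (h + 2) * dg b j z.x : ℕ) : ℝ) - ((2 ^ (h + 2) * dg b j w.x : ℕ) : ℝ)) = 0 := by
        push_cast
        rw [pow_add]
        ring
      rw [this, abs_zero]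
      norm_num
  · rw [if_neg hj2, sP_o hj2, sP_o hj2]
    have hn : (((j - 1 : ℕ) : ℤ) - K) ∈ Finset.Icc (-(K : ℤ)) K := by rw [Finset.mem_Icc]; omega
    have f := (fields (b := b) (s := s) hz hw hn (k := j - 1) (by ring)).2.1
    beta_reduce
    refine err1 h3 (U := 4 * (cy b z (j - 1) - cy b w (j - 1))) (T := 0) ?_ ?_ ?_
    · rw [f]; field_simp; ring
    · rw [abs_zero]; positivity
    · unfold cy
      have : 2 ^ h * (4 * (((dg b (j - 1) z.y : ℕ) : ℝ) - 2 ^ b - (((dg b (j - 1) w.y : ℕ) : ℝ) - 2 ^ b))) + (r3 : ℝ) * 0 -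
          (((2 ^ (h + 2) * dg b (j - 1) z.y : ℕ) : ℝ) - ((2 ^ (h + 2) * dg b (j - 1) w.y : ℕ) : ℝ)) = 0 := by
        push_cast
        rw [pow_add]
        ring
      rw [this, abs_zero]
      norm_num

/-- the coordinates of `p` -/
theorem err_p (hc : okN b r s h r3 K L z q w q' = true) (j : ℕ) (hj : j < L + 1) :
    |2 ^ (s + 2 + h) * (hCo (wP (fc (dF b s z)) (fc (dF b s w))) j + (if j = 0 then 1 else 0)) -
      ((pP b s h r3 K z w j : ℝ) - (pN b h r3 K z w j : ℝ))| ≤ 16 * 2 ^ s + 1 := by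
  obtain ⟨dz, dw, h3, hz, hw, hK, hL, hLK⟩ := okN_iff hc
  obtain ⟨m, hm⟩ := hL
  have hs : (0 : ℝ) < 2 ^ s := by positivity
  unfold hCo
  by_cases h0 : j = 0
  · subst h0
    rw [if_pos rfl, if_pos rfl]
    have hn : (0 : ℤ) ∈ Finset.Icc (-(K : ℤ)) K := by rw [Finset.mem_Icc]; omega
    have f := (fields (b := b) (s := s) hz hw hn (k := K) (by ring)).2.2.1
    have b1 := (cx_bd dz hz (k := K) (by omega)).2
    have b2 := (cx_bd dw hw (k := K) (by omega)).2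
    refine err1 h3 (U := 2 * cx b z K - 2 * cx b w K + 4 * 2 ^ s) (T := -2 * cy b z K - 2 * cy b w K) ?_ ?_ ?_
    · rw [f]; field_simp; ring
    · have : -2 * cy b z K - 2 * cy b w K = -(2 * (cy b z K + cy b w K)) := by ring
      rw [this, abs_neg, abs_mul, abs_of_pos (by norm_num : (0 : ℝ) < 2)]
      have := abs4 b1 b2
      linarith
    · have eP : pP b s h r3 K z w 0 = 2 ^ h * (2 * dg b K z.x + 4 * 2 ^ s) + r3 * (4 * 2 ^ b) := rfl
      have eN : pN b h r3 K z w 0 = 2 ^ h * (2 * dg b K w.x) + r3 * (2 * (dg b K z.y + dg b K w.y)) := rfl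
      rw [eP, eN]
      unfold cx cy
      push_cast
      rw [show (2 : ℝ) ^ h * (2 * ((dg b K z.x : ℝ) - 2 ^ b) - 2 * ((dg b K w.x : ℝ) - 2 ^ b) + 4 * 2 ^ s) +
        (r3 : ℝ) * (-2 * ((dg b K z.y : ℝ) - 2 ^ b) - 2 * ((dg b K w.y : ℝ) - 2 ^ b)) -
        (2 ^ h * (2 * (dg b K z.x : ℝ) + 4 * 2 ^ s) + (r3 : ℝ) * (4 * 2 ^ b) -
        (2 ^ h * (2 * (dg b K w.x : ℝ)) + (r3 : ℝ) * (2 * ((dg b K z.y : ℝ) + (dg b K w.y : ℝ))))) = 0 by ring,
        abs_zero]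
      norm_num
  rw [if_neg h0, if_neg h0, add_zero]
  by_cases hj2 : j % 2 = 1
  · rw [if_pos hj2, pP_o h0 hj2, pN_o h0 hj2]
    have hn1 : ((j : ℤ) + 1) ∈ Finset.Icc (-(K : ℤ)) K := by rw [Finset.mem_Icc]; omega
    have hn2 : (-((j : ℤ) + 1)) ∈ Finset.Icc (-(K : ℤ)) K := by rw [Finset.mem_Icc]; omega
    have f1 := (fields (b := b) (s := s) hz hw hn1 (k := K + (j + 1)) (by push_cast; ring)).2.2.1
    have f2 := (fields (b := b) (s := s) hz hw hn2 (k := K - (j + 1)) (by omega)).2.2.1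
    set k1 := K + (j + 1)
    set k2 := K - (j + 1)
    have b1 := (cx_bd dz hz (k := k1) (by omega)).2
    have b2 := (cx_bd dw hw (k := k1) (by omega)).2
    have b3 := (cx_bd dz hz (k := k2) (by omega)).2
    have b4 := (cx_bd dw hw (k := k2) (by omega)).2
    refine err1 h3 (U := 2 * (cx b z k1 + cx b z k2) - 2 * (cx b w k1 + cx b w k2))
      (T := -(2 * ((cy b z k1 + cy b z k2) + (cy b w k1 + cy b w k2)))) ?_ ?_ ?_
    · rw [f1, f2]; field_simp; ring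
    · rw [abs_neg, abs_mul, abs_of_pos (by norm_num : (0 : ℝ) < 2)]
      have := abs_add_le (cy b z k1 + cy b z k2) (cy b w k1 + cy b w k2)
      have := abs4 b1 b3
      have := abs4 b2 b4
      linarith
    · unfold cx cy
      push_cast
      rw [show (2 : ℝ) ^ h * (2 * ((dg b k1 z.x : ℝ) - 2 ^ b + ((dg b k2 z.x : ℝ) - 2 ^ b)) -
        2 * ((dg b k1 w.x : ℝ) - 2 ^ b + ((dg b k2 w.x : ℝ) - 2 ^ b))) +
        (r3 : ℝ) * -(2 * ((dg b k1 z.y : ℝ) - 2 ^ b + ((dg b k2 z.y : ℝ) - 2 ^ b) + ((dg b k1 w.y : ℝ) - 2 ^ b +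
        ((dg b k2 w.y : ℝ) - 2 ^ b)))) - (2 ^ h * (2 * ((dg b k1 z.x : ℝ) + (dg b k2 z.x : ℝ))) + (r3 : ℝ) * (8 * 2 ^ b) -
        (2 ^ h * (2 * ((dg b k1 w.x : ℝ) + (dg b k2 w.x : ℝ))) + (r3 : ℝ) * (2 * ((dg b k1 z.y : ℝ) + (dg b k2 z.y : ℝ) +
        ((dg b k1 w.y : ℝ) + (dg b k2 w.y : ℝ)))))) = 0 by ring, abs_zero]
      norm_num
  · rw [if_neg hj2, pP_e h0 hj2, pN_e h0 hj2]
    have hn1 : (j : ℤ) ∈ Finset.Icc (-(K : ℤ)) K := by rw [Finset.mem_Icc]; omega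
    have hn2 : (-(j : ℤ)) ∈ Finset.Icc (-(K : ℤ)) K := by rw [Finset.mem_Icc]; omega
    have f1 := (fields (b := b) (s := s) hz hw hn1 (k := K + j) (by push_cast; ring)).2.2.2.1
    have f2 := (fields (b := b) (s := s) hz hw hn2 (k := K - j) (by omega)).2.2.2.1
    set k1 := K + j
    set k2 := K - j
    have b1 := (cx_bd dz hz (k := k1) (by omega)).1
    have b2 := (cx_bd dw hw (k := k1) (by omega)).1
    have b3 := (cx_bd dz hz (k := k2) (by omega)).1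
    have b4 := (cx_bd dw hw (k := k2) (by omega)).1
    refine err1 h3 (U := 2 * (cy b z k1 - cy b z k2) - 2 * (cy b w k1 - cy b w k2))
      (T := 2 * ((cx b z k1 + cx b w k1) + (-cx b z k2 + -cx b w k2))) ?_ ?_ ?_
    · rw [f1, f2]; field_simp; ring
    · rw [abs_mul, abs_of_pos (by norm_num : (0 : ℝ) < 2)]
      have := abs_add_le (cx b z k1 + cx b w k1) (-cx b z k2 + -cx b w k2)
      have := abs4 b1 b2
      rw [← abs_neg] at b3 b4
      have := abs4 b3 b4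
      linarith
    · unfold cx cy
      push_cast
      rw [show (2 : ℝ) ^ h * (2 * ((dg b k1 z.y : ℝ) - 2 ^ b - ((dg b k2 z.y : ℝ) - 2 ^ b)) -
        2 * ((dg b k1 w.y : ℝ) - 2 ^ b - ((dg b k2 w.y : ℝ) - 2 ^ b))) +
        (r3 : ℝ) * (2 * ((dg b k1 z.x : ℝ) - 2 ^ b + ((dg b k1 w.x : ℝ) - 2 ^ b) + (-((dg b k2 z.x : ℝ) - 2 ^ b) +
        -((dg b k2 w.x : ℝ) - 2 ^ b)))) - (2 ^ h * (2 * ((dg b k1 z.y : ℝ) + (dg b k2 w.y : ℝ))) +
        (r3 : ℝ) * (2 * ((dg b k1 z.x : ℝ) + (dg b k1 w.x : ℝ))) - (2 ^ h * (2 * ((dg b k2 z.y : ℝ) + (dg b k1 w.y : ℝ))) +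
        (r3 : ℝ) * (2 * ((dg b k2 z.x : ℝ) + (dg b k2 w.x : ℝ))))) = 0 by ring, abs_zero]
      norm_num

/-- the coordinates of `r` -/
theorem err_r (hc : okN b r s h r3 K L z q w q' = true) (j : ℕ) (hj : j < L + 1) :
    |2 ^ (s + 2 + h) * hCo (wR (fc (dF b s z)) (fc (dF b s w))) j -
      ((rP b h r3 K z w j : ℝ) - (rN b h r3 K z w j : ℝ))| ≤ 16 * 2 ^ s + 1 := by
  obtain ⟨dz, dw, h3, hz, hw, hK, hL, hLK⟩ := okN_iff hc
  obtain ⟨m, hm⟩ := hL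
  have hs : (0 : ℝ) < 2 ^ s := by positivity
  unfold hCo
  by_cases h0 : j = 0
  · subst h0
    rw [if_pos rfl]
    have hn : (0 : ℤ) ∈ Finset.Icc (-(K : ℤ)) K := by rw [Finset.mem_Icc]; omega
    have f := (fields (b := b) (s := s) hz hw hn (k := K) (by ring)).2.2.2.2.1
    have b1 := (cx_bd dz hz (k := K) (by omega)).1
    have b2 := (cx_bd dw hw (k := K) (by omega)).1
    refine err1 h3 (U := cy b z K - cy b w K) (T := 4 * (cx b z K + cx b w K)) ?_ ?_ ?_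
    · rw [f]; field_simp
    · rw [abs_mul, abs_of_pos (by norm_num : (0 : ℝ) < 4)]
      have := abs4 b1 b2
      linarith
    · have eP : rP b h r3 K z w 0 = 2 ^ h * dg b K z.y + r3 * (4 * (dg b K z.x + dg b K w.x)) := rfl
      have eN : rN b h r3 K z w 0 = 2 ^ h * dg b K w.y + r3 * (8 * 2 ^ b) := rfl
      rw [eP, eN]
      unfold cx cy
      push_cast
      rw [show (2 : ℝ) ^ h * ((dg b K z.y : ℝ) - 2 ^ b - ((dg b K w.y : ℝ) - 2 ^ b)) +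
        (r3 : ℝ) * (4 * ((dg b K z.x : ℝ) - 2 ^ b + ((dg b K w.x : ℝ) - 2 ^ b))) -
        (2 ^ h * (dg b K z.y : ℝ) + (r3 : ℝ) * (4 * ((dg b K z.x : ℝ) + (dg b K w.x : ℝ))) -
        (2 ^ h * (dg b K w.y : ℝ) + (r3 : ℝ) * (8 * 2 ^ b))) = 0 by ring, abs_zero]
      norm_num
  rw [if_neg h0]
  by_cases hj2 : j % 2 = 1
  · rw [if_pos hj2, rP_o h0 hj2, rN_o h0 hj2]
    have hn1 : ((j : ℤ) + 1) ∈ Finset.Icc (-(K : ℤ)) K := by rw [Finset.mem_Icc]; omega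
    have hn2 : (-((j : ℤ) + 1)) ∈ Finset.Icc (-(K : ℤ)) K := by rw [Finset.mem_Icc]; omega
    have f1 := (fields (b := b) (s := s) hz hw hn1 (k := K + (j + 1)) (by push_cast; ring)).2.2.2.2.1
    have f2 := (fields (b := b) (s := s) hz hw hn2 (k := K - (j + 1)) (by omega)).2.2.2.2.1
    set k1 := K + (j + 1)
    set k2 := K - (j + 1)
    have b1 := (cx_bd dz hz (k := k1) (by omega)).1
    have b2 := (cx_bd dw hw (k := k1) (by omega)).1
    have b3 := (cx_bd dz hz (k := k2) (by omega)).1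
    have b4 := (cx_bd dw hw (k := k2) (by omega)).1
    refine err1 h3 (U := (cy b z k1 + cy b z k2) - (cy b w k1 + cy b w k2))
      (T := 4 * ((cx b z k1 + cx b z k2) + (cx b w k1 + cx b w k2))) ?_ ?_ ?_
    · rw [f1, f2]; field_simp; ring
    · rw [abs_mul, abs_of_pos (by norm_num : (0 : ℝ) < 4)]
      have := abs_add_le (cx b z k1 + cx b z k2) (cx b w k1 + cx b w k2)
      have := abs4 b1 b3
      have := abs4 b2 b4
      linarith
    · unfold cx cy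
      push_cast
      rw [show (2 : ℝ) ^ h * ((dg b k1 z.y : ℝ) - 2 ^ b + ((dg b k2 z.y : ℝ) - 2 ^ b) -
        ((dg b k1 w.y : ℝ) - 2 ^ b + ((dg b k2 w.y : ℝ) - 2 ^ b))) +
        (r3 : ℝ) * (4 * ((dg b k1 z.x : ℝ) - 2 ^ b + ((dg b k2 z.x : ℝ) - 2 ^ b) + ((dg b k1 w.x : ℝ) - 2 ^ b +
        ((dg b k2 w.x : ℝ) - 2 ^ b)))) - (2 ^ h * ((dg b k1 z.y : ℝ) + (dg b k2 z.y : ℝ)) + (r3 : ℝ) * (4 *
        ((dg b k1 z.x : ℝ) + (dg b k2 z.x : ℝ) + ((dg b k1 w.x : ℝ) + (dg b k2 w.x : ℝ)))) -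
        (2 ^ h * ((dg b k1 w.y : ℝ) + (dg b k2 w.y : ℝ)) + (r3 : ℝ) * (16 * 2 ^ b))) = 0 by ring, abs_zero]
      norm_num
  · rw [if_neg hj2, rP_e h0 hj2, rN_e h0 hj2]
    have hn1 : (j : ℤ) ∈ Finset.Icc (-(K : ℤ)) K := by rw [Finset.mem_Icc]; omega
    have hn2 : (-(j : ℤ)) ∈ Finset.Icc (-(K : ℤ)) K := by rw [Finset.mem_Icc]; omega
    have f1 := (fields (b := b) (s := s) hz hw hn1 (k := K + j) (by push_cast; ring)).2.2.2.2.2
    have f2 := (fields (b := b) (s := s) hz hw hn2 (k := K - j) (by omega)).2.2.2.2.2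
    set k1 := K + j
    set k2 := K - j
    have b1 := (cx_bd dz hz (k := k1) (by omega)).2
    have b2 := (cx_bd dw hw (k := k1) (by omega)).2
    have b3 := (cx_bd dz hz (k := k2) (by omega)).2
    have b4 := (cx_bd dw hw (k := k2) (by omega)).2
    refine err1 h3 (U := (cx b w k1 - cx b w k2) - (cx b z k1 - cx b z k2))
      (T := 4 * ((cy b z k1 + cy b w k1) + (-cy b z k2 + -cy b w k2))) ?_ ?_ ?_
    · rw [f1, f2]; field_simp; ring
    · rw [abs_mul, abs_of_pos (by norm_num : (0 : ℝ) < 4)]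
      have := abs_add_le (cy b z k1 + cy b w k1) (-cy b z k2 + -cy b w k2)
      have := abs4 b1 b2
      rw [← abs_neg] at b3 b4
      have := abs4 b3 b4
      linarith
    · unfold cx cy
      push_cast
      rw [show (2 : ℝ) ^ h * ((dg b k1 w.x : ℝ) - 2 ^ b - ((dg b k2 w.x : ℝ) - 2 ^ b) -
        ((dg b k1 z.x : ℝ) - 2 ^ b - ((dg b k2 z.x : ℝ) - 2 ^ b))) +
        (r3 : ℝ) * (4 * ((dg b k1 z.y : ℝ) - 2 ^ b + ((dg b k1 w.y : ℝ) - 2 ^ b) + (-((dg b k2 z.y : ℝ) - 2 ^ b) +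
        -((dg b k2 w.y : ℝ) - 2 ^ b)))) - (2 ^ h * ((dg b k2 z.x : ℝ) + (dg b k1 w.x : ℝ)) +
        (r3 : ℝ) * (4 * ((dg b k1 z.y : ℝ) + (dg b k1 w.y : ℝ))) - (2 ^ h * ((dg b k1 z.x : ℝ) + (dg b k2 w.x : ℝ)) +
        (r3 : ℝ) * (4 * ((dg b k2 z.y : ℝ) + (dg b k2 w.y : ℝ))))) = 0 by ring, abs_zero]
      norm_num

/-- the constant -/
theorem err_k (hc : okN b r s h r3 K L z q w q' = true) :
    |2 ^ (s + 2 + h) * ((om * (starRingEnd ℂ) (fc (dF b s z) 0) + om ^ 2 * (starRingEnd ℂ) (fc (dF b s w) 0)).re - 11 / 5) -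
      ((kP b h r3 K z w : ℝ) - (kN b s h r3 K w : ℝ))| ≤ 16 * 2 ^ s + 1 := by
  obtain ⟨dz, dw, h3, hz, hw, hK, hL, hLK⟩ := okN_iff hc
  have hs : (0 : ℝ) < 2 ^ s := by positivity
  have hn : (0 : ℤ) ∈ Finset.Icc (-(K : ℤ)) K := by rw [Finset.mem_Icc]; omega
  have a1 := fc_cx (b := b) (s := s) hz hn (k := K) (by ring)
  have a2 := fc_cx (b := b) (s := s) hw hn (k := K) (by ring)
  have rr : ∀ x y : ℝ, (starRingEnd ℂ) ((1 / 2 ^ s : ℂ) * ((x : ℂ) + Complex.I * (y : ℂ))) =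
      ((x / 2 ^ s : ℝ) : ℂ) + Complex.I * ((-(y / 2 ^ s) : ℝ) : ℂ) := by
    intro x y
    have e : (1 / 2 ^ s : ℂ) * ((x : ℂ) + Complex.I * (y : ℂ)) =
        ((x / 2 ^ s : ℝ) : ℂ) + Complex.I * ((y / 2 ^ s : ℝ) : ℂ) := by
      push_cast
      ring
    rw [e, map_add, map_mul, Complex.conj_I, Complex.conj_ofReal, Complex.conj_ofReal]
    push_cast
    ring
  have re1 : ∀ x y : ℝ, ((x : ℂ) + Complex.I * (y : ℂ)).re = x := by intro x y; simp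
  have b1 := (cx_bd dz hz (k := K) (by omega)).2
  have b2 := (cx_bd dw hw (k := K) (by omega)).2
  have e1 : (om * (starRingEnd ℂ) (fc (dF b s z) 0) + om ^ 2 * (starRingEnd ℂ) (fc (dF b s w) 0)).re - 11 / 5 =
      ((2 * cx b z K - 2 * cx b w K - 44 / 5 * 2 ^ s) + Real.sqrt 3 * (2 * (cy b z K + cy b w K))) / (4 * 2 ^ s) := by
    rw [a1, a2, rr, rr, om_c, om2_c, Complex.add_re, re1, re1]
    field_simp
    ring
  refine err1 h3 e1 ?_ ?_
  · rw [abs_mul, abs_of_pos (by norm_num : (0 : ℝ) < 2)]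
    have := abs4 b1 b2
    linarith
  · have eP : kP b h r3 K z w = 2 ^ h * (2 * dg b K z.x) + r3 * (2 * (dg b K z.y + dg b K w.y)) := rfl
    have eN : kN b s h r3 K w = 2 ^ h * (2 * dg b K w.x) + r3 * (4 * 2 ^ b) + 44 * 2 ^ (s + h) / 5 := rfl
    rw [eP, eN]
    set Q : ℕ := 44 * 2 ^ (s + h) / 5 with hQ
    have q1 : 5 * Q ≤ 44 * 2 ^ (s + h) := Nat.mul_div_le _ _
    have q2 : 44 * 2 ^ (s + h) < 5 * (Q + 1) := by omega
    have q1' : (5 : ℝ) * Q ≤ 44 * 2 ^ (s + h) := by exact_mod_cast q1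
    have q2' : (44 : ℝ) * 2 ^ (s + h) < 5 * (Q + 1) := by exact_mod_cast q2
    rw [pow_add] at q1' q2'
    unfold cx cy
    push_cast
    rw [show (2 : ℝ) ^ h * (2 * ((dg b K z.x : ℝ) - 2 ^ b) - 2 * ((dg b K w.x : ℝ) - 2 ^ b) - 44 / 5 * 2 ^ s) +
      (r3 : ℝ) * (2 * ((dg b K z.y : ℝ) - 2 ^ b + ((dg b K w.y : ℝ) - 2 ^ b))) -
      (2 ^ h * (2 * (dg b K z.x : ℝ)) + (r3 : ℝ) * (2 * ((dg b K z.y : ℝ) + (dg b K w.y : ℝ))) -
      (2 ^ h * (2 * (dg b K w.x : ℝ)) + (r3 : ℝ) * (4 * 2 ^ b) + (Q : ℝ))) = (Q : ℝ) - 44 / 5 * (2 ^ s * 2 ^ h) by ring,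
      abs_le]
    constructor <;> linarith

/-- **the row of the linear part of `NrA`** -/
theorem nrR_LR (hc : okN b r s h r3 K L z q w q' = true) :
    LR (nt K L) (2 ^ (s + 2 + h)) (NrX K L (dF b s z) (dF b s w)) (nrR b s h r3 K L z w) (16 * 2 ^ s + 1) := by
  obtain ⟨dz, dw, h3, hz, hw, hK, hL, hLK⟩ := okN_iff hc
  refine ⟨rho K L (fc (dF b s z)) (fc (dF b s w)), fun v hv => NrX_sum hK hL hLK _ _ v hv, fun i hi => ?_⟩
  rw [nrR_cast]
  unfold rho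
  by_cases h0 : i = 0
  · subst h0
    rw [if_pos rfl]
    exact err_k hc
  rw [if_neg h0]
  by_cases h1 : bp K ≤ i
  swap
  · rw [if_pos (by omega), nrP_s h0 h1, nrN_s h0 h1]
    exact err_s hc (i - 1) (by unfold bp at h1; omega)
  rw [if_neg (by omega)]
  by_cases h2 : br K L ≤ i
  swap
  · rw [if_pos (by omega), nrP_p h0 h1 h2, nrN_p h0 h1 h2]
    have := err_p hc (i - bp K) (by unfold br at h2; omega)
    have e : (if i = bp K then (1 : ℝ) else 0) = if i - bp K = 0 then 1 else 0 := by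
      by_cases h4 : i = bp K
      · rw [if_pos h4, if_pos (by omega)]
      · rw [if_neg h4, if_neg (by omega)]
    rw [e]
    exact this
  · rw [if_neg (by omega), nrP_r h0 h1 h2, nrN_r h0 h1 h2]
    exact err_r hc (i - br K L) (by unfold nt at hi; unfold br at h2 ⊢; omega)

end

end Helper87.SH
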