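import Pool.Agent.Helper19.SH.ColZ
import Pool.Agent.Helper42.SH.HFend
import Pool.Agent.Helper42.SH.Wts
import Pool.Agent.Helper43.CL.Dig

/-!
# Project RC, SHARP, cell engine: the fields `x`, `y`, `z` of helper42's `Pieces`

From helper19's rows of the collar (`CIn.X_rows`, `CIn.Y_rows`, `CIn.Z_rows`), digits at most `2 ^ r`, scale `2 ^ 56`.
The column list is a parameter `A` with `A = I.XC` (resp. `I.YC`, `I.ZC`).
-/

set_option autoImplicit false

namespace Helper87.SH

open Helper95.SH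
open Helper25.SH.Mat (Blk row)
open Helper43.CL (LB LB.congr okDig eW LB.sqnD)
open Helper42.SH (LBB LBB.one gX gY gZ)
open Pool.Agent.Helper19.SH (CIn rowC colL_len)

theorem sum_four {M : Type*} [AddCommMonoid M] (f : ℕ → M) (J : ℕ) :
    ∑ k ∈ Finset.range (4 * J), f k = ∑ j ∈ Finset.range J, (f (4 * j) + f (4 * j + 1) + f (4 * j + 2) + f (4 * j + 3)) := by
  induction J with
  | zero => simp
  | succ J ih =>
    rw [Finset.sum_range_succ, ← ih, show 4 * (J + 1) = 4 * J + 4 by ring]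
    rw [Finset.sum_range_succ, Finset.sum_range_succ, Finset.sum_range_succ, Finset.sum_range_succ]
    simp only [add_assoc]

theorem sum_two {M : Type*} [AddCommMonoid M] (f : ℕ → M) (J : ℕ) :
    ∑ k ∈ Finset.range (2 * J), f k = ∑ j ∈ Finset.range J, (f (2 * j) + f (2 * j + 1)) := by
  induction J with
  | zero => simp
  | succ J ih =>
    rw [Finset.sum_range_succ, ← ih, show 2 * (J + 1) = 2 * J + 2 by ring]
    rw [Finset.sum_range_succ, Finset.sum_range_succ]
    simp only [add_assoc]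

theorem nsq (z : ℂ) : ‖z‖ ^ 2 = z.re ^ 2 + z.im ^ 2 := by
  rw [← Complex.normSq_eq_norm_sq, Complex.normSq_apply]; ring

/-- the error of a block: `m` functionals, error `e`, digits at most `2 ^ r` -/
def eC (n cw m e r : ℕ) : ℕ := eW n cw e e (List.replicate m r) (List.replicate m r)

section

variable {c : CD} {I : CIn} {K H J b r cw : ℕ} {A : List ℕ} {t S : ℝ}

/-- **the field `x`** -/
theorem LBB_x (o : I.Ok c (max K (2 * H))) (hK : I.K = K) (hL : I.L = 2 * H) (hJ : I.J1 = J) (hb : I.bo = b)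
    (hS : I.S = 56) (hA : A = I.XC) (hw : 1 / t ≤ (cw : ℝ) / 10 ^ 9)
    (kd : okDig b (List.replicate (4 * J) r) A = true) (hS2 : S = 10 ^ 9 * 2 ^ 112) :
    LBB b (nt K (2 * H)) S (fun v => gX c K H (max K (2 * H)) v J t) [.sq true cw (4 * J) A]
      ((eC (nt K (2 * H)) cw (4 * J) I.EX r : ℕ) : ℝ) := by
  have hl : (List.replicate (4 * J) r).length = 4 * J := List.length_replicate
  set X : ℕ → (ℕ → ℝ) → ℝ := fun k v =>
    if k % 2 = 0 then (Xr c (max K (2 * H)) (pV K (2 * H) v) (rV K (2 * H) v) (sV K v) (I.kkX k)).re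
    else (Xr c (max K (2 * H)) (pV K (2 * H) v) (rV K (2 * H) v) (sV K v) (I.kkX k)).im with hX
  have hlen : A.length = nt K (2 * H) := by
    rw [hA, ← hK, ← hL]
    exact colL_len _ _ _
  have rows : ∀ k < (List.replicate (4 * J) r).length, LR (nt K (2 * H)) (2 ^ 56) (X k) (row b A k) (I.EX : ℕ) := by
    intro k hk
    rw [hl, ← hJ] at hk
    have h := CIn.X_rows o hk
    rw [hK, hL, hS, hb, ← hA] at h
    by_cases hp : k % 2 = 0
    · have e : X k = fun v => (Xr c (max K (2 * H)) (pV K (2 * H) v) (rV K (2 * H) v) (sV K v) (I.kkX k)).re := by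
        funext v
        rw [hX]
        simp only [if_pos hp]
      rw [e]
      exact h.1 hp
    · have e : X k = fun v => (Xr c (max K (2 * H)) (pV K (2 * H) v) (rV K (2 * H) v) (sV K v) (I.kkX k)).im := by
        funext v
        rw [hX]
        simp only [if_neg hp]
      rw [e]
      exact h.2 hp
  have hc : ∀ k < (List.replicate (4 * J) r).length, (10 ^ 9 : ℝ) * (fun _ => 1 / t) k ≤ (cw : ℝ) := by
    intro k _
    rw [le_div_iff₀ (by norm_num)] at hw
    linarith
  have main := LB.sqnD (G := 10 ^ 9) (w := fun _ => 1 / t) (s := 56) (e := I.EX) (X := X) hlen kd rows hc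
  rw [hl] at main
  rw [hS2]
  have e1 : (10 ^ 9 * 2 ^ 112 : ℝ) = 10 ^ 9 * (2 ^ 56 * 2 ^ 56) := by norm_num
  rw [e1]
  refine LBB.one (LB.congr main (fun v _ => ?_) fun v _ => rfl)
  unfold gX
  rw [sum_four, Finset.mul_sum]
  congr 1
  refine Finset.sum_congr rfl fun j _ => ?_
  have k0 : I.kkX (4 * j) = (K : ℤ) + 2 + 2 * j := by
    unfold CIn.kkX
    rw [if_pos (by omega), hK, show 4 * j / 4 = j by omega]
  have k1 : I.kkX (4 * j + 1) = (K : ℤ) + 2 + 2 * j := by
    unfold CIn.kkX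
    rw [if_pos (by omega), hK, show (4 * j + 1) / 4 = j by omega]
  have k2 : I.kkX (4 * j + 2) = -((K : ℤ) + 2 + 2 * j) := by
    unfold CIn.kkX
    rw [if_neg (by omega), hK, show (4 * j + 2) / 4 = j by omega]
  have k3 : I.kkX (4 * j + 3) = -((K : ℤ) + 2 + 2 * j) := by
    unfold CIn.kkX
    rw [if_neg (by omega), hK, show (4 * j + 3) / 4 = j by omega]
  simp only [hX]
  rw [if_pos (by omega), if_neg (by omega), if_pos (by omega), if_neg (by omega), k0, k1, k2, k3, nsq, nsq]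
  ring

/-- the sum of a family of pairs -/
theorem LBB_pair {I : CIn} (hK : I.K = K) (hL : I.L = 2 * H) (hJ : I.J2 = J) (hb : I.bo = b) (hS : I.S = 56)
    {F : (ℕ → ℝ) → ℤ → ℂ} {B : List ℕ} {E : ℕ}
    (h : ∀ j < 2 * I.J2, (j % 2 = 0 → LR (nt I.K I.L) (2 ^ I.S) (fun v => (F v (I.kkL (j / 2))).re) (rowC I.bo B j) E) ∧
      (¬ j % 2 = 0 → LR (nt I.K I.L) (2 ^ I.S) (fun v => (F v (I.kkL (j / 2))).im) (rowC I.bo B j) E))
    (hlen : B.length = nt K (2 * H)) (hA : A = B) (hw : 2 / t ≤ (cw : ℝ) / 10 ^ 9)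
    (kd : okDig b (List.replicate (2 * J) r) A = true) (hS2 : S = 10 ^ 9 * 2 ^ 112) :
    LBB b (nt K (2 * H)) S (fun v => -(2 / t * ∑ j ∈ Finset.range J, ‖F v (((2 * H : ℕ) : ℤ) + 2 + 2 * j)‖ ^ 2))
      [.sq true cw (2 * J) A] ((eC (nt K (2 * H)) cw (2 * J) E r : ℕ) : ℝ) := by
  have hl : (List.replicate (2 * J) r).length = 2 * J := List.length_replicate
  set X : ℕ → (ℕ → ℝ) → ℝ := fun k v =>
    if k % 2 = 0 then (F v (I.kkL (k / 2))).re else (F v (I.kkL (k / 2))).im with hX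
  rw [← hA] at hlen
  have rows : ∀ k < (List.replicate (2 * J) r).length, LR (nt K (2 * H)) (2 ^ 56) (X k) (row b A k) (E : ℕ) := by
    intro k hk
    rw [hl, ← hJ] at hk
    have h := h k hk
    rw [hK, hL, hS, hb, ← hA] at h
    by_cases hp : k % 2 = 0
    · have e : X k = fun v => (F v (I.kkL (k / 2))).re := by
        funext v
        rw [hX]
        simp only [if_pos hp]
      rw [e]
      exact h.1 hp
    · have e : X k = fun v => (F v (I.kkL (k / 2))).im := by
        funext v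
        rw [hX]
        simp only [if_neg hp]
      rw [e]
      exact h.2 hp
  have hc : ∀ k < (List.replicate (2 * J) r).length, (10 ^ 9 : ℝ) * (fun _ => 2 / t) k ≤ (cw : ℝ) := by
    intro k _
    rw [le_div_iff₀ (by norm_num)] at hw
    linarith
  have main := LB.sqnD (G := 10 ^ 9) (w := fun _ => 2 / t) (s := 56) (e := E) (X := X) hlen kd rows hc
  rw [hl] at main
  rw [hS2]
  have e1 : (10 ^ 9 * 2 ^ 112 : ℝ) = 10 ^ 9 * (2 ^ 56 * 2 ^ 56) := by norm_num
  rw [e1]
  refine LBB.one (LB.congr main (fun v _ => ?_) fun v _ => rfl)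
  beta_reduce
  rw [sum_two, Finset.mul_sum]
  congr 1
  refine Finset.sum_congr rfl fun j _ => ?_
  have k0 : I.kkL j = ((2 * H : ℕ) : ℤ) + 2 + 2 * j := by
    unfold CIn.kkL
    rw [hL]
  simp only [hX]
  rw [if_pos (by omega), if_neg (by omega), show 2 * j / 2 = j by omega, show (2 * j + 1) / 2 = j by omega, k0, nsq]
  ring

/-- **the field `y`** -/
theorem LBB_y (o : I.Ok c (max K (2 * H))) (hK : I.K = K) (hL : I.L = 2 * H) (hJ : I.J2 = J) (hb : I.bo = b)
    (hS : I.S = 56) (hA : A = I.YC) (hw : 2 / t ≤ (cw : ℝ) / 10 ^ 9)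
    (kd : okDig b (List.replicate (2 * J) r) A = true) (hS2 : S = 10 ^ 9 * 2 ^ 112) :
    LBB b (nt K (2 * H)) S (fun v => gY c K H (max K (2 * H)) v J t) [.sq true cw (2 * J) A]
      ((eC (nt K (2 * H)) cw (2 * J) I.EY r : ℕ) : ℝ) :=
  LBB_pair (I := I) hK hL hJ hb hS
    (F := fun v n => Yr c (max K (2 * H)) (pV K (2 * H) v) (rV K (2 * H) v) (sV K v) n) (B := I.YC)
    (fun j hj => by
      have h := CIn.Y_rows o hj
      rw [hK, hL] at h ⊢
      exact h) (by rw [← hK, ← hL]; exact colL_len _ _ _) hA hw kd hS2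

/-- **the field `z`** -/
theorem LBB_z (o : I.Ok c (max K (2 * H))) (hK : I.K = K) (hL : I.L = 2 * H) (hJ : I.J2 = J) (hb : I.bo = b)
    (hS : I.S = 56) (hA : A = I.ZC) (hw : 2 / t ≤ (cw : ℝ) / 10 ^ 9)
    (kd : okDig b (List.replicate (2 * J) r) A = true) (hS2 : S = 10 ^ 9 * 2 ^ 112) :
    LBB b (nt K (2 * H)) S (fun v => gZ c K H (max K (2 * H)) v J t) [.sq true cw (2 * J) A]
      ((eC (nt K (2 * H)) cw (2 * J) I.EZ r : ℕ) : ℝ) :=
  LBB_pair (I := I) hK hL hJ hb hS
    (F := fun v n => Zr c (max K (2 * H)) (pV K (2 * H) v) (rV K (2 * H) v) (sV K v) n) (B := I.ZC)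
    (fun j hj => by
      have h := CIn.Z_rows o hj
      rw [hK, hL] at h ⊢
      exact h) (by rw [← hK, ← hL]; exact colL_len _ _ _) hA hw kd hS2

end

end Helper87.SH
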